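import Pool.Agent.BQN.Chk

/-! Tests over appended lists. -/

namespace BQN

theorem allB_append {α : Type} {l m : List α} {p : α → Bool} (h1 : allB l p = true)
    (h2 : allB m p = true) : allB (l ++ m) p = true := by
  induction l with
  | nil => exact h2
  | cons a l ih =>
    have e1 : allB (a :: l) p = (p a && allB l p) := rfl
    have e2 : allB (a :: l ++ m) p = (p a && allB (l ++ m) p) := rfl
    rw [e1, Bool.and_eq_true] at h1
    rw [e2, Bool.and_eq_true]
    exact ⟨h1.1, ih h1.2⟩

end BQN
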