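/-! Kernel-friendly integer routines. -/

namespace BQN

/-- evaluate a natural number before passing it on -/
def fN {α : Type} (n : Nat) (k : Nat → α) : α := Nat.rec (k 0) (fun m _ => k (Nat.succ m)) n

/-- evaluate an integer before passing it on -/
def fI {α : Type} (z : Int) (k : Int → α) : α := match z with
  | Int.ofNat n => fN n fun n => k (Int.ofNat n)
  | Int.negSucc n => fN n fun n => k (Int.negSucc n)

/-- Newton iteration with fuel -/
def newton (k n : Nat) : Nat → Nat :=
  Nat.rec (fun x => x) (fun _ ih x => fN (Nat.div (Nat.add x (Nat.div n x)) 2) fun y =>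
    bif Nat.ble x y then x else ih y) k

/-- a candidate for the integer square root -/
def isq (n : Nat) : Nat :=
  fN n fun n => newton 40 n (Nat.pow 2 (Nat.add (Nat.div (Nat.log2 n) 2) 1))

def DB (m : Nat) : Nat := bif Nat.beq (Nat.mod m 4) 1 then m else Nat.mul 4 m

def typB (a b c : Nat) : Nat :=
  bif Nat.beq (Nat.mod b 4) (Nat.mod c 4) then
    (bif Nat.beq (Nat.mod a 4) 1 && Nat.beq (Nat.mod b 4) 1 then 0 else 1)
  else bif Nat.beq (Nat.mod a 4) (Nat.mod c 4) then 2 else 3

def kapB (m : Nat) : Nat :=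
  bif Nat.beq m 2 then 12 else bif Nat.beq m 3 then 12 else bif Nat.beq m 10 then 14 else 10

/-- the test, all auxiliary quantities given -/
def goodAux (D1 D2 D3 t k c N n q : Nat) : Bool :=
  Nat.beq (4 * N + D2) (c * c) && Nat.ble 1 N && Nat.ble (N + 1) c && Nat.ble 16 D2 &&
  Nat.ble D2 D3 && Nat.ble (4096 * N) (n * n) && Nat.ble (k * (64 * c + 2 * n) + 1) (64 * D2) &&
  (!Nat.beq t 2 || Nat.ble (4 * (k * (64 * c + 2 * n)) + 1) (64 * D3)) &&
  (!Nat.beq t 3 || (Nat.ble (4 * (k * (64 * c + 2 * n)) + 1) (64 * (D1 + D2 + 2 * q)) &&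
    Nat.ble (q * q) (D1 * D2)))

end BQN
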