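import Pool.Agent.BQN.Base

/-! The checker: four totally positive elements no Gram matrix of which is singular. -/

noncomputable section

namespace BQN

/-- the element `x0 + x1 √m1 + x2 √m2 + x3 √m3` -/
structure V where
  x0 : Int
  x1 : Int
  x2 : Int
  x3 : Int

structure Fd where
  m1 : Int
  m2 : Int
  m3 : Int
  g : Int
  u : Int
  v : Int
  q1 : Nat
  q2 : Nat
  q3 : Nat
  i1 : Bool
  i2 : Bool
  i3 : Bool

/-- vector with scaled upper bounds of the square roots at the four embeddings -/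
structure VS where
  v : V
  ra : Nat
  rb : Nat
  rc : Nat
  rd : Nat

def isZ (z : Int) : Bool := match z with
  | Int.ofNat n => Nat.beq n 0
  | Int.negSucc _ => false

def V.isZero (a : V) : Bool := isZ a.x0 && isZ a.x1 && isZ a.x2 && isZ a.x3

def V.isRat (a : V) : Bool := isZ a.x1 && isZ a.x2 && isZ a.x3

def V.mul (F : Fd) (a b : V) : V :=
  ⟨Int.add (Int.add (Int.add (Int.mul a.x0 b.x0) (Int.mul F.m1 (Int.mul a.x1 b.x1)))
      (Int.mul F.m2 (Int.mul a.x2 b.x2))) (Int.mul F.m3 (Int.mul a.x3 b.x3)),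
   Int.add (Int.add (Int.mul a.x0 b.x1) (Int.mul a.x1 b.x0))
      (Int.mul F.v (Int.add (Int.mul a.x2 b.x3) (Int.mul a.x3 b.x2))),
   Int.add (Int.add (Int.mul a.x0 b.x2) (Int.mul a.x2 b.x0))
      (Int.mul F.u (Int.add (Int.mul a.x1 b.x3) (Int.mul a.x3 b.x1))),
   Int.add (Int.add (Int.mul a.x0 b.x3) (Int.mul a.x3 b.x0))
      (Int.mul F.g (Int.add (Int.mul a.x1 b.x2) (Int.mul a.x2 b.x1)))⟩

def V.smul (k : Int) (a : V) : V :=
  ⟨Int.mul k a.x0, Int.mul k a.x1, Int.mul k a.x2, Int.mul k a.x3⟩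

/-- product with a shortcut for rational factors -/
def V.mulq (F : Fd) (a b : V) : V :=
  bif a.isRat then V.smul a.x0 b else bif b.isRat then V.smul b.x0 a else V.mul F a b

def V.add (a b : V) : V :=
  ⟨Int.add a.x0 b.x0, Int.add a.x1 b.x1, Int.add a.x2 b.x2, Int.add a.x3 b.x3⟩

def V.sub (a b : V) : V :=
  ⟨Int.sub a.x0 b.x0, Int.sub a.x1 b.x1, Int.sub a.x2 b.x2, Int.sub a.x3 b.x3⟩

def fV {α : Type} (a : V) (k : V → α) : α :=
  fI a.x0 fun x0 => fI a.x1 fun x1 => fI a.x2 fun x2 => fI a.x3 fun x3 => k ⟨x0, x1, x2, x3⟩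

def fL {α : Type} (l : List V) : (List V → α) → α :=
  List.rec (fun k => k []) (fun a _ ih k => fV a fun a => ih fun l => k (a :: l)) l

def allB {α : Type} (l : List α) (p : α → Bool) : Bool :=
  List.rec true (fun a _ ih => p a && ih) l

def flt (l : List V) (p : V → Bool) : List V :=
  List.rec [] (fun a _ ih => bif p a then a :: ih else ih) l

def leI (a b : Int) : Bool := match Int.sub b a with
  | Int.ofNat _ => true
  | Int.negSucc _ => false

def mxI (a b : Int) : Int := bif leI a b then b else a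

def mnI (a b : Int) : Int := bif leI a b then a else b

def sqrtUp (n : Nat) : Nat :=
  fN n fun n => fN (Nat.add (isq n) 1) fun x => bif Nat.ble n (Nat.mul x x) then x else n

/-- `x = x0, x0 + 2, ..., x0 + 2 (n - 1)` -/
def loop (step : Int → List V → List V) (n : Nat) : Int → List V → List V :=
  Nat.rec (fun _ acc => acc) (fun _ ih x acc => fI x fun x => step x (ih (Int.add x 2) acc)) n

def step1 (o : Int) (q1 ra rb rc rd p v x2 x3 : Int) (x1 : Int) (acc : List V) : List V :=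
  fI (Int.mul x1 q1) fun y =>
  fI (Int.add y p) fun a1 => fI (Int.sub y p) fun a2 => fI (Int.sub v y) fun a3 =>
  fI (Int.add v y) fun a4 =>
  fI (mxI (mxI (Int.sub (Int.neg a1) ra) (Int.sub (Int.neg a2) rb))
    (mxI (Int.sub (Int.neg a3) rc) (Int.sub a4 rd))) fun lo =>
  fI (mnI (mnI (Int.sub ra a1) (Int.sub rb a2)) (mnI (Int.sub rc a3) (Int.add rd a4))) fun hi =>
  fI (Int.ediv (Int.add (Int.sub lo (Int.mul 1024 o)) 2047) 2048) fun l =>
  fI (Int.ediv (Int.sub hi (Int.mul 1024 o)) 2048) fun h =>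
  bif leI l h then
    loop (fun x0 acc => ⟨x0, x1, x2, x3⟩ :: acc) (Int.toNat (Int.add (Int.sub h l) 1))
      (Int.add (Int.mul 2 l) o) acc
  else acc

def step2 (o q1 q2 ra rb rc rd : Int) (k1 : Nat) (s1 x3 y3 : Int) (x2 : Int) (acc : List V) :
    List V :=
  fI (Int.mul x2 q2) fun y2 => fI (Int.add y2 y3) fun p => fI (Int.sub y2 y3) fun v =>
  bif leI (Int.mul 2 p) (Int.add ra rb) && leI (Int.neg (Int.mul 2 p)) (Int.add ra rb) &&
    leI (Int.mul 2 v) (Int.add rc rd) && leI (Int.neg (Int.mul 2 v)) (Int.add rc rd) then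
    loop (step1 o q1 ra rb rc rd p v x2 x3) k1 s1 acc
  else acc

def step3 (o q1 q2 q3 ra rb rc rd : Int) (k1 : Nat) (s1 : Int) (k2 : Nat) (s2 : Int) (x3 : Int)
    (acc : List V) : List V :=
  fI (Int.mul x3 q3) fun y3 => loop (step2 o q1 q2 ra rb rc rd k1 s1 x3 y3) k2 s2 acc

/-- all vectors in the box with all coordinates of the parity of `o` -/
def pass (F : Fd) (o : Nat) (b1 b2 b3 : Nat) (ra rb rc rd : Int) : List V :=
  fN (Nat.div (Nat.add b1 o) 2) fun h1 => fN (Nat.div (Nat.add b2 o) 2) fun h2 =>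
  fN (Nat.div (Nat.add b3 o) 2) fun h3 =>
  fI (Int.sub (Int.ofNat o) (Int.ofNat (Nat.add h1 h1))) fun s1 =>
  fI (Int.sub (Int.ofNat o) (Int.ofNat (Nat.add h2 h2))) fun s2 =>
  fI (Int.sub (Int.ofNat o) (Int.ofNat (Nat.add h3 h3))) fun s3 =>
  fN (Nat.sub (Nat.add (Nat.add h1 h1) 1) o) fun k1 =>
  fN (Nat.sub (Nat.add (Nat.add h2 h2) 1) o) fun k2 =>
  fN (Nat.sub (Nat.add (Nat.add h3 h3) 1) o) fun k3 =>
  loop (step3 (Int.ofNat o) (Int.ofNat F.q1) (Int.ofNat F.q2) (Int.ofNat F.q3) ra rb rc rd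
    k1 s1 k2 s2) k3 s3 []

def cand (F : Fd) (ra rb rc rd : Nat) : List V :=
  fN (Nat.div (Nat.add (Nat.add ra rb) (Nat.add rc rd)) 4) fun s =>
  fN (Nat.div s F.q1) fun b1 => fN (Nat.div s F.q2) fun b2 => fN (Nat.div s F.q3) fun b3 =>
  fN (Nat.add (Nat.add b1 b2) b3) fun e =>
  fI (Int.ofNat (Nat.add ra e)) fun ra => fI (Int.ofNat (Nat.add rb e)) fun rb =>
  fI (Int.ofNat (Nat.add rc e)) fun rc => fI (Int.ofNat (Nat.add rd e)) fun rd =>
  bif F.i1 && F.i2 && F.i3 then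
    List.append (pass F 0 b1 b2 b3 ra rb rc rd) (pass F 1 b1 b2 b3 ra rb rc rd)
  else pass F 0 b1 b2 b3 ra rb rc rd

/-- continue with the bounds, or stop if the element is negative at some embedding -/
def mkVS (F : Fd) (t : V) (k : VS → Bool) : Bool :=
  fV t fun t =>
  fI (Int.ofNat (Nat.add (Nat.add t.x1.natAbs t.x2.natAbs) t.x3.natAbs)) fun e =>
  fI (Int.add (Int.mul 1024 t.x0) e) fun c =>
  fI (Int.mul t.x1 (Int.ofNat F.q1)) fun y1 =>
  fI (Int.mul t.x2 (Int.ofNat F.q2)) fun y2 =>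
  fI (Int.mul t.x3 (Int.ofNat F.q3)) fun y3 =>
  fI (Int.add (Int.add c y1) (Int.add y2 y3)) fun a =>
  fI (Int.sub (Int.add c y1) (Int.add y2 y3)) fun b =>
  fI (Int.add (Int.sub c y1) (Int.sub y2 y3)) fun d =>
  fI (Int.sub (Int.sub c y1) (Int.sub y2 y3)) fun f =>
  bif leI 0 a && leI 0 b && leI 0 d && leI 0 f then
    fN (sqrtUp (Nat.mul 1024 a.toNat)) fun a => fN (sqrtUp (Nat.mul 1024 b.toNat)) fun b =>
    fN (sqrtUp (Nat.mul 1024 d.toNat)) fun d => fN (sqrtUp (Nat.mul 1024 f.toNat)) fun f =>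
    k ⟨t, a, b, d, f⟩
  else true

/-- the relative norm to the subfield of `√m1` is integral; `P = x0² + m1 x1² - m2 x2² - m3 x3²`,
`Q = 2 (x0 x1 - v x2 x3)` -/
def integ1 (i1 : Bool) (m1 m2 m3 v x0 x1 x2 x3 : Int) : Bool :=
  fI (Int.sub (Int.add (Int.mul x0 x0) (Int.mul m1 (Int.mul x1 x1)))
    (Int.add (Int.mul m2 (Int.mul x2 x2)) (Int.mul m3 (Int.mul x3 x3)))) fun p =>
  fI (Int.mul 2 (Int.sub (Int.mul x0 x1) (Int.mul v (Int.mul x2 x3)))) fun q =>
  bif i1 then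
    isZ (Int.emod p 8) && isZ (Int.emod q 8) && isZ (Int.emod (Int.sub p q) 16)
  else
    isZ (Int.emod p 16) && isZ (Int.emod q 16)

def integ (F : Fd) (x : V) : Bool :=
  fV x fun x =>
  integ1 F.i1 F.m1 F.m2 F.m3 F.v x.x0 x.x1 x.x2 x.x3 &&
  integ1 F.i2 F.m2 F.m1 F.m3 F.u x.x0 x.x2 x.x1 x.x3 &&
  integ1 F.i3 F.m3 F.m1 F.m2 F.g x.x0 x.x3 x.x1 x.x2

/-- candidates for the product of two vectors -/
def cands (F : Fd) (s t : VS) : List V :=
  fN (Nat.add (Nat.div (Nat.mul s.ra t.ra) 4096) 1) fun ra =>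
  fN (Nat.add (Nat.div (Nat.mul s.rb t.rb) 4096) 1) fun rb =>
  fN (Nat.add (Nat.div (Nat.mul s.rc t.rc) 4096) 1) fun rc =>
  fN (Nat.add (Nat.div (Nat.mul s.rd t.rd) 4096) 1) fun rd =>
  flt (cand F ra rb rc rd) (integ F)

def okq (m q : Nat) : Bool :=
  Nat.ble (Nat.mul q q) (Nat.mul m 1048576) &&
  Nat.ble (Nat.mul m 1048576) (Nat.mul (Nat.add q 1) (Nat.add q 1)) && Nat.ble 1 q

def mkFd (g u v : Nat) (k : Fd → Bool) : Bool :=
  fN (Nat.mul g u) fun m1 => fN (Nat.mul g v) fun m2 => fN (Nat.mul u v) fun m3 =>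
  fN (isq (Nat.mul m1 1048576)) fun q1 =>
  fN (isq (Nat.mul m2 1048576)) fun q2 =>
  fN (isq (Nat.mul m3 1048576)) fun q3 =>
  bif okq m1 q1 && okq m2 q2 && okq m3 q3 then
    k ⟨Int.ofNat m1, Int.ofNat m2, Int.ofNat m3, Int.ofNat g, Int.ofNat u, Int.ofNat v, q1, q2, q3,
      Nat.beq (Nat.mod m1 4) 1, Nat.beq (Nat.mod m2 4) 1, Nat.beq (Nat.mod m3 4) 1⟩
  else false

def halfPos (a : V) : Bool :=
  match a.x0 with
  | Int.negSucc _ => false
  | Int.ofNat (_ + 1) => true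
  | Int.ofNat 0 => match a.x1 with
    | Int.negSucc _ => false
    | Int.ofNat (_ + 1) => true
    | Int.ofNat 0 => match a.x2 with
      | Int.negSucc _ => false
      | Int.ofNat (_ + 1) => true
      | Int.ofNat 0 => match a.x3 with
        | Int.negSucc _ => false
        | Int.ofNat _ => true

/-- total positivity and integrality of `a / 4` -/
def okel (F : Fd) (a : V) : Bool :=
  fV a fun a =>
  fI (Int.ofNat (Nat.add (Nat.add a.x1.natAbs a.x2.natAbs) a.x3.natAbs)) fun e =>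
  fI (Int.sub (Int.mul 1024 a.x0) e) fun c =>
  fI (Int.mul a.x1 (Int.ofNat F.q1)) fun y1 =>
  fI (Int.mul a.x2 (Int.ofNat F.q2)) fun y2 =>
  fI (Int.mul a.x3 (Int.ofNat F.q3)) fun y3 =>
  leI 1 (Int.add (Int.add c y1) (Int.add y2 y3)) &&
  leI 1 (Int.sub (Int.add c y1) (Int.add y2 y3)) &&
  leI 1 (Int.add (Int.sub c y1) (Int.sub y2 y3)) &&
  leI 1 (Int.sub (Int.sub c y1) (Int.sub y2 y3)) &&
  (bif F.i1 then isZ (Int.emod (Int.sub a.x0 a.x1) 2)
    else isZ (Int.emod a.x0 2) && isZ (Int.emod a.x1 2)) &&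
  integ1 F.i1 F.m1 F.m2 F.m3 F.v a.x0 a.x1 a.x2 a.x3

/-- all possibilities for `16 (α - b²)` -/
def red (F : Fd) (one : VS) (al : V) (k : VS → Bool) : Bool :=
  okel F al &&
  (fV (V.smul 4 al) fun A =>
    mkVS F A fun sA =>
    fL (flt (cands F sA one) halfPos) fun l =>
    allB l fun b => mkVS F (V.sub A (V.mulq F b b)) k)

def check4 (F : Fd) (s1 s2 s3 s4 : VS) : Bool :=
  fL (flt (cands F s1 s2) halfPos) fun C12 =>
  fL (flt (cands F s1 s3) halfPos) fun C13 =>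
  fL (flt (cands F s1 s4) halfPos) fun C14 =>
  fL (cands F s2 s3) fun C23 =>
  fL (cands F s2 s4) fun C24 =>
  fL (cands F s3 s4) fun C34 =>
  allB C12 fun x => allB C13 fun y => allB C23 fun z =>
    fV (V.smul 4 x) fun x =>
    fV (V.smul 4 y) fun y =>
    fV (V.smul 4 z) fun z =>
    fV (V.sub (V.mulq F s2.v s3.v) (V.mulq F z z)) fun A11 =>
    fV (V.sub (V.mulq F s1.v s3.v) (V.mulq F y y)) fun A22 =>
    fV (V.sub (V.mulq F s1.v s2.v) (V.mulq F x x)) fun A33 =>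
    fV (V.sub (V.mulq F z y) (V.mulq F x s3.v)) fun A12 =>
    fV (V.sub (V.mulq F x z) (V.mulq F s2.v y)) fun A13 =>
    fV (V.sub (V.mulq F x y) (V.mulq F s1.v z)) fun A23 =>
    fV (V.mulq F s1.v A11) fun e1 => fV (V.mulq F x A12) fun e2 => fV (V.mulq F y A13) fun e3 =>
    fV (V.add (V.add e1 e2) e3) fun D =>
    fV (V.mulq F s4.v D) fun tD =>
    allB C14 fun u => allB C24 fun v =>
      fV (V.smul 4 u) fun u =>
      fV (V.smul 4 v) fun v =>
      fV (V.mulq F u u) fun uu => fV (V.mulq F v v) fun vv => fV (V.mulq F u v) fun uv =>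
      fV (V.mulq F uu A11) fun f1 => fV (V.mulq F vv A22) fun f2 => fV (V.mulq F uv A12) fun f3 =>
      fV (V.sub tD (V.add (V.add f1 f2) (V.smul 2 f3))) fun q' =>
      fV (V.smul 2 (V.add (V.mulq F u A13) (V.mulq F v A23))) fun lin =>
      allB C34 fun w =>
        fV (V.smul 4 w) fun w =>
        fV (V.add (V.mulq F w A33) lin) fun g =>
        !(V.sub q' (V.mulq F w g)).isZero

def check (g u v : Nat) (a b c d : V) : Bool :=
  mkFd g u v fun F =>
  mkVS F ⟨16, 0, 0, 0⟩ fun one =>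
  red F one a fun t1 => red F one b fun t2 => red F one c fun t3 => red F one d fun t4 =>
    check4 F t1 t2 t3 t4

/-- a table entry -/
structure E where
  g : Nat
  u : Nat
  v : Nat
  a : V
  b : V
  c : V
  d : V

def E.ok (e : E) : Bool := check e.g e.u e.v e.a e.b e.c e.d

end BQN
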