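import Pool.Agent.BQN.Typ

/-! Small algebraic integers lie in the first quadratic subfield. -/

namespace BQN

open NumberField BQF

/-- membership in the fixed field of `√m2 ↦ -√m2`, seen through the real embeddings -/
def InF {K : Type*} [Field K] [NumberField K] {m1 m2 m3 g : ℕ} (F : Fld K m1 m2 m3 g) (b : K) :
    Prop :=
  F.s true true b = F.s true false b ∧ F.s false true b = F.s false false b

/-- algebraic integers bounded by `P` at the embeddings `(·, +)` and by `Q` at `(·, -)`, with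
`P + Q ≤ R`, lie in the subfield -/
def Mem {K : Type*} [Field K] [NumberField K] {m1 m2 m3 g : ℕ} (F : Fld K m1 m2 m3 g) (R : ℝ) :
    Prop :=
  ∀ (b : 𝓞 K) (P Q : ℝ), (∀ i, |F.s i true (b : K)| ≤ P) → (∀ i, |F.s i false (b : K)| ≤ Q) →
    P + Q ≤ R → InF F (b : K)

theorem abs_add_abs_le {a b R : ℝ} (h1 : |a + b| ≤ R) (h2 : |a - b| ≤ R) : |a| + |b| ≤ R := by
  have := abs_le.mp h1
  have := abs_le.mp h2
  rcases abs_cases a with ⟨h, _⟩ | ⟨h, _⟩ <;> rcases abs_cases b with ⟨h', _⟩ | ⟨h', _⟩ <;>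
    rw [h, h'] <;> linarith

theorem one_le_abs' {Z : ℤ} (h : Z ≠ 0) : (1 : ℝ) ≤ |(Z : ℝ)| := by
  have : (1 : ℤ) ≤ |Z| := Int.one_le_abs h
  exact_mod_cast this

theorem two_le_abs' {Z : ℤ} (h : Z ≠ 0) (h2 : (2 : ℤ) ∣ Z) : (2 : ℝ) ≤ |(Z : ℝ)| := by
  obtain ⟨k, rfl⟩ := h2
  have hk : k ≠ 0 := by rintro rfl; exact h rfl
  have : (2 : ℤ) ≤ |2 * k| := by
    have e : |(2 : ℤ)| = 2 := by norm_num
    rw [abs_mul, e]
    have := Int.one_le_abs hk
    omega
  exact_mod_cast this

section
variable {K : Type*} [Field K] [NumberField K] {g u v : ℕ}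

theorem mem_of (F : Fld K (g * u) (g * v) (u * v) g) (hs : Squarefree (g * u * v)) {R : ℝ}
    (h23 : D (g * v) ≤ D (u * v)) (c2 : R < √(D (g * v) : ℝ))
    (c3 : typ (g * u) (g * v) (u * v) = 2 → 2 * R < √(D (u * v) : ℝ))
    (c4 : typ (g * u) (g * v) (u * v) = 3 → 2 * R < √(D (g * u) : ℝ) + √(D (g * v) : ℝ)) :
    Mem F R := by
  intro b P Q hP hQ hPQ
  obtain ⟨Z0, Z1, Z2, Z3, hr, p1, p2, p3⟩ := zcoord F hs b
  have tt := hr true true
  have tf := hr true false
  have ft := hr false true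
  have ff := hr false false
  simp only [sg_true, sg_false] at tt tf ft ff
  have s23 : √(D (g * v) : ℝ) ≤ √(D (u * v) : ℝ) := Real.sqrt_le_sqrt (by exact_mod_cast h23)
  have s1 : 0 ≤ √(D (g * u) : ℝ) := Real.sqrt_nonneg _
  have s2 : 0 ≤ √(D (g * v) : ℝ) := Real.sqrt_nonneg _
  have s3 : 0 ≤ √(D (u * v) : ℝ) := Real.sqrt_nonneg _
  set r1 := √(D (g * u) : ℝ)
  set r2 := √(D (g * v) : ℝ)
  set r3 := √(D (u * v) : ℝ)
  have btt := abs_le.mp (hP true)
  have bft := abs_le.mp (hP false)
  have btf := abs_le.mp (hQ true)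
  have bff := abs_le.mp (hQ false)
  have k23 : |(Z2 : ℝ) * r2| + |(Z3 : ℝ) * r3| ≤ 2 * R := by
    apply abs_add_abs_le
    · rw [abs_le]; constructor <;> linarith
    · rw [abs_le]; constructor <;> linarith
  rw [abs_mul, abs_mul, abs_of_nonneg s2, abs_of_nonneg s3] at k23
  have a2 : 0 ≤ |(Z2 : ℝ)| := abs_nonneg _
  have a3 : 0 ≤ |(Z3 : ℝ)| := abs_nonneg _
  have typ3 : typ (g * u) (g * v) (u * v) ≤ 1 ∨ typ (g * u) (g * v) (u * v) = 2 ∨
      typ (g * u) (g * v) (u * v) = 3 := by
    unfold typ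
    split_ifs <;> simp
  have hZ3 : Z3 = 0 := by
    by_contra h3
    have t3 := one_le_abs' h3
    have big : 2 ∣ Z3 → False := by
      intro hd
      have := two_le_abs' h3 hd
      nlinarith
    rcases typ3 with ht | ht | ht
    · by_cases h2 : Z2 = 0
      · have := p1 ht
        rw [h2] at this
        exact big (by omega)
      · have := one_le_abs' h2
        nlinarith
    · have := c3 ht
      nlinarith
    · exact big (p3 ht).1
  have hZ2 : Z2 = 0 := by
    by_contra h2
    have t2 := one_le_abs' h2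
    have big : 2 ∣ Z2 → False := by
      intro hd
      have := two_le_abs' h2 hd
      nlinarith
    rcases typ3 with ht | ht | ht
    · have := p1 ht
      rw [hZ3] at this
      exact big (by omega)
    · exact big (p2 ht).1
    · have h1 : Z1 ≠ 0 := by
        rintro rfl
        have := (p3 ht).2
        exact big (by omega)
      have t1 := one_le_abs' h1
      have k12 : |(Z1 : ℝ) * r1| + |(Z2 : ℝ) * r2| ≤ 2 * R := by
        rw [hZ3] at tt tf ft ff
        apply abs_add_abs_le
        · rw [abs_le]; push_cast at tt tf ft ff; constructor <;> linarith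
        · rw [abs_le]; push_cast at tt tf ft ff; constructor <;> linarith
      rw [abs_mul, abs_mul, abs_of_nonneg s1, abs_of_nonneg s2] at k12
      have := c4 ht
      nlinarith
  rw [hZ2, hZ3] at tt tf ft ff
  push_cast at tt tf ft ff
  constructor <;> linarith

end

end BQN
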