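import Pool.Agent.BQN.Gram
import Pool.Agent.BQN.Mem

/-! The main argument: vectors of norms `β`, `β'`, `s β` together with a plane over the subfield. -/

namespace BQN

open NumberField BQF Matrix

section
variable {K : Type*} [Field K] [NumberField K] {m1 m2 m3 g : ℕ} {F : Fld K m1 m2 m3 g}

theorem InF.add {a b : K} (ha : InF F a) (hb : InF F b) : InF F (a + b) :=
  ⟨by rw [map_add, map_add, ha.1, hb.1], by rw [map_add, map_add, ha.2, hb.2]⟩

theorem InF.sub {a b : K} (ha : InF F a) (hb : InF F b) : InF F (a - b) :=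
  ⟨by rw [map_sub, map_sub, ha.1, hb.1], by rw [map_sub, map_sub, ha.2, hb.2]⟩

theorem InF.mul {a b : K} (ha : InF F a) (hb : InF F b) : InF F (a * b) :=
  ⟨by rw [map_mul, map_mul, ha.1, hb.1], by rw [map_mul, map_mul, ha.2, hb.2]⟩

theorem InF.div {a b : K} (ha : InF F a) (hb : InF F b) : InF F (a / b) :=
  ⟨by rw [map_div₀, map_div₀, ha.1, hb.1], by rw [map_div₀, map_div₀, ha.2, hb.2]⟩

theorem InF.pow {a : K} (ha : InF F a) (n : ℕ) : InF F (a ^ n) :=
  ⟨by rw [map_pow, map_pow, ha.1], by rw [map_pow, map_pow, ha.2]⟩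

theorem InF.nat (n : ℕ) : InF F (n : K) := ⟨by rw [map_natCast, map_natCast],
  by rw [map_natCast, map_natCast]⟩

theorem InF.two : InF F (2 : K) := ⟨by rw [map_ofNat, map_ofNat], by rw [map_ofNat, map_ofNat]⟩

theorem InF.eq {a : K} (ha : InF F a) (i : Bool) : F.s i true a = F.s i false a := by
  cases i
  · exact ha.2
  · exact ha.1

/-- splitting off a vector of norm one -/
theorem split_e {A : Matrix (Fin 4) (Fin 4) (𝓞 K)} (hA : IsUniversal K 4 A)
    {e w : Fin 4 → 𝓞 K} (he : bil A e e = 1) :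
    bil A (w - bil A w e • e) e = 0 ∧
      bil A (w - bil A w e • e) (w - bil A w e • e) = bil A w w - bil A w e ^ 2 := by
  have hew : bil A e w = bil A w e := bil_comm hA.symm _ _
  constructor
  · rw [bil_sub_left, bil_smul_left, he]; ring
  · rw [bil_sub_left, bil_smul_left, bil_sub_right, bil_sub_right, bil_smul_right,
      bil_smul_right, he, hew]
    ring

theorem nonneg_val {A : Matrix (Fin 4) (Fin 4) (𝓞 K)} (hA : IsUniversal K 4 A)
    (x : Fin 4 → 𝓞 K) (τ : K →+* ℝ) : 0 ≤ τ (bil A x x : 𝓞 K) := by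
  by_cases hx : x = 0
  · subst hx
    rw [bil_zero_left]; simp
  · exact (hA.pos x hx τ).le

/-- Cauchy–Schwarz in the form of a bound -/
theorem cs_abs {A : Matrix (Fin 4) (Fin 4) (𝓞 K)} (hA : IsUniversal K 4 A)
    (x y : Fin 4 → 𝓞 K) (τ : K →+* ℝ) {a b : ℝ} (ha : τ (bil A x x : 𝓞 K) ≤ a)
    (hb : τ (bil A y y : 𝓞 K) ≤ b) : |τ (bil A x y : 𝓞 K)| ≤ √(a * b) := by
  apply Real.abs_le_sqrt
  refine (hA.cs x y τ).trans ?_
  have h1 := nonneg_val hA x τ
  have h2 := nonneg_val hA y τ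
  exact mul_le_mul ha hb h2 (h1.trans ha)

omit [NumberField K] in
theorem schur (X Y b U Z c1 d1 c2 d2 t : K)
    (h : gdet X Y U Z b c1 d1 c2 d2 t = 0) :
    ((X * Y - b * b) * U - (Y * c1 * c1 - 2 * b * c1 * c2 + X * c2 * c2)) *
      ((X * Y - b * b) * Z - (Y * d1 * d1 - 2 * b * d1 * d2 + X * d2 * d2)) =
    ((X * Y - b * b) * t - (Y * c1 * d1 - b * (c1 * d2 + c2 * d1) + X * c2 * d2)) ^ 2 := by
  unfold gdet at h
  linear_combination (X * Y - b * b) * h

theorem final_alg (F : Fld K m1 m2 m3 g) {d pu pz pw f1 f2 β β' : K} {α δ : ℝ} {s : ℕ}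
    (fd : InF F d) (fu : InF F pu) (fz : InF F pz) (fw : InF F pw) (h1 : InF F f1)
    (h2 : InF F f2) (hd : d ≠ 0) (b1 : ∀ i, F.s i true β = α) (b2 : ∀ i, F.s i false β = δ)
    (b3 : ∀ i, F.s i true β' = δ) (b4 : ∀ i, F.s i false β' = α) (hα : δ < α)
    (g1 : (d * β - pu) * (d * β' - pz) = f1 ^ 2)
    (g2 : (d * (s * β) - pw) * (d * β' - pz) = f2 ^ 2) : ∃ k : K, InF F k ∧ k ^ 2 = s := by
  have key : ∀ i, F.s i true pu = F.s i true pz ∧ F.s i true pw = s * F.s i true pz := by
    intro i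
    have e1 := congrArg (F.s i true) g1
    have e2 := congrArg (F.s i false) g1
    have e3 := congrArg (F.s i true) g2
    have e4 := congrArg (F.s i false) g2
    simp only [map_mul, map_sub, map_pow, map_natCast, b1, b2, b3, b4] at e1 e2 e3 e4
    rw [← fd.eq i, ← fu.eq i, ← fz.eq i, ← h1.eq i] at e2
    rw [← fd.eq i, ← fw.eq i, ← fz.eq i, ← h2.eq i] at e4
    have hd0 : F.s i true d ≠ 0 := (map_ne_zero _).mpr hd
    have hαδ : α - δ ≠ 0 := (sub_pos.mpr hα).ne'
    constructor
    · have : F.s i true d * (α - δ) * (F.s i true pu - F.s i true pz) = 0 := by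
        linear_combination e1 - e2
      have := (mul_eq_zero.mp this).resolve_left (mul_ne_zero hd0 hαδ)
      linarith
    · have : F.s i true d * (α - δ) * (F.s i true pw - s * F.s i true pz) = 0 := by
        linear_combination e3 - e4
      have := (mul_eq_zero.mp this).resolve_left (mul_ne_zero hd0 hαδ)
      linarith
  have hf1 : f1 ≠ 0 := by
    rintro rfl
    have e0 : (d * β - pu) * (d * β' - pz) = 0 := by rw [g1]; ring
    have hd0 : F.s true true d ≠ 0 := (map_ne_zero _).mpr hd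
    rcases mul_eq_zero.mp e0 with h | h
    · have e1 := congrArg (F.s true true) h
      have e2 := congrArg (F.s true false) h
      simp only [map_mul, map_sub, map_zero, b1, b2] at e1 e2
      rw [← fd.1, ← fu.1] at e2
      have : F.s true true d * (α - δ) = 0 := by linear_combination e1 - e2
      rcases mul_eq_zero.mp this with h | h
      · exact hd0 h
      · linarith
    · have e1 := congrArg (F.s true true) h
      have e2 := congrArg (F.s true false) h
      simp only [map_mul, map_sub, map_zero, b3, b4] at e1 e2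
      rw [← fd.1, ← fz.1] at e2
      have : F.s true true d * (α - δ) = 0 := by linear_combination e2 - e1
      rcases mul_eq_zero.mp this with h | h
      · exact hd0 h
      · linarith
  have hsq : f2 ^ 2 = s * f1 ^ 2 := by
    apply (F.s true true).injective
    have e1 := congrArg (F.s true true) g1
    have e3 := congrArg (F.s true true) g2
    simp only [map_mul, map_sub, map_pow, map_natCast, b1, b3] at e1 e3
    rw [(key true).1] at e1
    rw [(key true).2] at e3
    simp only [map_mul, map_pow, map_natCast]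
    linear_combination s * e1 - e3
  refine ⟨f2 / f1, h2.div h1, ?_⟩
  rw [div_pow, hsq]
  field_simp

/-- **The main argument.** -/
theorem core (F : Fld K m1 m2 m3 g) {A : Matrix (Fin 4) (Fin 4) (𝓞 K)} (hA : IsUniversal K 4 A)
    {R : ℝ} (hM : Mem F R) {e x y : Fin 4 → 𝓞 K} (he : bil A e e = 1) (hx : bil A x e = 0)
    (hy : bil A y e = 0) (fx : InF F (bil A x x : 𝓞 K)) (fy : InF F (bil A y y : 𝓞 K))
    (fxy : InF F (bil A x y : 𝓞 K))
    (hd : ((bil A x x : 𝓞 K) : K) * (bil A y y : 𝓞 K) - (bil A x y : 𝓞 K) * (bil A x y : 𝓞 K) ≠ 0)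
    {N : ℝ} (bx : ∀ i j, F.s i j (bil A x x : 𝓞 K) ≤ N)
    (by' : ∀ i j, F.s i j (bil A y y : 𝓞 K) ≤ N) (hN : 1 ≤ N) {β β' : 𝓞 K} {α δ : ℝ}
    (b1 : ∀ i, F.s i true β = α) (b2 : ∀ i, F.s i false β = δ) (b3 : ∀ i, F.s i true β' = δ)
    (b4 : ∀ i, F.s i false β' = α) (hδ : 0 < δ) (hα : δ < α) {s : ℕ} (hs : 1 ≤ s)
    (hR1 : √(N * s) * (√α + √δ) ≤ R) (hR2 : 2 * √(s * (α * δ)) ≤ R)
    (hsF : ∀ k : K, InF F k → k ^ 2 ≠ s) : False := by
  have hα0 : 0 < α := hδ.trans hα
  have hs1 : (1 : ℝ) ≤ s := by exact_mod_cast hs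
  -- the three vectors
  have p1 : TotPos (β : K) := by
    intro τ
    obtain ⟨i, j, rfl⟩ := F.all τ
    cases j
    · rw [b2]; exact hδ
    · rw [b1]; exact hα0
  have p2 : TotPos (β' : K) := by
    intro τ
    obtain ⟨i, j, rfl⟩ := F.all τ
    cases j
    · rw [b4]; exact hα0
    · rw [b3]; exact hδ
  have p3 : TotPos (((s : 𝓞 K) * β : 𝓞 K) : K) := by
    intro τ
    have h1 : τ (((s : 𝓞 K) * β : 𝓞 K) : K) = s * τ (β : K) := by
      push_cast
      simp
    rw [h1]
    have := p1 τ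
    positivity
  obtain ⟨wu, hwu⟩ := hA.univ β p1
  obtain ⟨wz, hwz⟩ := hA.univ β' p2
  obtain ⟨ww, hww⟩ := hA.univ ((s : 𝓞 K) * β) p3
  obtain ⟨ue, uu⟩ := split_e hA (w := wu) he
  obtain ⟨ze, zz⟩ := split_e hA (w := wz) he
  obtain ⟨we, w2⟩ := split_e hA (w := ww) he
  set u := wu - bil A wu e • e with hu
  set z := wz - bil A wz e • e with hz
  set w := ww - bil A ww e • e with hw
  rw [hwu] at uu
  rw [hwz] at zz
  rw [hww] at w2
  -- bounds of norms
  have vβ : ∀ i j, F.s i j (β : K) = if j then α else δ := by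
    intro i j
    cases j
    · simp [b2]
    · simp [b1]
  have vβ' : ∀ i j, F.s i j (β' : K) = if j then δ else α := by
    intro i j
    cases j
    · simp [b4]
    · simp [b3]
  have vsβ : ∀ i j, F.s i j (((s : 𝓞 K) * β : 𝓞 K) : K) = s * (if j then α else δ) := by
    intro i j
    have : F.s i j (((s : 𝓞 K) * β : 𝓞 K) : K) = s * F.s i j (β : K) := by
      push_cast
      simp
    rw [this, vβ]
  have ve : ∀ i j, F.s i j ((bil A e e : 𝓞 K) : K) ≤ 1 := by
    intro i j; rw [he]; simp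
  have nu : ∀ i j, F.s i j (bil A u u : 𝓞 K) ≤ if j then α else δ := by
    intro i j
    rw [uu, ← vβ i j]
    have : F.s i j ((β - bil A wu e ^ 2 : 𝓞 K) : K) = F.s i j β - (F.s i j (bil A wu e : 𝓞 K)) ^ 2 := by
      push_cast
      simp
    rw [this]
    have := sq_nonneg (F.s i j (bil A wu e : 𝓞 K))
    linarith
  have nz : ∀ i j, F.s i j (bil A z z : 𝓞 K) ≤ if j then δ else α := by
    intro i j
    rw [zz, ← vβ' i j]
    have : F.s i j ((β' - bil A wz e ^ 2 : 𝓞 K) : K) = F.s i j β' - (F.s i j (bil A wz e : 𝓞 K)) ^ 2 := by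
      push_cast
      simp
    rw [this]
    have := sq_nonneg (F.s i j (bil A wz e : 𝓞 K))
    linarith
  have nw : ∀ i j, F.s i j (bil A w w : 𝓞 K) ≤ s * (if j then α else δ) := by
    intro i j
    rw [w2, ← vsβ i j]
    have : F.s i j (((s : 𝓞 K) * β - bil A ww e ^ 2 : 𝓞 K) : K)
        = F.s i j (((s : 𝓞 K) * β : 𝓞 K) : K) - (F.s i j (bil A ww e : 𝓞 K)) ^ 2 := by
      push_cast
      simp
    rw [this]
    have := sq_nonneg (F.s i j (bil A ww e : 𝓞 K))
    linarith
  have hNs : 1 ≤ N * s := by nlinarith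
  have hsum : 0 ≤ √α + √δ := by positivity
  -- membership lemmas
  have key1 : ∀ (c : 𝓞 K) (M : ℝ), 0 ≤ M → M ≤ N * s → (∀ i, |F.s i true (c : K)| ≤ √(M * α)) →
      (∀ i, |F.s i false (c : K)| ≤ √(M * δ)) → InF F (c : K) := by
    intro c M hM0 hM1 h1 h2
    refine hM c _ _ h1 h2 ?_
    rw [Real.sqrt_mul hM0, Real.sqrt_mul hM0, ← mul_add]
    refine le_trans ?_ hR1
    exact mul_le_mul_of_nonneg_right (Real.sqrt_le_sqrt hM1) hsum
  have key2 : ∀ (c : 𝓞 K) (M : ℝ), 0 ≤ M → M ≤ N * s → (∀ i, |F.s i true (c : K)| ≤ √(M * δ)) →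
      (∀ i, |F.s i false (c : K)| ≤ √(M * α)) → InF F (c : K) := by
    intro c M hM0 hM1 h1 h2
    refine hM c _ _ h1 h2 ?_
    rw [Real.sqrt_mul hM0, Real.sqrt_mul hM0, ← mul_add, add_comm (√δ)]
    refine le_trans ?_ hR1
    exact mul_le_mul_of_nonneg_right (Real.sqrt_le_sqrt hM1) hsum
  -- products with `e`
  have fbu : InF F (bil A wu e : 𝓞 K) := by
    refine key1 _ 1 (by norm_num) hNs (fun i => ?_) (fun i => ?_)
    · have := cs_abs hA wu e (F.s i true) (a := α) (b := 1) (by rw [hwu, b1]) (ve _ _)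
      rwa [mul_comm α 1] at this
    · have := cs_abs hA wu e (F.s i false) (a := δ) (b := 1) (by rw [hwu, b2]) (ve _ _)
      rwa [mul_comm δ 1] at this
  have fbz : InF F (bil A wz e : 𝓞 K) := by
    refine key2 _ 1 (by norm_num) hNs (fun i => ?_) (fun i => ?_)
    · have := cs_abs hA wz e (F.s i true) (a := δ) (b := 1) (by rw [hwz, b3]) (ve _ _)
      rwa [mul_comm δ 1] at this
    · have := cs_abs hA wz e (F.s i false) (a := α) (b := 1) (by rw [hwz, b4]) (ve _ _)
      rwa [mul_comm α 1] at this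
  have fbw : InF F (bil A ww e : 𝓞 K) := by
    refine key1 _ s (by positivity) (by nlinarith) (fun i => ?_) (fun i => ?_)
    · have := cs_abs hA ww e (F.s i true) (a := s * α) (b := 1) (by rw [hww, vsβ]; simp) (ve _ _)
      rwa [mul_one] at this
    · have := cs_abs hA ww e (F.s i false) (a := s * δ) (b := 1) (by rw [hww, vsβ]; simp) (ve _ _)
      rwa [mul_one] at this
  -- products with vectors of the plane
  have mu : ∀ r : Fin 4 → 𝓞 K, (∀ i j, F.s i j (bil A r r : 𝓞 K) ≤ N) → InF F (bil A u r : 𝓞 K) := by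
    intro r hr
    refine key1 _ N (by linarith) (by nlinarith) (fun i => ?_) (fun i => ?_)
    · have := cs_abs hA u r (F.s i true) (a := α) (b := N) (by simpa using nu i true) (hr _ _)
      rwa [mul_comm α N] at this
    · have := cs_abs hA u r (F.s i false) (a := δ) (b := N) (by simpa using nu i false) (hr _ _)
      rwa [mul_comm δ N] at this
  have mz : ∀ r : Fin 4 → 𝓞 K, (∀ i j, F.s i j (bil A r r : 𝓞 K) ≤ N) → InF F (bil A z r : 𝓞 K) := by
    intro r hr
    refine key2 _ N (by linarith) (by nlinarith) (fun i => ?_) (fun i => ?_)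
    · have := cs_abs hA z r (F.s i true) (a := δ) (b := N) (by simpa using nz i true) (hr _ _)
      rwa [mul_comm δ N] at this
    · have := cs_abs hA z r (F.s i false) (a := α) (b := N) (by simpa using nz i false) (hr _ _)
      rwa [mul_comm α N] at this
  have mw : ∀ r : Fin 4 → 𝓞 K, (∀ i j, F.s i j (bil A r r : 𝓞 K) ≤ N) → InF F (bil A w r : 𝓞 K) := by
    intro r hr
    refine key1 _ (N * s) (by nlinarith) le_rfl (fun i => ?_) (fun i => ?_)
    · have := cs_abs hA w r (F.s i true) (a := s * α) (b := N) (by simpa using nw i true) (hr _ _)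
      rwa [show (s : ℝ) * α * N = N * s * α by ring] at this
    · have := cs_abs hA w r (F.s i false) (a := s * δ) (b := N) (by simpa using nw i false) (hr _ _)
      rwa [show (s : ℝ) * δ * N = N * s * δ by ring] at this
  have xu : InF F (bil A x u : 𝓞 K) := by rw [bil_comm hA.symm]; exact mu x bx
  have yu : InF F (bil A y u : 𝓞 K) := by rw [bil_comm hA.symm]; exact mu y by'
  have xz : InF F (bil A x z : 𝓞 K) := by rw [bil_comm hA.symm]; exact mz x bx
  have yz : InF F (bil A y z : 𝓞 K) := by rw [bil_comm hA.symm]; exact mz y by'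
  have xw : InF F (bil A x w : 𝓞 K) := by rw [bil_comm hA.symm]; exact mw x bx
  have yw : InF F (bil A y w : 𝓞 K) := by rw [bil_comm hA.symm]; exact mw y by'
  -- cross products
  have t1 : InF F (bil A u z : 𝓞 K) := by
    refine hM _ (√(s * (α * δ))) (√(s * (α * δ))) (fun i => ?_) (fun i => ?_) (by linarith)
    · refine (cs_abs hA u z (F.s i true) (a := α) (b := δ) (by simpa using nu i true)
        (by simpa using nz i true)).trans (Real.sqrt_le_sqrt ?_)
      have : 0 < α * δ := by positivity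
      nlinarith
    · refine (cs_abs hA u z (F.s i false) (a := δ) (b := α) (by simpa using nu i false)
        (by simpa using nz i false)).trans (Real.sqrt_le_sqrt ?_)
      have : 0 < α * δ := by positivity
      nlinarith
  have t2 : InF F (bil A w z : 𝓞 K) := by
    refine hM _ (√(s * (α * δ))) (√(s * (α * δ))) (fun i => ?_) (fun i => ?_) (by linarith)
    · refine (cs_abs hA w z (F.s i true) (a := s * α) (b := δ) (by simpa using nw i true)
        (by simpa using nz i true)).trans (Real.sqrt_le_sqrt (by linarith))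
    · refine (cs_abs hA w z (F.s i false) (a := s * δ) (b := α) (by simpa using nw i false)
        (by simpa using nz i false)).trans (Real.sqrt_le_sqrt (by linarith))
  have g1 := schur _ _ _ _ _ _ _ _ _ _ (gram4 hA he hx hy ue ze)
  have g2 := schur _ _ _ _ _ _ _ _ _ _ (gram4 hA he hx hy we ze)
  -- abbreviations in `K`
  have cu : ((bil A u u : 𝓞 K) : K) = (β : K) - ((bil A wu e : 𝓞 K) : K) ^ 2 := by
    rw [uu]; push_cast; rfl
  have cz : ((bil A z z : 𝓞 K) : K) = (β' : K) - ((bil A wz e : 𝓞 K) : K) ^ 2 := by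
    rw [zz]; push_cast; rfl
  have cw : ((bil A w w : 𝓞 K) : K) = (s : K) * (β : K) - ((bil A ww e : 𝓞 K) : K) ^ 2 := by
    rw [w2]; push_cast; simp
  rw [cu, cz] at g1
  rw [cw, cz] at g2
  clear_value u z w
  generalize ((bil A x x : 𝓞 K) : K) = X at *
  generalize ((bil A y y : 𝓞 K) : K) = Y at *
  generalize ((bil A x y : 𝓞 K) : K) = b at *
  generalize ((bil A x u : 𝓞 K) : K) = c1 at *
  generalize ((bil A y u : 𝓞 K) : K) = c2 at *
  generalize ((bil A x z : 𝓞 K) : K) = d1 at *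
  generalize ((bil A y z : 𝓞 K) : K) = d2 at *
  generalize ((bil A x w : 𝓞 K) : K) = q1 at *
  generalize ((bil A y w : 𝓞 K) : K) = q2 at *
  generalize ((bil A u z : 𝓞 K) : K) = t at *
  generalize ((bil A w z : 𝓞 K) : K) = t' at *
  generalize ((bil A wu e : 𝓞 K) : K) = bu at *
  generalize ((bil A wz e : 𝓞 K) : K) = bz at *
  generalize ((bil A ww e : 𝓞 K) : K) = bw at *
  obtain ⟨k, hk1, hk2⟩ := final_alg F (d := X * Y - b * b)
    (pu := (X * Y - b * b) * bu ^ 2 + (Y * c1 * c1 - 2 * b * c1 * c2 + X * c2 * c2))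
    (pz := (X * Y - b * b) * bz ^ 2 + (Y * d1 * d1 - 2 * b * d1 * d2 + X * d2 * d2))
    (pw := (X * Y - b * b) * bw ^ 2 + (Y * q1 * q1 - 2 * b * q1 * q2 + X * q2 * q2))
    (f1 := (X * Y - b * b) * t - (Y * c1 * d1 - b * (c1 * d2 + c2 * d1) + X * c2 * d2))
    (f2 := (X * Y - b * b) * t' - (Y * q1 * d1 - b * (q1 * d2 + q2 * d1) + X * q2 * d2))
    (s := s) (β := β) (β' := β')
    ((fx.mul fy).sub (fxy.mul fxy))
    ((((fx.mul fy).sub (fxy.mul fxy)).mul (fbu.pow 2)).add ((((fy.mul xu).mul xu).sub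
      (((InF.two.mul fxy).mul xu).mul yu)).add ((fx.mul yu).mul yu)))
    ((((fx.mul fy).sub (fxy.mul fxy)).mul (fbz.pow 2)).add ((((fy.mul xz).mul xz).sub
      (((InF.two.mul fxy).mul xz).mul yz)).add ((fx.mul yz).mul yz)))
    ((((fx.mul fy).sub (fxy.mul fxy)).mul (fbw.pow 2)).add ((((fy.mul xw).mul xw).sub
      (((InF.two.mul fxy).mul xw).mul yw)).add ((fx.mul yw).mul yw)))
    ((((fx.mul fy).sub (fxy.mul fxy)).mul t1).sub ((((fy.mul xu).mul xz).sub
      (fxy.mul ((xu.mul yz).add (yu.mul xz)))).add ((fx.mul yu).mul yz)))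
    ((((fx.mul fy).sub (fxy.mul fxy)).mul t2).sub ((((fy.mul xw).mul xz).sub
      (fxy.mul ((xw.mul yz).add (yw.mul xz)))).add ((fx.mul yw).mul yz)))
    hd b1 b2 b3 b4 hα (by linear_combination g1) (by linear_combination g2)
  exact hsF k hk1 hk2

end

end BQN
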