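import Pool.Agent.BQN.Chk

/-! Enumeration of the fields in the finite range for which the numerical test fails. -/

noncomputable section

namespace BQN

structure T where
  g : Nat
  u : Nat
  v : Nat

/-- squarefree numbers in `[2, 483]` -/
def sf1 : List Nat := [
  2, 3, 5, 6, 7, 10, 11, 13, 14, 15, 17, 19, 21, 22, 23, 26, 29, 30, 31, 33, 34, 35, 37, 38,
  39, 41, 42, 43, 46, 47, 51, 53, 55, 57, 58, 59, 61, 62, 65, 66, 67, 69, 70, 71, 73, 74, 77,
  78, 79, 82, 83, 85, 86, 87, 89, 91, 93, 94, 95, 97, 101, 102, 103, 105, 106, 107, 109, 110,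
  111, 113, 114, 115, 118, 119, 122, 123, 127, 129, 130, 131, 133, 134, 137, 138, 139, 141,
  142, 143, 145, 146, 149, 151, 154, 155, 157, 158, 159, 161, 163, 165, 166, 167, 170, 173,
  174, 177, 178, 179, 181, 182, 183, 185, 186, 187, 190, 191, 193, 194, 195, 197, 199, 201,
  202, 203, 205, 206, 209, 210, 211, 213, 214, 215, 217, 218, 219, 221, 222, 223, 226, 227,
  229, 230, 231, 233, 235, 237, 238, 239, 241, 246, 247, 249, 251, 253, 254, 255, 257, 258,
  259, 262, 263, 265, 266, 267, 269, 271, 273, 274, 277, 278, 281, 282, 283, 285, 286, 287,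
  290, 291, 293, 295, 298, 299, 301, 302, 303, 305, 307, 309, 310, 311, 313, 314, 317, 318,
  319, 321, 322, 323, 326, 327, 329, 330, 331, 334, 335, 337, 339, 341, 345, 346, 347, 349,
  353, 354, 355, 357, 358, 359, 362, 365, 366, 367, 370, 371, 373, 374, 377, 379, 381, 382,
  383, 385, 386, 389, 390, 391, 393, 394, 395, 397, 398, 399, 401, 402, 403, 406, 407, 409,
  410, 411, 413, 415, 417, 418, 419, 421, 422, 426, 427, 429, 430, 431, 433, 434, 435, 437,
  438, 439, 442, 443, 445, 446, 447, 449, 451, 453, 454, 455, 457, 458, 461, 462, 463, 465,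
  466, 467, 469, 470, 471, 473, 474, 478, 479, 481, 482, 483]

/-- squarefree numbers in `[121, 1263]` -/
def sf2 : List Nat := [
  122, 123, 127, 129, 130, 131, 133, 134, 137, 138, 139, 141, 142, 143, 145, 146, 149, 151,
  154, 155, 157, 158, 159, 161, 163, 165, 166, 167, 170, 173, 174, 177, 178, 179, 181, 182,
  183, 185, 186, 187, 190, 191, 193, 194, 195, 197, 199, 201, 202, 203, 205, 206, 209, 210,
  211, 213, 214, 215, 217, 218, 219, 221, 222, 223, 226, 227, 229, 230, 231, 233, 235, 237,
  238, 239, 241, 246, 247, 249, 251, 253, 254, 255, 257, 258, 259, 262, 263, 265, 266, 267,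
  269, 271, 273, 274, 277, 278, 281, 282, 283, 285, 286, 287, 290, 291, 293, 295, 298, 299,
  301, 302, 303, 305, 307, 309, 310, 311, 313, 314, 317, 318, 319, 321, 322, 323, 326, 327,
  329, 330, 331, 334, 335, 337, 339, 341, 345, 346, 347, 349, 353, 354, 355, 357, 358, 359,
  362, 365, 366, 367, 370, 371, 373, 374, 377, 379, 381, 382, 383, 385, 386, 389, 390, 391,
  393, 394, 395, 397, 398, 399, 401, 402, 403, 406, 407, 409, 410, 411, 413, 415, 417, 418,
  419, 421, 422, 426, 427, 429, 430, 431, 433, 434, 435, 437, 438, 439, 442, 443, 445, 446,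
  447, 449, 451, 453, 454, 455, 457, 458, 461, 462, 463, 465, 466, 467, 469, 470, 471, 473,
  474, 478, 479, 481, 482, 483, 485, 487, 489, 491, 493, 494, 497, 498, 499, 501, 502, 503,
  505, 506, 509, 510, 511, 514, 515, 517, 518, 519, 521, 523, 526, 527, 530, 533, 534, 535,
  537, 538, 541, 542, 543, 545, 546, 547, 551, 553, 554, 555, 557, 559, 561, 562, 563, 565,
  566, 569, 570, 571, 573, 574, 577, 579, 581, 582, 583, 586, 587, 589, 590, 591, 593, 595,
  597, 598, 599, 601, 602, 606, 607, 609, 610, 611, 613, 614, 615, 617, 618, 619, 622, 623,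
  626, 627, 629, 631, 633, 634, 635, 638, 641, 642, 643, 645, 646, 647, 649, 651, 653, 654,
  655, 658, 659, 661, 662, 663, 665, 667, 669, 670, 671, 673, 674, 677, 678, 679, 681, 682,
  683, 685, 687, 689, 690, 691, 694, 695, 697, 698, 699, 701, 703, 705, 706, 707, 709, 710,
  713, 714, 715, 717, 718, 719, 721, 723, 727, 730, 731, 733, 734, 737, 739, 741, 742, 743,
  745, 746, 749, 751, 753, 754, 755, 757, 758, 759, 761, 762, 763, 766, 767, 769, 770, 771,
  773, 777, 778, 779, 781, 782, 785, 786, 787, 789, 790, 791, 793, 794, 795, 797, 798, 799,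
  802, 803, 805, 806, 807, 809, 811, 813, 814, 815, 817, 818, 821, 822, 823, 826, 827, 829,
  830, 831, 834, 835, 838, 839, 842, 843, 849, 851, 853, 854, 857, 858, 859, 861, 862, 863,
  865, 866, 869, 870, 871, 874, 877, 878, 879, 881, 883, 885, 886, 887, 889, 890, 893, 894,
  895, 897, 898, 899, 901, 902, 903, 905, 906, 907, 910, 911, 913, 914, 915, 917, 919, 921,
  922, 923, 926, 929, 930, 933, 934, 935, 937, 938, 939, 941, 942, 943, 946, 947, 949, 951,
  953, 955, 957, 958, 959, 962, 965, 966, 967, 969, 970, 971, 973, 974, 977, 978, 979, 982,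
  983, 985, 986, 987, 989, 991, 993, 994, 995, 997, 998, 1001, 1002, 1003, 1005, 1006, 1007,
  1009, 1010, 1011, 1013, 1015, 1018, 1019, 1021, 1022, 1023, 1027, 1030, 1031, 1033, 1034,
  1037, 1038, 1039, 1041, 1042, 1043, 1045, 1046, 1047, 1049, 1051, 1054, 1055, 1057, 1059,
  1061, 1063, 1065, 1066, 1067, 1069, 1070, 1073, 1074, 1077, 1079, 1081, 1082, 1085, 1086,
  1087, 1090, 1091, 1093, 1094, 1095, 1097, 1099, 1101, 1102, 1103, 1105, 1106, 1109, 1110,
  1111, 1113, 1114, 1115, 1117, 1118, 1119, 1121, 1122, 1123, 1126, 1129, 1130, 1131, 1133,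
  1135, 1137, 1138, 1139, 1141, 1142, 1145, 1146, 1147, 1149, 1151, 1153, 1154, 1155, 1157,
  1158, 1159, 1162, 1163, 1165, 1166, 1167, 1169, 1171, 1173, 1174, 1177, 1178, 1181, 1182,
  1185, 1186, 1187, 1189, 1190, 1191, 1193, 1194, 1195, 1198, 1199, 1201, 1202, 1203, 1205,
  1207, 1209, 1211, 1213, 1214, 1217, 1218, 1219, 1221, 1222, 1223, 1226, 1227, 1229, 1230,
  1231, 1234, 1235, 1237, 1238, 1239, 1241, 1243, 1245, 1246, 1247, 1249, 1253, 1254, 1255,
  1257, 1258, 1259, 1261, 1262, 1263]

/-- fold over a list -/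
def overL (step : Nat → List T → List T) (acc : List T) (l : List Nat) : List T :=
  List.rec acc (fun x _ ih => step x ih) l

/-- fold over an interval -/
def up (step : Nat → List T → List T) (n : Nat) : Nat → List T → List T :=
  Nat.rec (fun _ acc => acc) (fun _ ih x acc => fN x fun x => step x (ih (Nat.add x 1) acc)) n

/-- the auxiliary quantities of the test for the second discriminant -/
def aux2 (D2 : Nat) (k : Nat → Nat → Nat → List T) : List T :=
  fN (Nat.add (isq D2) 1) fun r =>
  fN (bif Nat.beq (Nat.mod (Nat.add r D2) 2) 0 then r else Nat.add r 1) fun c =>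
  fN (Nat.div (Nat.sub (Nat.mul c c) D2) 4) fun N =>
  fN (Nat.add (isq (Nat.mul 4096 N)) 1) fun n => k c N n

/-- add the triple if it is sorted and fails the test -/
def addT (D2 c N n m1 m2 g u v : Nat) (acc : List T) : List T :=
  fN (DB m1) fun D1 => fN (Nat.mul u v) fun m3 => fN (DB m3) fun D3 =>
  bif Nat.ble (Nat.add D1 1) D2 && Nat.ble (Nat.add D2 1) D3 &&
    !(goodAux D1 D2 D3 (typB m1 m2 m3) (kapB m1) c N n (isq (Nat.mul D1 D2))) then
    ⟨g, u, v⟩ :: acc
  else acc

def stepA (D2 c N n m2 m1 : Nat) (acc : List T) : List T :=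
  bif Nat.ble (Nat.add (DB m1) 1) D2 then
    fN (Nat.gcd m1 m2) fun g => fN (Nat.div m1 g) fun u => fN (Nat.div m2 g) fun v =>
    addT D2 c N n m1 m2 g u v acc
  else acc

def stepB (m2 : Nat) (acc : List T) : List T :=
  fN (DB m2) fun D2 =>
  bif Nat.ble D2 483 then aux2 D2 fun c N n => overL (stepA D2 c N n m2) acc sf1 else acc

/-- second discriminant at most `483` -/
def enum1 : List T := overL stepB [] sf1

/-- type 3: `m1 ≡ m2` -/
def stepC (D2 c N n m2 m1 : Nat) (acc : List T) : List T :=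
  bif Nat.beq (Nat.mod m1 4) (Nat.mod m2 4) && Nat.ble m1 56 then
    fN (Nat.gcd m1 m2) fun g => fN (Nat.div m1 g) fun u => fN (Nat.div m2 g) fun v =>
    bif Nat.beq (typB m1 m2 (Nat.mul u v)) 3 then addT D2 c N n m1 m2 g u v acc else acc
  else acc

def stepD (m2 : Nat) (acc : List T) : List T :=
  bif Nat.beq (Nat.mod m2 4) 1 then acc else
    fN (Nat.mul 4 m2) fun D2 => aux2 D2 fun c N n => overL (stepC D2 c N n m2) acc sf1

/-- type 3, second discriminant in `[484, 5055]`, first at most `224` -/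
def enum2 : List T := overL stepD [] sf2

/-- not divisible by the squares of small primes -/
def sqfB (m : Nat) : Bool :=
  allB [4, 9, 25, 49, 121, 169, 289, 361, 529, 841, 961, 1369, 1681, 1849, 2209, 2809, 3481, 3721,
    4489, 5041] fun d => !Nat.beq (Nat.mod m d) 0

/-- type 2: `m1 ≡ m3` -/
def stepE (u v m3 g : Nat) (acc : List T) : List T :=
  fN (Nat.mul g u) fun m1 => fN (Nat.mul g v) fun m2 =>
  bif Nat.beq (typB m1 m2 m3) 2 && Nat.ble 121 m2 && Nat.beq (Nat.gcd g m3) 1 && sqfB g then
    fN (DB m2) fun D2 =>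
    bif Nat.ble 484 D2 then aux2 D2 fun c N n => addT D2 c N n m1 m2 g u v acc else acc
  else acc

def stepF (u v : Nat) (acc : List T) : List T :=
  fN (Nat.mul u v) fun m3 =>
  bif Nat.beq (Nat.mod m3 4) 1 then acc else
  bif Nat.ble m3 1263 && sqfB m3 then up (stepE u v m3) (Nat.mul 4 u) 1 acc else acc

def stepG (u : Nat) (acc : List T) : List T :=
  up (stepF u) (Nat.div 1263 u) 1 acc

/-- type 2, second discriminant at least `484`, third at most `5055` -/
def enum3 : List T := up stepG 35 1 []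

/-- comparison of the enumeration with the table -/
def matchB (l : List T) : List E → Bool :=
  List.rec (fun tab => match tab with
    | [] => true
    | _ :: _ => false) (fun t _ ih tab => match tab with
    | [] => false
    | e :: tab' => Nat.beq t.g e.g && Nat.beq t.u e.u && Nat.beq t.v e.v && ih tab') l

end BQN
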