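import Pool.Agent.BQN.Theory
import Pool.Agent.BQN.Base

/-! The numerical conditions: an integer test, and the range where they always hold. -/

namespace BQN

open NumberField BQF Matrix

theorem beq_false (a b : ℕ) : Nat.beq a b = false ↔ a ≠ b := by
  rw [← Bool.not_eq_true, Nat.beq_eq]

theorem DB_eq (m : ℕ) : DB m = D m := by
  have e : DB m = bif Nat.beq (m % 4) 1 then m else 4 * m := rfl
  rw [e]
  unfold D
  by_cases h : m % 4 = 1
  · simp [h]
  · have : Nat.beq (m % 4) 1 = false := by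
      rw [beq_false]; exact h
    rw [this, if_neg h]; rfl

theorem typB_eq (a b c : ℕ) : typB a b c = typ a b c := by
  have e : typB a b c = bif Nat.beq (b % 4) (c % 4) then
    (bif Nat.beq (a % 4) 1 && Nat.beq (b % 4) 1 then 0 else 1)
    else bif Nat.beq (a % 4) (c % 4) then 2 else 3 := rfl
  rw [e]
  unfold typ
  simp only [Bool.cond_eq_ite, Bool.and_eq_true]
  simp only [Nat.beq_eq]

theorem kapB_eq (m : ℕ) : kapB m = NN m * SS m := by
  unfold kapB NN SS
  simp only [Bool.cond_eq_ite, Nat.beq_eq]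
  by_cases h2 : m = 2
  · simp [h2]
  · by_cases h3 : m = 3
    · simp [h3]
    · by_cases h10 : m = 10
      · simp [h10]
      · simp [h2, h3, h10]

section
variable {K : Type*} [Field K] [NumberField K] {g u v : ℕ}

theorem good_sound (F : Fld K (g * u) (g * v) (u * v) g) (hs : Squarefree (g * u * v))
    {A : Matrix (Fin 4) (Fin 4) (𝓞 K)} (hA : IsUniversal K 4 A) {c N n q : ℕ}
    (h : goodAux (DB (g * u)) (DB (g * v)) (DB (u * v)) (typB (g * u) (g * v) (u * v))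
      (kapB (g * u)) c N n q = true) : False := by
  rw [DB_eq, DB_eq, DB_eq, typB_eq, kapB_eq] at h
  unfold goodAux at h
  simp only [Bool.and_eq_true, Bool.or_eq_true, Bool.not_eq_true', Nat.beq_eq, Nat.ble_eq,
    beq_false] at h
  obtain ⟨⟨⟨⟨⟨⟨⟨⟨h1, h2⟩, h3⟩, h4⟩, h5⟩, h6⟩, h7⟩, h8⟩, h9⟩ := h
  set κ := NN (g * u) * SS (g * u) with hκ
  have hsN : √(N : ℝ) ≤ n / 64 := by
    rw [Real.sqrt_le_left (by positivity)]
    have : (4096 : ℝ) * N ≤ n * n := by exact_mod_cast h6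
    rw [div_pow]
    rw [le_div_iff₀ (by norm_num)]
    nlinarith
  refine theory F hs hA h5 (C := c) (N := N) (by rw [h1]; ring) h2 h3 h4
    (T := (κ : ℝ) * (64 * c + 2 * n) / 64) ?_ ?_ ?_ ?_
  · have hκ0 : (0 : ℝ) ≤ κ := by positivity
    have := mul_le_mul_of_nonneg_left hsN hκ0
    linarith
  · have : (κ : ℝ) * (64 * c + 2 * n) + 1 ≤ 64 * D (g * v) := by exact_mod_cast h7
    linarith
  · intro ht
    have h8' := h8.resolve_left (by rw [ht]; simp)
    have : 4 * ((κ : ℝ) * (64 * c + 2 * n)) + 1 ≤ 64 * D (u * v) := by exact_mod_cast h8'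
    linarith
  · intro ht
    obtain ⟨h10, h11⟩ := h9.resolve_left (by rw [ht]; simp)
    have e1 : 4 * ((κ : ℝ) * (64 * c + 2 * n)) + 1 ≤ 64 * (D (g * u) + D (g * v) + 2 * q) := by
      exact_mod_cast h10
    have e2 : (q : ℝ) * q ≤ D (g * u) * D (g * v) := by exact_mod_cast h11
    have s1sq : √(D (g * u) : ℝ) ^ 2 = D (g * u) := Real.sq_sqrt (by positivity)
    have s2sq : √(D (g * v) : ℝ) ^ 2 = D (g * v) := Real.sq_sqrt (by positivity)
    have e3 : (q : ℝ) ≤ √(D (g * u) : ℝ) * √(D (g * v) : ℝ) := by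
      rw [← Real.sqrt_mul (by positivity)]
      apply Real.le_sqrt_of_sq_le
      nlinarith
    nlinarith

end

/-- choice of `C` and `N` -/
theorem exists_CN {d : ℕ} (hd : d % 4 = 0 ∨ d % 4 = 1) :
    ∃ C N : ℕ, 4 * N + d = C ^ 2 ∧ 0 < N ∧ N < C ∧ (C : ℝ) ≤ √(d : ℝ) + 2 := by
  obtain ⟨r, hr⟩ : ∃ r, r = Nat.sqrt d := ⟨_, rfl⟩
  have h1 : r * r ≤ d := by rw [hr]; exact Nat.sqrt_le d
  have h2 : d < (r + 1) * (r + 1) := by rw [hr]; exact Nat.lt_succ_sqrt d
  have h3 : (r : ℝ) ≤ √(d : ℝ) := by rw [hr]; exact Real.nat_sqrt_le_real_sqrt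
  have key : ∀ C : ℕ, (C + d) % 2 = 0 → (C * C) % 4 = d % 4 := by
    intro C hC
    rcases Nat.even_or_odd' C with ⟨k, hk | hk⟩
    · subst hk
      have : (2 * k * (2 * k)) % 4 = 0 := by
        have : 2 * k * (2 * k) = 4 * (k * k) := by ring
        omega
      omega
    · subst hk
      have : ((2 * k + 1) * (2 * k + 1)) % 4 = 1 := by
        have : (2 * k + 1) * (2 * k + 1) = 4 * (k * k + k) + 1 := by ring
        omega
      omega
  by_cases hp : (r + 1 + d) % 2 = 0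
  · have := key _ hp
    refine ⟨r + 1, ((r + 1) * (r + 1) - d) / 4, ?_, ?_, ?_, ?_⟩
    · rw [sq]; omega
    · omega
    · have e : (r + 1) * (r + 1) = r * r + 2 * r + 1 := by ring
      omega
    · push_cast; linarith
  · have := key (r + 2) (by omega)
    have e : (r + 2) * (r + 2) = r * r + 4 * r + 4 := by ring
    have e' : (r + 1) * (r + 1) = r * r + 2 * r + 1 := by ring
    refine ⟨r + 2, ((r + 2) * (r + 2) - d) / 4, ?_, ?_, ?_, ?_⟩
    · rw [sq]; omega
    · omega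
    · omega
    · push_cast; linarith

theorem D_mod {m : ℕ} (_h : m % 4 ≠ 0) : D m % 4 = 0 ∨ D m % 4 = 1 := by
  unfold D
  split_ifs with h1
  · right; exact h1
  · left; omega

theorem kap_le (m : ℕ) : NN m * SS m ≤ 14 := by
  rw [← kapB_eq]; unfold kapB
  simp only [Bool.cond_eq_ite]
  split_ifs <;> norm_num

theorem kap_ten {m : ℕ} (h : 41 ≤ D m) : NN m * SS m = 10 := by
  have h2 : m ≠ 2 := by rintro rfl; simp [D] at h
  have h3 : m ≠ 3 := by rintro rfl; simp [D] at h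
  have h10 : m ≠ 10 := by rintro rfl; simp [D] at h
  unfold NN SS
  simp [h2, h3, h10]

section
variable {K : Type*} [Field K] [NumberField K] {g u v : ℕ}

/-- **The uniform range.** -/
theorem theory_big (F : Fld K (g * u) (g * v) (u * v) g) (hs : Squarefree (g * u * v))
    {A : Matrix (Fin 4) (Fin 4) (𝓞 K)} (hA : IsUniversal K 4 A)
    (h23 : D (g * v) ≤ D (u * v)) (h484 : 484 ≤ D (g * v))
    (c3 : typ (g * u) (g * v) (u * v) = 2 → 5056 ≤ D (u * v))
    (c4 : typ (g * u) (g * v) (u * v) = 3 → 5056 ≤ D (g * v) ∨ 225 ≤ D (g * u)) : False := by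
  obtain ⟨C, N, hC, hN, hNC, hCr⟩ := exists_CN (D_mod (mod4_ne hs).2.1)
  have s1sq : √(D (g * u) : ℝ) ^ 2 = D (g * u) := Real.sq_sqrt (by positivity)
  have s2sq : √(D (g * v) : ℝ) ^ 2 = D (g * v) := Real.sq_sqrt (by positivity)
  have s3sq : √(D (u * v) : ℝ) ^ 2 = D (u * v) := Real.sq_sqrt (by positivity)
  have s1n : 0 ≤ √(D (g * u) : ℝ) := Real.sqrt_nonneg _
  have s3n : 0 ≤ √(D (u * v) : ℝ) := Real.sqrt_nonneg _
  have s23 : √(D (g * v) : ℝ) ≤ √(D (u * v) : ℝ) := Real.sqrt_le_sqrt (by exact_mod_cast h23)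
  have h22 : 22 ≤ √(D (g * v) : ℝ) := by
    rw [Real.le_sqrt (by norm_num) (by positivity)]
    have : (484 : ℝ) ≤ D (g * v) := by exact_mod_cast h484
    linarith
  have hNCr : (N : ℝ) + 1 ≤ C := by exact_mod_cast hNC
  set s1 := √(D (g * u) : ℝ)
  set s2 := √(D (g * v) : ℝ)
  set s3 := √(D (u * v) : ℝ)
  have big : ∀ x : ℝ, 22 ≤ x → ∃ y : ℝ, y = √(x + 1) ∧ x = y ^ 2 - 1 ∧ 479 / 100 ≤ y := by
    intro x hx
    refine ⟨√(x + 1), rfl, ?_, ?_⟩
    · rw [Real.sq_sqrt (by linarith)]; ring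
    · rw [Real.le_sqrt (by norm_num) (by linarith)]
      linarith
  obtain ⟨y, hy, hxy, hy0⟩ := big s2 h22
  have hsN : √(N : ℝ) ≤ y := by
    rw [hy]; apply Real.sqrt_le_sqrt; linarith
  have hk14 : ((NN (g * u) * SS (g * u) : ℕ) : ℝ) ≤ 14 := by exact_mod_cast kap_le (g * u)
  have hκ0 : (0 : ℝ) ≤ ((NN (g * u) * SS (g * u) : ℕ) : ℝ) := by positivity
  have hW : (C : ℝ) + 2 * √(N : ℝ) ≤ y ^ 2 + 1 + 2 * y := by linarith
  have h484' : (484 : ℝ) ≤ D (g * v) := by exact_mod_cast h484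
  have mono71 : ∀ x : ℝ, s2 ≤ x → 711 / 10 ≤ x → 56 * (y ^ 2 + 1 + 2 * y) < x ^ 2 := by
    intro x hx h71
    obtain ⟨z, hz, hxz, hz0⟩ := big x (by linarith)
    have hyz : y ≤ z := by rw [hy, hz]; exact Real.sqrt_le_sqrt (by linarith)
    have hz1 : 849 / 100 ≤ z := by
      rw [hz, Real.le_sqrt (by norm_num) (by linarith)]
      linarith
    obtain ⟨w, rfl⟩ : ∃ w, z = 849 / 100 + w := ⟨z - 849 / 100, by ring⟩
    have hw : 0 ≤ w := by linarith
    have e1 : 56 * (y ^ 2 + 1 + 2 * y) ≤ 56 * ((849 / 100 + w) ^ 2 + 1 + 2 * (849 / 100 + w)) := by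
      nlinarith
    have e2 : 56 * ((849 / 100 + w) ^ 2 + 1 + 2 * (849 / 100 + w)) < ((849 / 100 + w) ^ 2 - 1) ^ 2 := by
      nlinarith [pow_nonneg hw 2, pow_nonneg hw 3, pow_nonneg hw 4]
    rw [hxz]
    linarith
  refine theory F hs hA h23 hC hN hNC (by omega)
    (T := ((NN (g * u) * SS (g * u) : ℕ) : ℝ) * (y ^ 2 + 1 + 2 * y))
    (mul_le_mul_of_nonneg_left hW hκ0) ?_ ?_ ?_
  · have e1 : ((NN (g * u) * SS (g * u) : ℕ) : ℝ) * (y ^ 2 + 1 + 2 * y)
        ≤ 14 * (y ^ 2 + 1 + 2 * y) := mul_le_mul_of_nonneg_right hk14 (by positivity)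
    obtain ⟨w, rfl⟩ : ∃ w, y = 479 / 100 + w := ⟨y - 479 / 100, by ring⟩
    have hw : 0 ≤ w := by linarith
    have e2 : 14 * ((479 / 100 + w) ^ 2 + 1 + 2 * (479 / 100 + w)) < ((479 / 100 + w) ^ 2 - 1) ^ 2 := by
      nlinarith [pow_nonneg hw 2, pow_nonneg hw 3, pow_nonneg hw 4]
    rw [← s2sq, hxy]
    linarith
  · intro ht
    have e1 : ((NN (g * u) * SS (g * u) : ℕ) : ℝ) * (y ^ 2 + 1 + 2 * y)
        ≤ 14 * (y ^ 2 + 1 + 2 * y) := mul_le_mul_of_nonneg_right hk14 (by positivity)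
    have h71 : 711 / 10 ≤ s3 := by
      have : (5056 : ℝ) ≤ D (u * v) := by exact_mod_cast c3 ht
      show 711 / 10 ≤ √(D (u * v) : ℝ)
      rw [Real.le_sqrt (by norm_num) (by positivity)]
      linarith
    have := mono71 s3 s23 h71
    rw [← s3sq]
    linarith
  · intro ht
    rcases c4 ht with h | h
    · have e1 : ((NN (g * u) * SS (g * u) : ℕ) : ℝ) * (y ^ 2 + 1 + 2 * y)
          ≤ 14 * (y ^ 2 + 1 + 2 * y) := mul_le_mul_of_nonneg_right hk14 (by positivity)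
      have h71 : 711 / 10 ≤ s2 := by
        have : (5056 : ℝ) ≤ D (g * v) := by exact_mod_cast h
        show 711 / 10 ≤ √(D (g * v) : ℝ)
        rw [Real.le_sqrt (by norm_num) (by positivity)]
        linarith
      have := mono71 s2 le_rfl h71
      nlinarith
    · have e1 : ((NN (g * u) * SS (g * u) : ℕ) : ℝ) = 10 := by
        exact_mod_cast kap_ten (by omega)
      rw [e1]
      have h15 : 15 ≤ s1 := by
        have : (225 : ℝ) ≤ D (g * u) := by exact_mod_cast h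
        show 15 ≤ √(D (g * u) : ℝ)
        rw [Real.le_sqrt (by norm_num) (by positivity)]
        linarith
      obtain ⟨w, hw'⟩ : ∃ w, y = 479 / 100 + w := ⟨y - 479 / 100, by ring⟩
      have hw : 0 ≤ w := by linarith
      have e2 : 4 * (10 * ((479 / 100 + w) ^ 2 + 1 + 2 * (479 / 100 + w)))
          < (15 + ((479 / 100 + w) ^ 2 - 1)) ^ 2 := by
        nlinarith [pow_nonneg hw 2, pow_nonneg hw 3, pow_nonneg hw 4]
      rw [← hw', ← hxy] at e2
      have e3 : (15 + s2) ^ 2 ≤ (s1 + s2) ^ 2 := by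
        apply pow_le_pow_left₀ (by linarith); linarith
      linarith

end

end BQN
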