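import Pool.Agent.BQN.Chk
import Mathlib

/-! Specification of the integer routines. -/

namespace BQN

theorem fN_eq {α : Type} (n : Nat) (k : Nat → α) : fN n k = k n := by
  cases n <;> rfl

theorem fI_eq {α : Type} (z : Int) (k : Int → α) : fI z k = k z := by
  cases z with
  | ofNat n =>
    have e : fI (Int.ofNat n) k = fN n fun n => k (Int.ofNat n) := rfl
    rw [e, fN_eq]
  | negSucc n =>
    have e : fI (Int.negSucc n) k = fN n fun n => k (Int.negSucc n) := rfl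
    rw [e, fN_eq]

theorem iadd (a b : Int) : Int.add a b = a + b := rfl
theorem isub (a b : Int) : Int.sub a b = a - b := rfl
theorem imul (a b : Int) : Int.mul a b = a * b := rfl
theorem ineg (a : Int) : Int.neg a = -a := rfl
theorem iediv (a b : Int) : Int.ediv a b = a / b := rfl
theorem iemod (a b : Int) : Int.emod a b = a % b := rfl
theorem nadd (a b : Nat) : Nat.add a b = a + b := rfl
theorem nsub (a b : Nat) : Nat.sub a b = a - b := rfl
theorem nmul (a b : Nat) : Nat.mul a b = a * b := rfl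
theorem ndiv (a b : Nat) : Nat.div a b = a / b := rfl
theorem nmod (a b : Nat) : Nat.mod a b = a % b := rfl
theorem iof (a : Nat) : Int.ofNat a = (a : Int) := rfl

theorem mem_cond {w : V} {a b : List V} {c : Bool} (h1 : w ∈ a) (h2 : w ∈ b) :
    w ∈ (bif c then a else b) := by
  cases c
  · exact h2
  · exact h1

theorem mem_cond_true {w : V} {a b : List V} {c : Bool} (hc : c = true) (h1 : w ∈ a) :
    w ∈ (bif c then a else b) := by
  rw [hc]; exact h1

theorem fV_eq {α : Type} (a : V) (k : V → α) : fV a k = k a := by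
  unfold fV
  simp only [fI_eq]

theorem fL_eq {α : Type} (l : List V) (k : List V → α) : fL l k = k l := by
  induction l generalizing k with
  | nil => rfl
  | cons a l ih =>
    have : fL (a :: l) k = fV a fun a => fL l fun l => k (a :: l) := rfl
    rw [this, fV_eq, ih]

theorem allB_iff {α : Type} (l : List α) (p : α → Bool) :
    allB l p = true ↔ ∀ a ∈ l, p a = true := by
  induction l with
  | nil => simp [allB]
  | cons a l ih =>
    have : allB (a :: l) p = (p a && allB l p) := rfl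
    rw [this, Bool.and_eq_true, ih]
    simp

theorem mem_flt (l : List V) (p : V → Bool) (a : V) : a ∈ flt l p ↔ a ∈ l ∧ p a = true := by
  induction l with
  | nil => simp [flt]
  | cons b l ih =>
    have e : flt (b :: l) p = bif p b then b :: flt l p else flt l p := rfl
    rw [e]
    cases hb : p b
    · simp only [cond_false, List.mem_cons, ih]
      constructor
      · rintro ⟨h1, h2⟩; exact ⟨Or.inr h1, h2⟩
      · rintro ⟨h1 | h1, h2⟩
        · rw [h1, hb] at h2; exact absurd h2 (by simp)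
        · exact ⟨h1, h2⟩
    · simp only [cond_true, List.mem_cons, ih]
      constructor
      · rintro (h1 | ⟨h1, h2⟩)
        · rw [h1]; exact ⟨Or.inl rfl, hb⟩
        · exact ⟨Or.inr h1, h2⟩
      · rintro ⟨h1 | h1, h2⟩
        · exact Or.inl h1
        · exact Or.inr ⟨h1, h2⟩

theorem isZ_iff (z : Int) : isZ z = true ↔ z = 0 := by
  cases z with
  | ofNat n => simp [isZ, Nat.beq_eq]
  | negSucc n => simp [isZ]

theorem leI_iff (a b : Int) : leI a b = true ↔ a ≤ b := by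
  have e : leI a b = match b - a with
    | Int.ofNat _ => true
    | Int.negSucc _ => false := rfl
  rw [e]
  cases h : b - a with
  | ofNat n =>
    simp only [true_iff]
    have : (0 : Int) ≤ Int.ofNat n := Int.natCast_nonneg n
    omega
  | negSucc n =>
    simp only [Bool.false_eq_true, false_iff, not_le]
    have : Int.negSucc n < 0 := Int.negSucc_lt_zero n
    omega

theorem leI_false (a b : Int) : leI a b = false ↔ b < a := by
  rw [← Bool.not_eq_true, leI_iff]; omega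

theorem mxI_eq (a b : Int) : mxI a b = max a b := by
  unfold mxI
  cases h : leI a b
  · rw [leI_false] at h; simp only [cond_false]; omega
  · rw [leI_iff] at h; simp only [cond_true]; omega

theorem mnI_eq (a b : Int) : mnI a b = min a b := by
  unfold mnI
  cases h : leI a b
  · rw [leI_false] at h; simp only [cond_false]; omega
  · rw [leI_iff] at h; simp only [cond_true]; omega

theorem sqrtUp_spec (n : Nat) : n ≤ sqrtUp n * sqrtUp n := by
  unfold sqrtUp
  simp only [fN_eq]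
  cases h : Nat.ble n (Nat.mul (Nat.add (isq n) 1) (Nat.add (isq n) 1))
  · simp only [cond_false]
    rcases Nat.eq_zero_or_pos n with h0 | h0
    · omega
    · exact Nat.le_mul_of_pos_right n h0
  · simp only [cond_true]
    exact Nat.ble_eq.mp h

/-- membership in a loop -/
theorem loop_acc (step : Int → List V → List V) (hm : ∀ x acc v, v ∈ acc → v ∈ step x acc)
    (n : Nat) (x : Int) (acc : List V) (v : V) (hv : v ∈ acc) : v ∈ loop step n x acc := by
  induction n generalizing x acc with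
  | zero => exact hv
  | succ n ih =>
    have e : loop step (n + 1) x acc = fI x fun x => step x (loop step n (x + 2) acc) := rfl
    rw [e, fI_eq]
    exact hm _ _ _ (ih _ _ hv)

theorem loop_mem (step : Int → List V → List V) (hm : ∀ x acc v, v ∈ acc → v ∈ step x acc)
    (n : Nat) (x y : Int) (acc : List V) (v : V) (h1 : x ≤ y) (h2 : y < x + 2 * n)
    (h3 : 2 ∣ y - x) (hv : ∀ acc, v ∈ step y acc) : v ∈ loop step n x acc := by
  induction n generalizing x acc with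
  | zero => omega
  | succ n ih =>
    have e : loop step (n + 1) x acc = fI x fun x => step x (loop step n (x + 2) acc) := rfl
    rw [e, fI_eq]
    by_cases hxy : x = y
    · rw [hxy]; exact hv _
    · apply hm
      apply ih
      · omega
      · push_cast at h2; omega
      · omega

theorem step1_acc (o q1 ra rb rc rd p v x2 x3 x1 : Int) (acc : List V) (w : V) (hw : w ∈ acc) :
    w ∈ step1 o q1 ra rb rc rd p v x2 x3 x1 acc := by
  unfold step1
  simp only [fI_eq]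
  apply mem_cond _ hw
  apply loop_acc _ _ _ _ _ _ hw
  intro x acc v hv
  exact List.mem_cons_of_mem _ hv

theorem step1_mem {o q1 ra rb rc rd p v x0 x1 x2 x3 k : Int}
    (ha : |1024 * x0 + x1 * q1 + p| ≤ ra) (hb : |1024 * x0 + x1 * q1 - p| ≤ rb)
    (hc : |1024 * x0 - x1 * q1 + v| ≤ rc) (hd : |1024 * x0 - x1 * q1 - v| ≤ rd)
    (hk : x0 = 2 * k + o) (acc : List V) :
    (⟨x0, x1, x2, x3⟩ : V) ∈ step1 o q1 ra rb rc rd p v x2 x3 x1 acc := by
  unfold step1
  simp only [fI_eq, iadd, isub, imul, ineg, iediv]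
  simp only [mxI_eq, mnI_eq]
  obtain ⟨a1, a2⟩ := abs_le.mp ha
  obtain ⟨b1, b2⟩ := abs_le.mp hb
  obtain ⟨c1, c2⟩ := abs_le.mp hc
  obtain ⟨d1, d2⟩ := abs_le.mp hd
  generalize hy : x1 * q1 = y at *
  generalize hlo : max (max (-(y + p) - ra) (-(y - p) - rb)) (max (-(v - y) - rc) (v + y - rd)) = lo
  generalize hhi : min (min (ra - (y + p)) (rb - (y - p))) (min (rc - (v - y)) (rd + (v + y))) = hi
  have e1 : lo ≤ 1024 * x0 := by
    rw [← hlo]
    apply max_le <;> apply max_le <;> linarith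
  have e2 : 1024 * x0 ≤ hi := by
    rw [← hhi]
    apply le_min <;> apply le_min <;> linarith
  generalize hl : (lo - 1024 * o + 2047) / 2048 = l
  generalize hh : (hi - 1024 * o) / 2048 = h
  have e3 : l ≤ k := by omega
  have e4 : k ≤ h := by omega
  apply mem_cond_true
  · rw [leI_iff]; omega
  · apply loop_mem _ _ _ _ x0
    · omega
    · omega
    · omega
    · intro acc
      exact List.mem_cons_self
    · intro x acc v hv
      exact List.mem_cons_of_mem _ hv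

theorem step2_acc (o q1 q2 ra rb rc rd : Int) (k1 : Nat) (s1 x3 y3 x2 : Int) (acc : List V)
    (w : V) (hw : w ∈ acc) : w ∈ step2 o q1 q2 ra rb rc rd k1 s1 x3 y3 x2 acc := by
  unfold step2
  simp only [fI_eq]
  apply mem_cond _ hw
  apply loop_acc _ _ _ _ _ _ hw
  intro x acc v hv
  exact step1_acc _ _ _ _ _ _ _ _ _ _ _ _ _ hv

theorem step2_mem {o q1 q2 ra rb rc rd x0 x1 x2 x3 y3 k s1 : Int} {k1 : Nat}
    (ha : |1024 * x0 + x1 * q1 + (x2 * q2 + y3)| ≤ ra)
    (hb : |1024 * x0 + x1 * q1 - (x2 * q2 + y3)| ≤ rb)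
    (hc : |1024 * x0 - x1 * q1 + (x2 * q2 - y3)| ≤ rc)
    (hd : |1024 * x0 - x1 * q1 - (x2 * q2 - y3)| ≤ rd)
    (hk : x0 = 2 * k + o) (h1 : s1 ≤ x1) (h2 : x1 < s1 + 2 * k1) (h3 : 2 ∣ x1 - s1)
    (acc : List V) :
    (⟨x0, x1, x2, x3⟩ : V) ∈ step2 o q1 q2 ra rb rc rd k1 s1 x3 y3 x2 acc := by
  unfold step2
  simp only [fI_eq, iadd, isub, imul, ineg]
  obtain ⟨a1, a2⟩ := abs_le.mp ha
  obtain ⟨b1, b2⟩ := abs_le.mp hb
  obtain ⟨c1, c2⟩ := abs_le.mp hc
  obtain ⟨d1, d2⟩ := abs_le.mp hd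
  apply mem_cond_true
  · simp only [Bool.and_eq_true, leI_iff]
    refine ⟨⟨⟨?_, ?_⟩, ?_⟩, ?_⟩ <;> linarith
  · apply loop_mem _ _ _ _ x1 _ _ h1 h2 h3
    · intro acc
      exact step1_mem ha hb hc hd hk acc
    · intro x acc v hv
      exact step1_acc _ _ _ _ _ _ _ _ _ _ _ _ _ hv

theorem step3_acc (o q1 q2 q3 ra rb rc rd : Int) (k1 : Nat) (s1 : Int) (k2 : Nat) (s2 x3 : Int)
    (acc : List V) (w : V) (hw : w ∈ acc) :
    w ∈ step3 o q1 q2 q3 ra rb rc rd k1 s1 k2 s2 x3 acc := by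
  unfold step3
  simp only [fI_eq]
  apply loop_acc _ _ _ _ _ _ hw
  intro x acc v hv
  exact step2_acc _ _ _ _ _ _ _ _ _ _ _ _ _ _ hv

theorem step3_mem {o q1 q2 q3 ra rb rc rd x0 x1 x2 x3 k s1 s2 : Int} {k1 k2 : Nat}
    (ha : |1024 * x0 + x1 * q1 + (x2 * q2 + x3 * q3)| ≤ ra)
    (hb : |1024 * x0 + x1 * q1 - (x2 * q2 + x3 * q3)| ≤ rb)
    (hc : |1024 * x0 - x1 * q1 + (x2 * q2 - x3 * q3)| ≤ rc)
    (hd : |1024 * x0 - x1 * q1 - (x2 * q2 - x3 * q3)| ≤ rd)
    (hk : x0 = 2 * k + o) (h1 : s1 ≤ x1) (h2 : x1 < s1 + 2 * k1) (h3 : 2 ∣ x1 - s1)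
    (h4 : s2 ≤ x2) (h5 : x2 < s2 + 2 * k2) (h6 : 2 ∣ x2 - s2) (acc : List V) :
    (⟨x0, x1, x2, x3⟩ : V) ∈ step3 o q1 q2 q3 ra rb rc rd k1 s1 k2 s2 x3 acc := by
  unfold step3
  simp only [fI_eq, imul]
  apply loop_mem _ _ _ _ x2 _ _ h4 h5 h6
  · intro acc
    exact step2_mem ha hb hc hd hk h1 h2 h3 acc
  · intro x acc v hv
    exact step2_acc _ _ _ _ _ _ _ _ _ _ _ _ _ _ hv

theorem pass_mem {F : Fd} {o b1 b2 b3 : Nat} {ra rb rc rd x0 x1 x2 x3 : Int} (_ho : o ≤ 1)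
    (ha : |1024 * x0 + x1 * F.q1 + (x2 * F.q2 + x3 * F.q3)| ≤ ra)
    (hb : |1024 * x0 + x1 * F.q1 - (x2 * F.q2 + x3 * F.q3)| ≤ rb)
    (hc : |1024 * x0 - x1 * F.q1 + (x2 * F.q2 - x3 * F.q3)| ≤ rc)
    (hd : |1024 * x0 - x1 * F.q1 - (x2 * F.q2 - x3 * F.q3)| ≤ rd)
    (p0 : (2 : Int) ∣ x0 - o) (p1 : (2 : Int) ∣ x1 - o) (p2 : (2 : Int) ∣ x2 - o)
    (p3 : (2 : Int) ∣ x3 - o) (l1 : |x1| ≤ b1) (l2 : |x2| ≤ b2) (l3 : |x3| ≤ b3) :
    (⟨x0, x1, x2, x3⟩ : V) ∈ pass F o b1 b2 b3 ra rb rc rd := by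
  unfold pass
  simp only [fI_eq, fN_eq, isub, nadd, nsub, ndiv, iof]
  obtain ⟨k, hk⟩ := p0
  obtain ⟨m1, m2⟩ := abs_le.mp l1
  obtain ⟨m3, m4⟩ := abs_le.mp l2
  obtain ⟨m5, m6⟩ := abs_le.mp l3
  apply loop_mem _ _ _ _ x3
  · push_cast; omega
  · push_cast; omega
  · push_cast; omega
  · intro acc
    apply step3_mem ha hb hc hd (k := k) (by omega)
    · push_cast; omega
    · push_cast; omega
    · push_cast; omega
    · push_cast; omega
    · push_cast; omega
    · push_cast; omega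
  · intro x acc v hv
    exact step3_acc _ _ _ _ _ _ _ _ _ _ _ _ _ _ _ hv

/-- parity pattern of the coordinates -/
def Par (F : Fd) (x0 x1 x2 x3 : Int) : Prop :=
  (2 ∣ x0 ∧ 2 ∣ x1 ∧ 2 ∣ x2 ∧ 2 ∣ x3) ∨
  ((F.i1 && F.i2 && F.i3) = true ∧ 2 ∣ x0 - 1 ∧ 2 ∣ x1 - 1 ∧ 2 ∣ x2 - 1 ∧ 2 ∣ x3 - 1)

theorem cand_mem {F : Fd} {ra rb rc rd : Nat} {x0 x1 x2 x3 : Int} (hq1 : 1 ≤ F.q1)
    (hq2 : 1 ≤ F.q2) (hq3 : 1 ≤ F.q3)
    (ha : |1024 * x0 + x1 * F.q1 + (x2 * F.q2 + x3 * F.q3)| ≤ ra + (|x1| + |x2| + |x3|))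
    (hb : |1024 * x0 + x1 * F.q1 - (x2 * F.q2 + x3 * F.q3)| ≤ rb + (|x1| + |x2| + |x3|))
    (hc : |1024 * x0 - x1 * F.q1 + (x2 * F.q2 - x3 * F.q3)| ≤ rc + (|x1| + |x2| + |x3|))
    (hd : |1024 * x0 - x1 * F.q1 - (x2 * F.q2 - x3 * F.q3)| ≤ rd + (|x1| + |x2| + |x3|))
    (h1 : 4 * (|x1| * F.q1) ≤ ra + rb + rc + rd) (h2 : 4 * (|x2| * F.q2) ≤ ra + rb + rc + rd)
    (h3 : 4 * (|x3| * F.q3) ≤ ra + rb + rc + rd) (hp : Par F x0 x1 x2 x3) :
    (⟨x0, x1, x2, x3⟩ : V) ∈ cand F ra rb rc rd := by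
  unfold cand
  simp only [fI_eq, fN_eq, nadd, ndiv, iof]
  have key : ∀ (x : Int) (q : Nat), 1 ≤ q → 4 * (|x| * q) ≤ ra + rb + rc + rd →
      |x| ≤ (((ra + rb + (rc + rd)) / 4 / q : ℕ) : Int) := by
    intro x q hq h
    obtain ⟨n, hn⟩ : ∃ n : Nat, |x| = (n : Int) := ⟨x.natAbs, by simp⟩
    rw [hn] at h ⊢
    have h' : 4 * (n * q) ≤ ra + rb + rc + rd := by exact_mod_cast h
    have : n ≤ (ra + rb + (rc + rd)) / 4 / q := by
      rw [Nat.le_div_iff_mul_le (by omega), Nat.le_div_iff_mul_le (by norm_num)]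
      omega
    exact_mod_cast this
  have k1 := key x1 F.q1 hq1 h1
  have k2 := key x2 F.q2 hq2 h2
  have k3 := key x3 F.q3 hq3 h3
  generalize (ra + rb + (rc + rd)) / 4 / F.q1 = b1 at *
  generalize (ra + rb + (rc + rd)) / 4 / F.q2 = b2 at *
  generalize (ra + rb + (rc + rd)) / 4 / F.q3 = b3 at *
  have m0 : ∀ {o : Nat}, o ≤ 1 → (2 : Int) ∣ x0 - o → (2 : Int) ∣ x1 - o → (2 : Int) ∣ x2 - o →
      (2 : Int) ∣ x3 - o → (⟨x0, x1, x2, x3⟩ : V) ∈ pass F o b1 b2 b3 ((ra + (b1 + b2 + b3) : ℕ) : Int)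
        ((rb + (b1 + b2 + b3) : ℕ) : Int) ((rc + (b1 + b2 + b3) : ℕ) : Int)
        ((rd + (b1 + b2 + b3) : ℕ) : Int) := by
    intro o ho q0 q1 q2 q3
    apply pass_mem ho _ _ _ _ q0 q1 q2 q3 k1 k2 k3
    · push_cast; linarith
    · push_cast; linarith
    · push_cast; linarith
    · push_cast; linarith
  rcases hp with ⟨q0, q1, q2, q3⟩ | ⟨hi, q0, q1, q2, q3⟩
  · have := m0 (o := 0) (by norm_num) (by simpa using q0) (by simpa using q1) (by simpa using q2)
      (by simpa using q3)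
    apply mem_cond _ this
    exact List.mem_append_left _ this
  · have := m0 (o := 1) (by norm_num) (by simpa using q0) (by simpa using q1) (by simpa using q2)
      (by simpa using q3)
    apply mem_cond_true hi
    exact List.mem_append_right _ this

end BQN
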