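import Pool.Agent.BQN.Enum
import Pool.Agent.BQN.Snd1
import Pool.Agent.BQN.Good

/-! Membership in the enumerated lists. -/

namespace BQN

theorem matchB_spec (l : List T) (tab : List E) (h : matchB l tab = true) :
    ∀ t ∈ l, ∃ e ∈ tab, e.g = t.g ∧ e.u = t.u ∧ e.v = t.v := by
  induction l generalizing tab with
  | nil => simp
  | cons a l ih =>
    cases tab with
    | nil => exact absurd h (by simp [matchB])
    | cons e tab =>
      have e1 : matchB (a :: l) (e :: tab) =
        (Nat.beq a.g e.g && Nat.beq a.u e.u && Nat.beq a.v e.v && matchB l tab) := rfl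
      rw [e1] at h
      simp only [Bool.and_eq_true, Nat.beq_eq] at h
      obtain ⟨⟨⟨h1, h2⟩, h3⟩, h4⟩ := h
      intro t ht
      rcases List.mem_cons.mp ht with rfl | ht
      · exact ⟨e, List.mem_cons_self, h1.symm, h2.symm, h3.symm⟩
      · obtain ⟨e', he', r⟩ := ih tab h4 t ht
        exact ⟨e', List.mem_cons_of_mem _ he', r⟩

/-- the step only adds elements -/
def Inc (f : List T → List T) : Prop := ∀ acc t, t ∈ acc → t ∈ f acc

/-- the step adds the element -/
def Hit (f : List T → List T) (t : T) : Prop := ∀ acc, t ∈ f acc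

theorem overL_cons (step : Nat → List T → List T) (acc : List T) (a : Nat) (l : List Nat) :
    overL step acc (a :: l) = step a (overL step acc l) := rfl

theorem overL_inc {step : Nat → List T → List T} (hs : ∀ x, Inc (step x)) (l : List Nat) :
    Inc (fun acc => overL step acc l) := by
  intro acc t ht
  induction l with
  | nil => exact ht
  | cons a l ih =>
    show t ∈ overL step acc (a :: l)
    rw [overL_cons]
    exact hs a _ t ih

theorem overL_hit {step : Nat → List T → List T} (hs : ∀ x, Inc (step x)) {l : List Nat}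
    {x : Nat} (hx : x ∈ l) {t : T} (ht : Hit (step x) t) : Hit (fun acc => overL step acc l) t := by
  intro acc
  induction l with
  | nil => exact absurd hx (by simp)
  | cons a l ih =>
    show t ∈ overL step acc (a :: l)
    rw [overL_cons]
    rcases List.mem_cons.mp hx with rfl | h
    · exact ht _
    · exact hs a _ t (ih h)

theorem up_succ (step : Nat → List T → List T) (n x : Nat) (acc : List T) :
    up step (n + 1) x acc = step x (up step n (x + 1) acc) := by
  have e : up step (n + 1) x acc = fN x fun x => step x (up step n (Nat.add x 1) acc) := rfl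
  rw [e, fN_eq]

theorem up_inc {step : Nat → List T → List T} (hs : ∀ x, Inc (step x)) (n x : Nat) :
    Inc (up step n x) := by
  intro acc t ht
  induction n generalizing x with
  | zero => exact ht
  | succ n ih =>
    rw [up_succ]
    exact hs x _ t (ih (x + 1))

theorem up_hit {step : Nat → List T → List T} (hs : ∀ x, Inc (step x)) {n x y : Nat}
    (h1 : x ≤ y) (h2 : y < x + n) {t : T} (ht : Hit (step y) t) : Hit (up step n x) t := by
  intro acc
  induction n generalizing x with
  | zero => omega
  | succ n ih =>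
    rw [up_succ]
    rcases Nat.eq_or_lt_of_le h1 with rfl | h
    · exact ht _
    · exact hs x _ t (ih (by omega) (by omega))

theorem cond_inc {c : Bool} {f : List T → List T} (hf : Inc f) :
    Inc (fun acc => bif c then f acc else acc) := by
  intro acc t ht
  cases c
  · exact ht
  · exact hf acc t ht

theorem cond_inc' {c : Bool} {f : List T → List T} (hf : Inc f) :
    Inc (fun acc => bif c then acc else f acc) := by
  intro acc t ht
  cases c
  · exact hf acc t ht
  · exact ht

/-- the auxiliary quantities -/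
def cD (D2 : Nat) : Nat := bif Nat.beq ((isq D2 + 1 + D2) % 2) 0 then isq D2 + 1 else isq D2 + 1 + 1
def ND (D2 : Nat) : Nat := (cD D2 * cD D2 - D2) / 4
def nD (D2 : Nat) : Nat := isq (4096 * ND D2) + 1

theorem aux2_eq (D2 : Nat) (k : Nat → Nat → Nat → List T) : aux2 D2 k = k (cD D2) (ND D2) (nD D2) := by
  unfold aux2
  simp only [fN_eq]
  rfl

/-- the numerical test -/
def goodD (m1 m2 m3 : Nat) : Bool :=
  goodAux (DB m1) (DB m2) (DB m3) (typB m1 m2 m3) (kapB m1) (cD (DB m2)) (ND (DB m2)) (nD (DB m2))
    (isq (DB m1 * DB m2))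

theorem addT_inc (D2 c N n m1 m2 g u v : Nat) : Inc (addT D2 c N n m1 m2 g u v) := by
  intro acc t ht
  unfold addT
  simp only [fN_eq]
  cases h : (Nat.ble (Nat.add (DB m1) 1) D2 && Nat.ble (Nat.add D2 1) (DB (Nat.mul u v)) &&
    !(goodAux (DB m1) D2 (DB (Nat.mul u v)) (typB m1 m2 (Nat.mul u v)) (kapB m1) c N n
      (isq (Nat.mul (DB m1) D2))))
  · exact ht
  · exact List.mem_cons_of_mem _ ht

theorem addT_hit {D2 m1 m2 g u v : Nat} (hD : D2 = DB m2) (h1 : DB m1 < D2) (h2 : D2 < DB (u * v))
    (h3 : goodD m1 m2 (u * v) = false) :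
    Hit (addT D2 (cD D2) (ND D2) (nD D2) m1 m2 g u v) ⟨g, u, v⟩ := by
  intro acc
  unfold addT
  simp only [fN_eq]
  have h : (Nat.ble (Nat.add (DB m1) 1) D2 && Nat.ble (Nat.add D2 1) (DB (Nat.mul u v)) &&
    !(goodAux (DB m1) D2 (DB (Nat.mul u v)) (typB m1 m2 (Nat.mul u v)) (kapB m1) (cD D2) (ND D2)
      (nD D2) (isq (Nat.mul (DB m1) D2)))) = true := by
    rw [Bool.and_eq_true, Bool.and_eq_true, Bool.not_eq_true']
    refine ⟨⟨Nat.ble_eq.mpr h1, Nat.ble_eq.mpr h2⟩, ?_⟩
    rw [hD]; exact h3
  rw [h]
  exact List.mem_cons_self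

theorem stepA_inc (D2 c N n m2 m1 : Nat) : Inc (stepA D2 c N n m2 m1) := by
  intro acc t ht
  unfold stepA
  simp only [fN_eq]
  exact cond_inc (addT_inc _ _ _ _ _ _ _ _ _) acc t ht

theorem stepB_inc (m2 : Nat) : Inc (stepB m2) := by
  intro acc t ht
  unfold stepB
  simp only [fN_eq, aux2_eq]
  exact cond_inc (overL_inc (stepA_inc _ _ _ _ _) _) acc t ht

theorem stepC_inc (D2 c N n m2 m1 : Nat) : Inc (stepC D2 c N n m2 m1) := by
  intro acc t ht
  unfold stepC
  simp only [fN_eq]
  exact cond_inc (cond_inc (addT_inc _ _ _ _ _ _ _ _ _)) acc t ht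

theorem stepD_inc (m2 : Nat) : Inc (stepD m2) := by
  intro acc t ht
  unfold stepD
  simp only [fN_eq, aux2_eq]
  exact cond_inc' (overL_inc (stepC_inc _ _ _ _ _) _) acc t ht

theorem stepE_inc (u v m3 g : Nat) : Inc (stepE u v m3 g) := by
  intro acc t ht
  unfold stepE
  simp only [fN_eq, aux2_eq]
  exact cond_inc (cond_inc (addT_inc _ _ _ _ _ _ _ _ _)) acc t ht

theorem stepF_inc (u v : Nat) : Inc (stepF u v) := by
  intro acc t ht
  unfold stepF
  simp only [fN_eq]
  exact cond_inc' (cond_inc (up_inc (stepE_inc _ _ _) _ _)) acc t ht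

theorem stepG_inc (u : Nat) : Inc (stepG u) := by
  intro acc t ht
  unfold stepG
  exact up_inc (stepF_inc _) _ _ acc t ht

/-- numbers without small square factors -/
theorem sqfB_of {m : Nat} (hm : Squarefree m) : sqfB m = true := by
  unfold sqfB
  rw [allB_iff]
  intro d hd
  rw [Bool.not_eq_true', beq_false]
  intro h0
  have hdv : d ∣ m := Nat.dvd_of_mod_eq_zero h0
  have key : ∀ k, k ≠ 1 → ¬ k * k ∣ m := by
    intro k hk h
    exact hk (Nat.isUnit_iff.mp (hm k h))
  simp only [List.mem_cons, List.not_mem_nil, or_false] at hd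
  rcases hd with rfl | rfl | rfl | rfl | rfl | rfl | rfl | rfl | rfl | rfl | rfl | rfl | rfl | rfl |
    rfl | rfl | rfl | rfl | rfl | rfl
  · exact key 2 (by norm_num) hdv
  · exact key 3 (by norm_num) hdv
  · exact key 5 (by norm_num) hdv
  · exact key 7 (by norm_num) hdv
  · exact key 11 (by norm_num) hdv
  · exact key 13 (by norm_num) hdv
  · exact key 17 (by norm_num) hdv
  · exact key 19 (by norm_num) hdv
  · exact key 23 (by norm_num) hdv
  · exact key 29 (by norm_num) hdv
  · exact key 31 (by norm_num) hdv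
  · exact key 37 (by norm_num) hdv
  · exact key 41 (by norm_num) hdv
  · exact key 43 (by norm_num) hdv
  · exact key 47 (by norm_num) hdv
  · exact key 53 (by norm_num) hdv
  · exact key 59 (by norm_num) hdv
  · exact key 61 (by norm_num) hdv
  · exact key 67 (by norm_num) hdv
  · exact key 71 (by norm_num) hdv

def fltN (l : List Nat) (p : Nat → Bool) : List Nat :=
  List.rec [] (fun a _ ih => bif p a then a :: ih else ih) l

theorem mem_fltN (l : List Nat) (p : Nat → Bool) (a : Nat) :
    a ∈ l → p a = true → a ∈ fltN l p := by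
  induction l with
  | nil => simp
  | cons b l ih =>
    intro h1 h2
    have e : fltN (b :: l) p = bif p b then b :: fltN l p else fltN l p := rfl
    rw [e]
    rcases List.mem_cons.mp h1 with rfl | h
    · rw [h2]; exact List.mem_cons_self
    · cases p b
      · exact ih h h2
      · exact List.mem_cons_of_mem _ (ih h h2)

theorem sf1_eq : fltN (List.range' 2 482) sqfB = sf1 := by decide +kernel
theorem sf2_eq : fltN (List.range' 121 1143) sqfB = sf2 := by decide +kernel

theorem mem_sf1 {m : Nat} (hm : Squarefree m) (h1 : 1 < m) (h2 : m ≤ 483) : m ∈ sf1 := by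
  rw [← sf1_eq]
  exact mem_fltN _ _ _ (by rw [List.mem_range'_1]; omega) (sqfB_of hm)

theorem mem_sf2 {m : Nat} (hm : Squarefree m) (h1 : 121 ≤ m) (h2 : m ≤ 1263) : m ∈ sf2 := by
  rw [← sf2_eq]
  exact mem_fltN _ _ _ (by rw [List.mem_range'_1]; omega) (sqfB_of hm)

end BQN
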