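import Pool.Agent.BQN.Enum2

/-! Every field outside the uniform range passes the numerical test or is in the tables. -/

namespace BQN

theorem cond_hit {c : Bool} {f : List T → List T} {t : T} (hc : c = true) (hf : Hit f t) :
    Hit (fun acc => bif c then f acc else acc) t := by
  intro acc
  rw [hc]; exact hf acc

theorem cond_hit' {c : Bool} {f : List T → List T} {t : T} (hc : c = false) (hf : Hit f t) :
    Hit (fun acc => bif c then acc else f acc) t := by
  intro acc
  rw [hc]; exact hf acc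

variable {g u v : ℕ}

theorem coprime_uv (hs : Squarefree (g * u * v)) : Nat.Coprime u v :=
  Nat.coprime_of_squarefree_mul (sqf3 hs)

theorem gpos (hs : Squarefree (g * u * v)) : 0 < g ∧ 0 < u ∧ 0 < v := by
  have h := hs.ne_zero
  refine ⟨Nat.pos_of_ne_zero ?_, Nat.pos_of_ne_zero ?_, Nat.pos_of_ne_zero ?_⟩
  · rintro rfl; simp at h
  · rintro rfl; simp at h
  · rintro rfl; simp at h

theorem gcd_eq (hs : Squarefree (g * u * v)) : Nat.gcd (g * u) (g * v) = g := by
  rw [Nat.gcd_mul_left, (coprime_uv hs), mul_one]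

theorem stepA_hit (hs : Squarefree (g * u * v)) (h1 : DB (g * u) < DB (g * v))
    (h2 : DB (g * v) < DB (u * v)) (h3 : goodD (g * u) (g * v) (u * v) = false) :
    Hit (stepA (DB (g * v)) (cD (DB (g * v))) (ND (DB (g * v))) (nD (DB (g * v))) (g * v) (g * u))
      ⟨g, u, v⟩ := by
  intro acc
  unfold stepA
  simp only [fN_eq]
  have e1 : Nat.gcd (g * u) (g * v) = g := gcd_eq hs
  have e2 : Nat.div (g * u) g = u := Nat.mul_div_cancel_left u (gpos hs).1
  have e3 : Nat.div (g * v) g = v := Nat.mul_div_cancel_left v (gpos hs).1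
  rw [e1, e2, e3]
  exact cond_hit (f := addT (DB (g * v)) (cD (DB (g * v))) (ND (DB (g * v))) (nD (DB (g * v)))
    (g * u) (g * v) g u v) (Nat.ble_eq.mpr h1) (addT_hit rfl h1 h2 h3) acc

theorem enum1_hit (hs : Squarefree (g * u * v)) (hu1 : 1 < g * u) (hv1 : 1 < g * v)
    (h1 : DB (g * u) < DB (g * v))
    (h2 : DB (g * v) < DB (u * v)) (h3 : goodD (g * u) (g * v) (u * v) = false)
    (h4 : DB (g * v) ≤ 483) : (⟨g, u, v⟩ : T) ∈ enum1 := by
  have le : ∀ m, m ≤ DB m := by
    intro m; rw [DB_eq]; unfold D; split_ifs <;> omega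
  refine overL_hit (step := stepB) stepB_inc (mem_sf1 (sqf2 hs) hv1 ((le _).trans h4)) ?_ []
  intro acc
  unfold stepB
  simp only [fN_eq, aux2_eq]
  refine cond_hit (f := fun acc => overL (stepA (DB (g * v)) (cD (DB (g * v))) (ND (DB (g * v)))
    (nD (DB (g * v))) (g * v)) acc sf1) (Nat.ble_eq.mpr h4) ?_ acc
  exact overL_hit (stepA_inc _ _ _ _ _) (mem_sf1 (sqf1 hs) hu1 ((le _).trans (by omega)))
    (stepA_hit hs h1 h2 h3)

theorem enum2_hit (hs : Squarefree (g * u * v)) (hu1 : 1 < g * u)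
    (h1 : DB (g * u) < DB (g * v))
    (h2 : DB (g * v) < DB (u * v)) (h3 : goodD (g * u) (g * v) (u * v) = false)
    (h4 : 484 ≤ DB (g * v)) (h5 : DB (g * v) ≤ 5055) (h6 : DB (g * u) ≤ 224)
    (h7 : (g * u) % 4 = (g * v) % 4) (h8 : (g * v) % 4 ≠ 1)
    (h9 : typB (g * u) (g * v) (u * v) = 3) : (⟨g, u, v⟩ : T) ∈ enum2 := by
  have e1 : DB (g * v) = 4 * (g * v) := by
    rw [DB_eq]; unfold D; rw [if_neg h8]
  have e2 : DB (g * u) = 4 * (g * u) := by
    rw [DB_eq]; unfold D; rw [if_neg (by omega)]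
  refine overL_hit (step := stepD) stepD_inc (mem_sf2 (sqf2 hs) (by omega) (by omega)) ?_ []
  intro acc
  unfold stepD
  simp only [fN_eq, aux2_eq]
  have e3 : Nat.mul 4 (g * v) = DB (g * v) := e1.symm
  rw [e3]
  refine cond_hit' (f := fun acc => overL (stepC (DB (g * v)) (cD (DB (g * v))) (ND (DB (g * v)))
    (nD (DB (g * v))) (g * v)) acc sf1) ?_ ?_ acc
  · rw [beq_false]; exact h8
  · refine overL_hit (stepC_inc _ _ _ _ _) (mem_sf1 (sqf1 hs) hu1 (by omega)) ?_
    intro acc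
    unfold stepC
    simp only [fN_eq]
    have f1 : Nat.gcd (g * u) (g * v) = g := gcd_eq hs
    have f2 : Nat.div (g * u) g = u := Nat.mul_div_cancel_left u (gpos hs).1
    have f3 : Nat.div (g * v) g = v := Nat.mul_div_cancel_left v (gpos hs).1
    rw [f1, f2, f3]
    refine cond_hit (f := fun acc => bif Nat.beq (typB (g * u) (g * v) (Nat.mul u v)) 3 then
      addT (DB (g * v)) (cD (DB (g * v))) (ND (DB (g * v))) (nD (DB (g * v))) (g * u) (g * v) g u v
      acc else acc) ?_ ?_ acc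
    · rw [Bool.and_eq_true]
      exact ⟨Nat.beq_eq.mpr h7, Nat.ble_eq.mpr (by omega)⟩
    · exact cond_hit (Nat.beq_eq.mpr h9) (addT_hit rfl h1 h2 h3)

theorem enum3_hit (hs : Squarefree (g * u * v))
    (h1 : DB (g * u) < DB (g * v))
    (h2 : DB (g * v) < DB (u * v)) (h3 : goodD (g * u) (g * v) (u * v) = false)
    (h4 : 484 ≤ DB (g * v)) (h5 : DB (u * v) ≤ 5055)
    (h7 : (g * u) % 4 = (u * v) % 4) (h8 : (u * v) % 4 ≠ 1)
    (h9 : typB (g * u) (g * v) (u * v) = 2) : (⟨g, u, v⟩ : T) ∈ enum3 := by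
  obtain ⟨g0, u0, v0⟩ := gpos hs
  have e1 : DB (g * u) = 4 * (g * u) := by
    rw [DB_eq]; unfold D; rw [if_neg (by omega)]
  have e3 : DB (u * v) = 4 * (u * v) := by
    rw [DB_eq]; unfold D; rw [if_neg h8]
  have e2 : DB (g * v) ≤ 4 * (g * v) := by
    rw [DB_eq]; unfold D; split_ifs <;> omega
  have e2' : g * v ≤ DB (g * v) := by
    rw [DB_eq]; unfold D; split_ifs <;> omega
  have huv : u < v := by
    have : g * u < g * v := by omega
    exact Nat.lt_of_mul_lt_mul_left this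
  have huv' : u * v ≤ 1263 := by omega
  have hu35 : u ≤ 35 := by
    by_contra h
    push Not at h
    have : 36 * 36 ≤ u * v := Nat.mul_le_mul h (by omega)
    omega
  have hg4 : g < 4 * u := by
    have : g * v < 4 * u * v := by
      have : 4 * u * v = 4 * (u * v) := by ring
      omega
    exact Nat.lt_of_mul_lt_mul_right this
  have hv : v ≤ 1263 / u := by
    rw [Nat.le_div_iff_mul_le u0]
    rw [mul_comm]; exact huv'
  refine up_hit (step := stepG) stepG_inc (y := u) (by omega) (by omega) ?_ []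
  intro acc
  unfold stepG
  refine up_hit (stepF_inc u) (y := v) (by omega) (by show v < 1 + 1263 / u; omega) ?_ acc
  intro acc
  unfold stepF
  simp only [fN_eq]
  have s3 : sqfB (u * v) = true := sqfB_of (sqf3 hs)
  refine cond_hit' (f := fun acc => bif Nat.ble (Nat.mul u v) 1263 && sqfB (Nat.mul u v) then
      up (stepE u v (Nat.mul u v)) (Nat.mul 4 u) 1 acc else acc) ?_ ?_ acc
  · rw [beq_false]; exact h8
  refine cond_hit (f := fun acc => up (stepE u v (Nat.mul u v)) (Nat.mul 4 u) 1 acc) ?_ ?_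
  · rw [Bool.and_eq_true]
    exact ⟨Nat.ble_eq.mpr huv', s3⟩
  refine up_hit (stepE_inc u v _) (y := g) (by omega) (by show g < 1 + 4 * u; omega) ?_
  intro acc
  unfold stepE
  simp only [fN_eq, aux2_eq]
  have hgs : Squarefree g := (sqf1 hs).squarefree_of_dvd ⟨u, rfl⟩
  have hgc : Nat.gcd g (u * v) = 1 := by
    have : Squarefree (g * (u * v)) := by rw [← mul_assoc]; exact hs
    exact Nat.coprime_of_squarefree_mul this
  refine cond_hit (f := fun acc => bif Nat.ble 484 (DB (Nat.mul g v)) then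
    addT (DB (Nat.mul g v)) (cD (DB (Nat.mul g v))) (ND (DB (Nat.mul g v))) (nD (DB (Nat.mul g v)))
      (Nat.mul g u) (Nat.mul g v) g u v acc else acc) ?_ ?_ acc
  · rw [Bool.and_eq_true, Bool.and_eq_true, Bool.and_eq_true]
    refine ⟨⟨⟨Nat.beq_eq.mpr h9, Nat.ble_eq.mpr ?_⟩, Nat.beq_eq.mpr hgc⟩, sqfB_of hgs⟩
    show 121 ≤ g * v
    omega
  · exact cond_hit (Nat.ble_eq.mpr h4) (addT_hit rfl h1 h2 h3)

/-- **The case distinction.** -/
theorem cases3 (hs : Squarefree (g * u * v)) (hu1 : 1 < g * u) (hv1 : 1 < g * v)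
    (h1 : D (g * u) < D (g * v)) (h2 : D (g * v) < D (u * v)) :
    (484 ≤ D (g * v) ∧ (typ (g * u) (g * v) (u * v) = 2 → 5056 ≤ D (u * v)) ∧
      (typ (g * u) (g * v) (u * v) = 3 → 5056 ≤ D (g * v) ∨ 225 ≤ D (g * u))) ∨
    goodD (g * u) (g * v) (u * v) = true ∨ (⟨g, u, v⟩ : T) ∈ enum1 ∨ (⟨g, u, v⟩ : T) ∈ enum2 ∨
      (⟨g, u, v⟩ : T) ∈ enum3 := by
  rw [← DB_eq, ← DB_eq] at h1 h2
  rw [← DB_eq, ← DB_eq, ← DB_eq, ← typB_eq]
  cases h3 : goodD (g * u) (g * v) (u * v)
  swap
  · right; left; rfl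
  rcases Nat.lt_or_ge (DB (g * v)) 484 with h4 | h4
  · right; right; left
    exact enum1_hit hs hu1 hv1 h1 h2 h3 (by omega)
  have ht : typB (g * u) (g * v) (u * v) = if (g * v) % 4 = (u * v) % 4 then
      (if (g * u) % 4 = 1 ∧ (g * v) % 4 = 1 then 0 else 1)
      else if (g * u) % 4 = (u * v) % 4 then 2 else 3 := by
    rw [typB_eq]; rfl
  rcases nres hs with hr | hr | hr | hr
  · left
    refine ⟨h4, fun h => ?_, fun h => ?_⟩
    · rw [ht, if_pos (by omega)] at h; split_ifs at h <;> omega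
    · rw [ht, if_pos (by omega)] at h; split_ifs at h <;> omega
  · left
    refine ⟨h4, fun h => ?_, fun h => ?_⟩
    · rw [ht, if_pos hr.1] at h; split_ifs at h <;> omega
    · rw [ht, if_pos hr.1] at h; split_ifs at h <;> omega
  · have ht2 : typB (g * u) (g * v) (u * v) = 2 := by
      rw [ht, if_neg hr.1, if_pos hr.2.1]
    rcases Nat.lt_or_ge (DB (u * v)) 5056 with h5 | h5
    · right; right; right; right
      exact enum3_hit hs h1 h2 h3 h4 (by omega) hr.2.1 (by omega) ht2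
    · left
      refine ⟨h4, fun _ => h5, fun h => ?_⟩
      omega
  · have ht3 : typB (g * u) (g * v) (u * v) = 3 := by
      rw [ht, if_neg hr.1, if_neg hr.2.1]
    rcases Nat.lt_or_ge (DB (g * v)) 5056 with h5 | h5
    · rcases Nat.lt_or_ge (DB (g * u)) 225 with h6 | h6
      · right; right; right; left
        exact enum2_hit hs hu1 h1 h2 h3 h4 (by omega) (by omega) hr.2.2.1 (by omega) ht3
      · left
        exact ⟨h4, fun h => by omega, fun _ => Or.inr h6⟩
    · left
      exact ⟨h4, fun h => by omega, fun _ => Or.inl h5⟩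

end BQN
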