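import Pool.Agent.BQN.Tab.T0
import Pool.Agent.BQN.Tab.T1
import Pool.Agent.BQN.Tab.T2
import Pool.Agent.BQN.Tab.T3
import Pool.Agent.BQN.Tab.T4
import Pool.Agent.BQN.Tab.T5
import Pool.Agent.BQN.Tab.T6
import Pool.Agent.BQN.Tab.T7
import Pool.Agent.BQN.Tab.T8
import Pool.Agent.BQN.Tab.T9
import Pool.Agent.BQN.Tab.T10
import Pool.Agent.BQN.Tab.T11
import Pool.Agent.BQN.Tab.T12
import Pool.Agent.BQN.Tab.T13
import Pool.Agent.BQN.Tab.T14
import Pool.Agent.BQN.Tab.T15
import Pool.Agent.BQN.Tab.T16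
import Pool.Agent.BQN.Tab.T17
import Pool.Agent.BQN.Tab.T18
import Pool.Agent.BQN.Tab.T19
import Pool.Agent.BQN.Tab.T20
import Pool.Agent.BQN.Tab.T21
import Pool.Agent.BQN.Tab.T22
import Pool.Agent.BQN.Tab.T23
import Pool.Agent.BQN.Tab.T24
import Pool.Agent.BQN.Tab.T25
import Pool.Agent.BQN.Tab.T26
import Pool.Agent.BQN.Tab.T27
import Pool.Agent.BQN.Tab.T28
import Pool.Agent.BQN.Tab.T29
import Pool.Agent.BQN.Tab.T30
import Pool.Agent.BQN.Tab.T31
import Pool.Agent.BQN.Tab.T32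
import Pool.Agent.BQN.Tab.T33
import Pool.Agent.BQN.Tab.T34
import Pool.Agent.BQN.Tab.T35
import Pool.Agent.BQN.Tab.T36
import Pool.Agent.BQN.Tab.T37
import Pool.Agent.BQN.Tab.T38
import Pool.Agent.BQN.Tab.T39
import Pool.Agent.BQN.Tab.T40
import Pool.Agent.BQN.Tab.T41
import Pool.Agent.BQN.Tab.T42
import Pool.Agent.BQN.App

/-! The tables of region 1. -/

namespace BQN

def reg1 : List E :=
  tab0 ++ (tab1 ++ (tab2 ++ (tab3 ++ (tab4 ++ (tab5 ++ (tab6 ++ (tab7 ++ (tab8 ++ (tab9 ++ (tab10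
  ++ (tab11 ++ (tab12 ++ (tab13 ++ (tab14 ++ (tab15 ++ (tab16 ++ (tab17 ++ (tab18 ++ (tab19 ++
  (tab20 ++ (tab21 ++ (tab22 ++ (tab23 ++ (tab24 ++ (tab25 ++ (tab26 ++ (tab27 ++ (tab28 ++ (tab29
  ++ (tab30 ++ (tab31 ++ (tab32 ++ (tab33 ++ (tab34 ++ (tab35 ++ (tab36 ++ (tab37 ++ (tab38 ++
  (tab39 ++ (tab40 ++ (tab41 ++ (tab42))))))))))))))))))))))))))))))))))))))))))

theorem reg1_ok : allB reg1 E.ok = true :=
  allB_append tab0_ok (allB_append tab1_ok (allB_append tab2_ok (allB_append tab3_ok (allB_append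
  tab4_ok (allB_append tab5_ok (allB_append tab6_ok (allB_append tab7_ok (allB_append tab8_ok
  (allB_append tab9_ok (allB_append tab10_ok (allB_append tab11_ok (allB_append tab12_ok
  (allB_append tab13_ok (allB_append tab14_ok (allB_append tab15_ok (allB_append tab16_ok
  (allB_append tab17_ok (allB_append tab18_ok (allB_append tab19_ok (allB_append tab20_ok
  (allB_append tab21_ok (allB_append tab22_ok (allB_append tab23_ok (allB_append tab24_ok
  (allB_append tab25_ok (allB_append tab26_ok (allB_append tab27_ok (allB_append tab28_ok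
  (allB_append tab29_ok (allB_append tab30_ok (allB_append tab31_ok (allB_append tab32_ok
  (allB_append tab33_ok (allB_append tab34_ok (allB_append tab35_ok (allB_append tab36_ok
  (allB_append tab37_ok (allB_append tab38_ok (allB_append tab39_ok (allB_append tab40_ok
  (allB_append tab41_ok tab42_ok)))))))))))))))))))))))))))))))))))))))))

end BQN
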