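import Pool.Agent.BQN.Enum
import Pool.Agent.BQN.Reg1

/-! The enumeration agrees with the tables, region 1. -/

namespace BQN

theorem mat1 : matchB enum1 reg1 = true := by decide +kernel

end BQN
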