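import Pool.Agent.BQN.Tab.T43
import Pool.Agent.BQN.Tab.T44
import Pool.Agent.BQN.Tab.T45
import Pool.Agent.BQN.Tab.T46
import Pool.Agent.BQN.Tab.T47
import Pool.Agent.BQN.Tab.T48
import Pool.Agent.BQN.Tab.T49
import Pool.Agent.BQN.App

/-! The tables of region 2. -/

namespace BQN

def reg2 : List E :=
  tab43 ++ (tab44 ++ (tab45 ++ (tab46 ++ (tab47 ++ (tab48 ++ (tab49))))))

theorem reg2_ok : allB reg2 E.ok = true :=
  allB_append tab43_ok (allB_append tab44_ok (allB_append tab45_ok (allB_append tab46_ok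
  (allB_append tab47_ok (allB_append tab48_ok tab49_ok)))))

end BQN
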