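import Pool.Agent.BQN.Enum
import Pool.Agent.BQN.Reg2

/-! The enumeration agrees with the tables, region 2. -/

namespace BQN

theorem mat2 : matchB enum2 reg2 = true := by decide +kernel

end BQN
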