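import Pool.Agent.BQN.Tab.T50
import Pool.Agent.BQN.Tab.T51
import Pool.Agent.BQN.Tab.T52
import Pool.Agent.BQN.Tab.T53
import Pool.Agent.BQN.Tab.T54
import Pool.Agent.BQN.Tab.T55
import Pool.Agent.BQN.App

/-! The tables of region 3. -/

namespace BQN

def reg3 : List E :=
  tab50 ++ (tab51 ++ (tab52 ++ (tab53 ++ (tab54 ++ (tab55)))))

theorem reg3_ok : allB reg3 E.ok = true :=
  allB_append tab50_ok (allB_append tab51_ok (allB_append tab52_ok (allB_append tab53_ok
  (allB_append tab54_ok tab55_ok))))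

end BQN
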