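import Pool.Agent.BQN.Snd4

/-! Soundness of the checker, conclusion. -/

namespace BQN

open NumberField BQF Matrix

section
variable {K : Type*} [Field K] [NumberField K] {g u v : ℕ}
variable (F : Fld K (g * u) (g * v) (u * v) g)

/-- a vector orthogonal to `e` whose norm is recorded by `s` -/
structure Rec (A : Matrix (Fin 4) (Fin 4) (𝓞 K)) (e x : Fin 4 → 𝓞 K) (s : VS) : Prop where
  orth : bil A x e = 0
  ok : VSok F s
  nrm : el F s.v = 16 * ((bil A x x : 𝓞 K) : K)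

theorem red_spec {f : Fd} (hf : FdOK f g u v) (hs : Squarefree (g * u * v))
    {A : Matrix (Fin 4) (Fin 4) (𝓞 K)} (hA : IsUniversal K 4 A) {e : Fin 4 → 𝓞 K}
    (he : bil A e e = 1) {one : VS} (ho : VSok F one) (ho' : el F one.v = 16) {al : V}
    {k : VS → Bool} (h : red f one al k = true) :
    ∃ (x : Fin 4 → 𝓞 K) (s : VS), Rec F A e x s ∧ k s = true := by
  unfold red at h
  simp only [fV_eq, fL_eq, Bool.and_eq_true] at h
  obtain ⟨h1, h2⟩ := h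
  obtain ⟨hint, hpos⟩ := okel_spec F hf h1
  obtain ⟨α, hα⟩ : ∃ α : 𝓞 K, (α : K) = el F al / 4 := ⟨⟨_, hint⟩, rfl⟩
  have hα4 : el F al = 4 * (α : K) := by rw [hα]; ring
  have hαpos : TotPos (α : K) := by
    intro τ
    obtain ⟨i, j, rfl⟩ := F.all τ
    rw [hα, map_div₀, map_ofNat]
    have := hpos i j
    positivity
  obtain ⟨w0, hw0⟩ := hA.univ α hαpos
  obtain ⟨w, hw1, hw2, Y, y1, y2, y3, y4⟩ := sign_norm F hf hs (A := A) w0 e
  rw [hw0] at hw1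
  have eA : el F (V.smul 4 al) = 16 * (α : K) := by
    rw [el_smul, hα4]; push_cast; ring
  have posA : ∀ i j, 0 ≤ F.s i j (el F (V.smul 4 al)) := by
    intro i j
    rw [eA, map_mul, map_ofNat]
    have := hαpos (F.s i j)
    positivity
  obtain ⟨sA, a1, a2, a3⟩ := mkVS_spec F hf h2 posA
  rw [allB_iff] at a3
  have hYm : Y ∈ flt (cands f sA one) halfPos := by
    rw [mem_flt]
    refine ⟨cands_mem F hf a2 ho ?_ y2 y3, y4⟩
    intro i j
    have cs := hA.cs w e (F.s i j)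
    rw [hw1, he] at cs
    rw [a1, eA, ho', y1, map_mul, map_mul, map_ofNat, map_ofNat]
    have : F.s i j ((1 : 𝓞 K) : K) = 1 := by simp
    rw [this] at cs
    nlinarith
  have h3 := a3 Y hYm
  obtain ⟨o1, o2⟩ := split_e hA (w := w) he
  set x := w - bil A w e • e with hx
  have eX : el F (V.sub (V.smul 4 al) (V.mulq f Y Y)) = 16 * ((bil A x x : 𝓞 K) : K) := by
    rw [el_sub, el_mulq F hf, eA, y1, o2, hw1]
    push_cast
    ring
  obtain ⟨s, b1, b2, b3⟩ := mkVS_spec F hf h3 (by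
    intro i j
    rw [eX, map_mul, map_ofNat]
    have := nonneg_val hA x (F.s i j)
    positivity)
  exact ⟨x, s, ⟨o1, b2, by rw [b1, eX]⟩, b3⟩

/-- candidates contain the product -/
theorem pair_mem {f : Fd} (hf : FdOK f g u v) {A : Matrix (Fin 4) (Fin 4) (𝓞 K)}
    (hA : IsUniversal K 4 A) {e x y : Fin 4 → 𝓞 K} {s t : VS} (hx : Rec F A e x s)
    (hy : Rec F A e y t) {Y : V} (y1 : el F Y = 4 * ((bil A x y : 𝓞 K) : K))
    (y2 : Par f Y.x0 Y.x1 Y.x2 Y.x3) (y3 : integ f Y = true) : Y ∈ cands f s t := by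
  refine cands_mem F hf hx.ok hy.ok ?_ y2 y3
  intro i j
  have cs := hA.cs x y (F.s i j)
  rw [hx.nrm, hy.nrm, y1, map_mul, map_mul, map_mul, map_ofNat, map_ofNat]
  nlinarith

/-- sign normalisation of the product with `x` -/
theorem pair_half {f : Fd} (hf : FdOK f g u v) (hs : Squarefree (g * u * v))
    {A : Matrix (Fin 4) (Fin 4) (𝓞 K)} (hA : IsUniversal K 4 A) {e x y : Fin 4 → 𝓞 K} {s t : VS}
    (hx : Rec F A e x s) (hy : Rec F A e y t) :
    ∃ y', Rec F A e y' t ∧ ∃ Y, el F Y = 4 * ((bil A x y' : 𝓞 K) : K) ∧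
      Y ∈ flt (cands f s t) halfPos := by
  obtain ⟨y', h1, h2, Y, h3, h4, h5, h6⟩ := sign_norm F hf hs (A := A) y x
  have hr : Rec F A e y' t := ⟨h2 e hy.orth, hy.ok, by rw [h1]; exact hy.nrm⟩
  have h3' : el F Y = 4 * ((bil A x y' : 𝓞 K) : K) := by rw [bil_comm hA.symm x y']; exact h3
  exact ⟨y', hr, Y, h3', (mem_flt _ _ _).mpr ⟨pair_mem F hf hA hx hr h3' h4 h5, h6⟩⟩

theorem pair_any {f : Fd} (hf : FdOK f g u v) (hs : Squarefree (g * u * v))
    {A : Matrix (Fin 4) (Fin 4) (𝓞 K)} (hA : IsUniversal K 4 A) {e x y : Fin 4 → 𝓞 K} {s t : VS}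
    (hx : Rec F A e x s) (hy : Rec F A e y t) :
    ∃ Y, el F Y = 4 * ((bil A x y : 𝓞 K) : K) ∧ Y ∈ cands f s t := by
  obtain ⟨Y, h1, h2, h3⟩ := coords_ok F hf hs (bil A x y)
  exact ⟨Y, h1, pair_mem F hf hA hx hy h1 h2 h3⟩

theorem check4_spec {f : Fd} (hf : FdOK f g u v) (hs : Squarefree (g * u * v))
    {A : Matrix (Fin 4) (Fin 4) (𝓞 K)} (hA : IsUniversal K 4 A) {e : Fin 4 → 𝓞 K}
    (he : bil A e e = 1) {x1 x2 x3 x4 : Fin 4 → 𝓞 K} {s1 s2 s3 s4 : VS}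
    (r1 : Rec F A e x1 s1) (r2 : Rec F A e x2 s2) (r3 : Rec F A e x3 s3) (r4 : Rec F A e x4 s4)
    (h : check4 f s1 s2 s3 s4 = true) : False := by
  obtain ⟨x2, r2, X, eX, mX⟩ := pair_half F hf hs hA r1 r2
  obtain ⟨x3, r3, Y, eY, mY⟩ := pair_half F hf hs hA r1 r3
  obtain ⟨x4, r4, U, eU, mU⟩ := pair_half F hf hs hA r1 r4
  obtain ⟨Z, eZ, mZ⟩ := pair_any F hf hs hA r2 r3
  obtain ⟨Vv, eV, mV⟩ := pair_any F hf hs hA r2 r4
  obtain ⟨W, eW, mW⟩ := pair_any F hf hs hA r3 r4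
  unfold check4 at h
  simp only [fL_eq, fV_eq, allB_iff] at h
  have h' := h X mX Y mY Z mZ U mU Vv mV W mW
  have g4 := gram4 hA he r1.orth r2.orth r3.orth r4.orth
  have hz := el_zero F (a := V.sub
      (V.sub (V.mulq f s4.v (V.add (V.add
        (V.mulq f s1.v (V.sub (V.mulq f s2.v s3.v) (V.mulq f (V.smul 4 Z) (V.smul 4 Z))))
        (V.mulq f (V.smul 4 X) (V.sub (V.mulq f (V.smul 4 Z) (V.smul 4 Y)) (V.mulq f (V.smul 4 X) s3.v))))
        (V.mulq f (V.smul 4 Y) (V.sub (V.mulq f (V.smul 4 X) (V.smul 4 Z)) (V.mulq f s2.v (V.smul 4 Y))))))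
       (V.add (V.add
        (V.mulq f (V.mulq f (V.smul 4 U) (V.smul 4 U)) (V.sub (V.mulq f s2.v s3.v) (V.mulq f (V.smul 4 Z) (V.smul 4 Z))))
        (V.mulq f (V.mulq f (V.smul 4 Vv) (V.smul 4 Vv)) (V.sub (V.mulq f s1.v s3.v) (V.mulq f (V.smul 4 Y) (V.smul 4 Y)))))
        (V.smul 2 (V.mulq f (V.mulq f (V.smul 4 U) (V.smul 4 Vv)) (V.sub (V.mulq f (V.smul 4 Z) (V.smul 4 Y)) (V.mulq f (V.smul 4 X) s3.v))))))
      (V.mulq f (V.smul 4 W) (V.add (V.mulq f (V.smul 4 W) (V.sub (V.mulq f s1.v s2.v) (V.mulq f (V.smul 4 X) (V.smul 4 X))))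
        (V.smul 2 (V.add (V.mulq f (V.smul 4 U) (V.sub (V.mulq f (V.smul 4 X) (V.smul 4 Z)) (V.mulq f s2.v (V.smul 4 Y))))
          (V.mulq f (V.smul 4 Vv) (V.sub (V.mulq f (V.smul 4 X) (V.smul 4 Y)) (V.mulq f s1.v (V.smul 4 Z)))))))))
    (by
      simp only [el_sub, el_add, el_smul, el_mulq F hf, r1.nrm, r2.nrm, r3.nrm, r4.nrm, eX, eY, eZ,
        eU, eV, eW]
      unfold gdet at g4
      push_cast
      linear_combination (16 : K) ^ 4 * g4)
  rw [hz] at h'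
  simp at h'

include F in
/-- **Soundness of the checker.** -/
theorem check_sound (hs : Squarefree (g * u * v)) {A : Matrix (Fin 4) (Fin 4) (𝓞 K)}
    (hA : IsUniversal K 4 A) {a b c d : V} (h : check g u v a b c d = true) : False := by
  unfold check at h
  obtain ⟨f, hf, h1⟩ := mkFd_spec h
  have e16 : el F ⟨16, 0, 0, 0⟩ = 16 := by simp [el]
  obtain ⟨one, o1, o2, h2⟩ := mkVS_spec F hf h1 (by
    intro i j; rw [e16, map_ofNat]; norm_num)
  obtain ⟨e, he⟩ := hA.univ 1 (by intro τ; simp)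
  have o3 : el F one.v = 16 := by rw [o1, e16]
  obtain ⟨x1, s1, r1, h3⟩ := red_spec F hf hs hA he o2 o3 h2
  obtain ⟨x2, s2, r2, h4⟩ := red_spec F hf hs hA he o2 o3 h3
  obtain ⟨x3, s3, r3, h5⟩ := red_spec F hf hs hA he o2 o3 h4
  obtain ⟨x4, s4, r4, h6⟩ := red_spec F hf hs hA he o2 o3 h5
  exact check4_spec F hf hs hA he r1 r2 r3 r4 h6

end

end BQN
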