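import Pool.Agent.BQN.Enum3
import Pool.Agent.BQN.Mat1
import Pool.Agent.BQN.Mat2
import Pool.Agent.BQN.Mat3
import Pool.Agent.BQN.Snd5

/-! No biquadratic field has a universal classical quaternary form. -/

namespace BQN

open NumberField BQF Matrix

theorem entry {l : List T} {reg : List E} (hm : matchB l reg = true) (hr : allB reg E.ok = true)
    {g u v : ℕ} (h : (⟨g, u, v⟩ : T) ∈ l) : ∃ a b c d, check g u v a b c d = true := by
  obtain ⟨e, he, h1, h2, h3⟩ := matchB_spec l reg hm _ h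
  have hok : E.ok e = true := (allB_iff reg E.ok).mp hr _ he
  refine ⟨e.a, e.b, e.c, e.d, ?_⟩
  have h1' : e.g = g := h1
  have h2' : e.u = u := h2
  have h3' : e.v = v := h3
  rw [← h1', ← h2', ← h3']
  exact hok

section
variable {K : Type*} [Field K] [NumberField K]

theorem table {l : List T} {reg : List E} (hm : matchB l reg = true) (hr : allB reg E.ok = true)
    {g u v : ℕ} (F : Fld K (g * u) (g * v) (u * v) g) (hs : Squarefree (g * u * v))
    {A : Matrix (Fin 4) (Fin 4) (𝓞 K)} (hA : IsUniversal K 4 A) (h : (⟨g, u, v⟩ : T) ∈ l) :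
    False := by
  obtain ⟨a, b, c, d, hok⟩ := entry hm hr h
  exact check_sound F hs hA hok

theorem sorted {g u v : ℕ} (F : Fld K (g * u) (g * v) (u * v) g) (hs : Squarefree (g * u * v))
    (hu1 : 1 < g * u) (hv1 : 1 < g * v) (h12 : D (g * u) < D (g * v)) (h23 : D (g * v) < D (u * v))
    {A : Matrix (Fin 4) (Fin 4) (𝓞 K)} (hA : IsUniversal K 4 A) : False := by
  rcases cases3 hs hu1 hv1 h12 h23 with h | h | h | h | h
  · exact theory_big F hs hA h23.le h.1 h.2.1 h.2.2
  · exact good_sound F hs hA h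
  · exact table mat1 reg1_ok F hs hA h
  · exact table mat2 reg2_ok F hs hA h
  · exact table mat3 reg3_ok F hs hA h

theorem D_inj {m n : ℕ} (h : D m = D n) : m = n := by
  unfold D at h
  split_ifs at h <;> omega

theorem sorted' {m1 m2 m3 g u v : ℕ} (e1 : m1 = g * u) (e2 : m2 = g * v) (e3 : m3 = u * v)
    (hs : Squarefree (g * u * v)) (h1 : 1 < m1) (h2 : 1 < m2) (hK : Module.finrank ℚ K = 4)
    (ha : ∃ a : K, a ^ 2 = (m1 : K)) (hb : ∃ b : K, b ^ 2 = (m2 : K))
    (h12 : D m1 < D m2) (h23 : D m2 < D m3)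
    {A : Matrix (Fin 4) (Fin 4) (𝓞 K)} (hA : IsUniversal K 4 A) : False := by
  subst e1 e2 e3
  obtain ⟨a, ha⟩ := ha
  obtain ⟨b, hb⟩ := hb
  have hne : g * u ≠ g * v := by
    intro h; rw [h] at h12; exact absurd h12 (lt_irrefl _)
  obtain ⟨F⟩ := exists_fld h1 h2 (sqf1 hs) (sqf2 hs) hne hK ha hb
  have e2 : g * u / g = u := Nat.mul_div_cancel_left u (gpos hs).1
  have e3 : g * v / g = v := Nat.mul_div_cancel_left v (gpos hs).1
  rw [gcd_eq hs, e2, e3] at F
  exact sorted F hs h1 h2 h12 h23 hA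

theorem any {g u v : ℕ} (hs : Squarefree (g * u * v)) (h1 : 1 < g * u) (h2 : 1 < g * v)
    (h3 : 1 < u * v) (hK : Module.finrank ℚ K = 4)
    (ha : ∃ a : K, a ^ 2 = ((g * u : ℕ) : K)) (hb : ∃ b : K, b ^ 2 = ((g * v : ℕ) : K))
    (hc : ∃ c : K, c ^ 2 = ((u * v : ℕ) : K))
    {A : Matrix (Fin 4) (Fin 4) (𝓞 K)} (hA : IsUniversal K 4 A) : False := by
  obtain ⟨g0, u0, v0⟩ := gpos hs
  have cuv := coprime_uv hs
  have cgu : Nat.Coprime g u := Nat.coprime_of_squarefree_mul (sqf1 hs)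
  have cgv : Nat.Coprime g v := Nat.coprime_of_squarefree_mul (sqf2 hs)
  have n12 : D (g * u) ≠ D (g * v) := by
    intro h
    have := Nat.eq_of_mul_eq_mul_left g0 (D_inj h)
    subst this
    rw [Nat.coprime_self] at cuv
    subst cuv
    omega
  have n13 : D (g * u) ≠ D (u * v) := by
    intro h
    have h' := D_inj h
    rw [mul_comm g u] at h'
    have := Nat.eq_of_mul_eq_mul_left u0 h'
    subst this
    rw [Nat.coprime_self] at cgv
    subst cgv
    omega
  have n23 : D (g * v) ≠ D (u * v) := by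
    intro h
    have := Nat.eq_of_mul_eq_mul_right v0 (D_inj h)
    subst this
    rw [Nat.coprime_self] at cgu
    subst cgu
    omega
  rcases lt_or_gt_of_ne n12 with h12 | h12 <;> rcases lt_or_gt_of_ne n13 with h13 | h13 <;>
    rcases lt_or_gt_of_ne n23 with h23 | h23
  · exact sorted' (m1 := g * u) (m2 := g * v) (m3 := u * v) (g := g) (u := u) (v := v)
      rfl rfl rfl hs h1 h2 hK ha hb h12 h23 hA
  · exact sorted' (m1 := g * u) (m2 := u * v) (m3 := g * v) (g := u) (u := g) (v := v)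
      (mul_comm _ _) rfl rfl (by rw [mul_comm u g]; exact hs) h1 h3 hK ha hc h13 h23 hA
  · omega
  · exact sorted' (m1 := u * v) (m2 := g * u) (m3 := g * v) (g := u) (u := v) (v := g)
      rfl (mul_comm _ _) (mul_comm _ _) (by rw [mul_comm, ← mul_assoc]; exact hs) h3 h1 hK hc ha
      h13 h12 hA
  · exact sorted' (m1 := g * v) (m2 := g * u) (m3 := u * v) (g := g) (u := v) (v := u)
      rfl rfl (mul_comm _ _) (by rw [mul_right_comm]; exact hs) h2 h1 hK hb ha h12 h13 hA
  · omega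
  · exact sorted' (m1 := g * v) (m2 := u * v) (m3 := g * u) (g := v) (u := g) (v := u)
      (mul_comm _ _) (mul_comm _ _) rfl (by rw [mul_assoc, mul_comm]; exact hs) h2 h3 hK hb hc
      h23 h13 hA
  · exact sorted' (m1 := u * v) (m2 := g * v) (m3 := g * u) (g := v) (u := u) (v := g)
      (mul_comm _ _) (mul_comm _ _) (mul_comm _ _)
      (by rw [mul_comm, mul_comm v u, ← mul_assoc]; exact hs) h3 h2 hK hc hb h23 h12 hA

/-- **Main theorem.** -/
theorem no_quaternary {p q : ℕ} (hp : Squarefree p) (hq : Squarefree q) (hp1 : 1 < p) (hq1 : 1 < q)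
    (hpq : p ≠ q) (hK : Module.finrank ℚ K = 4) (hpK : ∃ a : K, a ^ 2 = (p : K))
    (hqK : ∃ b : K, b ^ 2 = (q : K)) {A : Matrix (Fin 4) (Fin 4) (𝓞 K)}
    (hA : IsUniversal K 4 A) : False := by
  obtain ⟨a, ha⟩ := hpK
  obtain ⟨b, hb⟩ := hqK
  obtain ⟨F⟩ := exists_fld hp1 hq1 hp hq hpq hK ha hb
  set g := Nat.gcd p q with hg
  have gpos : 0 < g := F.gpos
  set u := p / g with hu
  set v := q / g with hv
  have hpe : p = g * u := (Nat.mul_div_cancel' (Nat.gcd_dvd_left p q)).symm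
  have hqe : q = g * v := (Nat.mul_div_cancel' (Nat.gcd_dvd_right p q)).symm
  have hcop : Nat.Coprime u v := Nat.coprime_div_gcd_div_gcd gpos
  have hgv : Nat.Coprime g v := by
    rw [hqe] at hq
    exact Nat.coprime_of_squarefree_mul hq
  have hs : Squarefree (g * u * v) := by
    rw [Nat.squarefree_mul (Nat.Coprime.mul_left hgv hcop)]
    exact ⟨by rw [← hpe]; exact hp, hq.squarefree_of_dvd ⟨g, by rw [mul_comm]; exact hqe⟩⟩
  have huv1 : 1 < u * v := by
    have hn3 := F.n3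
    have h0 : u * v ≠ 0 := by
      intro h
      rw [mul_assoc, h, mul_zero] at hs
      exact absurd rfl hs.ne_zero
    by_contra h
    have : u * v = 1 := by omega
    exact hn3 ⟨1, by rw [this]⟩
  exact any hs (by rw [← hpe]; exact hp1) (by rw [← hqe]; exact hq1) huv1 hK
    ⟨a, by rw [← hpe]; exact ha⟩ ⟨b, by rw [← hqe]; exact hb⟩ ⟨F.a3, F.sq3⟩ hA

end

end BQN
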