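import Pool.Agent.BQF.Large

/-! Gram determinants of vectors orthogonal to a vector of norm one. -/

namespace BQN

open NumberField BQF Matrix

/-- determinant of the symmetric `4 × 4` matrix with diagonal `a b c d` and upper part
`x12 x13 x14 x23 x24 x34` -/
def gdet {R : Type*} [CommRing R] (a b c d x y u z v w : R) : R :=
  d * (a * (b * c - z * z) + x * (z * y - x * c) + y * (x * z - b * y))
    - (u * u * (b * c - z * z) + v * v * (a * c - y * y) + w * w * (a * b - x * x)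
      + 2 * (u * v * (z * y - x * c)) + 2 * (w * (u * (x * z - b * y) + v * (x * y - a * z))))

theorem det4_sym {R : Type*} [CommRing R] (a b c d x y u z v w : R) :
    (!![a, x, y, u; x, b, z, v; y, z, c, w; u, v, w, d] : Matrix (Fin 4) (Fin 4) R).det
      = gdet a b c d x y u z v w := by
  rw [Matrix.det_succ_row_zero]
  simp [Fin.sum_univ_succ, Matrix.det_fin_three, Matrix.submatrix, Fin.succAbove]
  unfold gdet
  ring

section
variable {K : Type*} [Field K] [NumberField K]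

theorem gram4 {A : Matrix (Fin 4) (Fin 4) (𝓞 K)} (hA : IsUniversal K 4 A)
    {e x1 x2 x3 x4 : Fin 4 → 𝓞 K} (he : bil A e e = 1) (h1 : bil A x1 e = 0)
    (h2 : bil A x2 e = 0) (h3 : bil A x3 e = 0) (h4 : bil A x4 e = 0) :
    gdet ((bil A x1 x1 : 𝓞 K) : K) (bil A x2 x2 : 𝓞 K) (bil A x3 x3 : 𝓞 K)
      (bil A x4 x4 : 𝓞 K) (bil A x1 x2 : 𝓞 K) (bil A x1 x3 : 𝓞 K)
      (bil A x1 x4 : 𝓞 K) (bil A x2 x3 : 𝓞 K) (bil A x2 x4 : 𝓞 K) (bil A x3 x4 : 𝓞 K) = 0 := by
  obtain ⟨c, hc0, hc⟩ := exists_kernel (A := A) ![e, x1, x2, x3, x4]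
  have k0 := hc e
  have k1 := hc x1
  have k2 := hc x2
  have k3 := hc x3
  have k4 := hc x4
  have s21 := bil_comm hA.symm x2 x1
  have s31 := bil_comm hA.symm x3 x1
  have s41 := bil_comm hA.symm x4 x1
  have s32 := bil_comm hA.symm x3 x2
  have s42 := bil_comm hA.symm x4 x2
  have s43 := bil_comm hA.symm x4 x3
  have e1 : bil A e x1 = 0 := by rw [bil_comm hA.symm]; exact h1
  have e2 : bil A e x2 = 0 := by rw [bil_comm hA.symm]; exact h2
  have e3 : bil A e x3 = 0 := by rw [bil_comm hA.symm]; exact h3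
  have e4 : bil A e x4 = 0 := by rw [bil_comm hA.symm]; exact h4
  simp [Fin.sum_univ_five, he, h1, h2, h3, h4, e1, e2, e3, e4, s21, s31, s41, s32, s42, s43]
    at k0 k1 k2 k3 k4
  set G : Matrix (Fin 4) (Fin 4) K :=
    !![((bil A x1 x1 : 𝓞 K) : K), ((bil A x1 x2 : 𝓞 K) : K), ((bil A x1 x3 : 𝓞 K) : K), ((bil A x1 x4 : 𝓞 K) : K);
      ((bil A x1 x2 : 𝓞 K) : K), ((bil A x2 x2 : 𝓞 K) : K), ((bil A x2 x3 : 𝓞 K) : K), ((bil A x2 x4 : 𝓞 K) : K);
      ((bil A x1 x3 : 𝓞 K) : K), ((bil A x2 x3 : 𝓞 K) : K), ((bil A x3 x3 : 𝓞 K) : K), ((bil A x3 x4 : 𝓞 K) : K);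
      ((bil A x1 x4 : 𝓞 K) : K), ((bil A x2 x4 : 𝓞 K) : K), ((bil A x3 x4 : 𝓞 K) : K), ((bil A x4 x4 : 𝓞 K) : K)]
    with hG
  have hdet : G.det = 0 := by
    rw [← Matrix.exists_mulVec_eq_zero_iff]
    refine ⟨![c 1, c 2, c 3, c 4], ?_, ?_⟩
    · intro h0
      apply hc0
      funext i
      fin_cases i
      · exact k0
      · exact congrFun h0 0
      · exact congrFun h0 1
      · exact congrFun h0 2
      · exact congrFun h0 3
    · funext i
      fin_cases i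
      · simp [hG, Matrix.mulVec, dotProduct, Fin.sum_univ_four]
        linear_combination k1
      · simp [hG, Matrix.mulVec, dotProduct, Fin.sum_univ_four]
        linear_combination k2
      · simp [hG, Matrix.mulVec, dotProduct, Fin.sum_univ_four]
        linear_combination k3
      · simp [hG, Matrix.mulVec, dotProduct, Fin.sum_univ_four]
        linear_combination k4
  have hexp : G.det = gdet ((bil A x1 x1 : 𝓞 K) : K) (bil A x2 x2 : 𝓞 K) (bil A x3 x3 : 𝓞 K)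
      (bil A x4 x4 : 𝓞 K) (bil A x1 x2 : 𝓞 K) (bil A x1 x3 : 𝓞 K)
      (bil A x1 x4 : 𝓞 K) (bil A x2 x3 : 𝓞 K) (bil A x2 x4 : 𝓞 K) (bil A x3 x4 : 𝓞 K) := by
    exact det4_sym _ _ _ _ _ _ _ _ _ _
  rw [← hexp]
  exact hdet

end

end BQN
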