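import Pool.Agent.BQN.Final

/-! Adding a square to a form; fewer than four variables. -/

namespace BQN

open NumberField BQF Matrix

section
variable {K : Type*} [Field K] [NumberField K]

/-- `⟨1⟩ ⊥ A` -/
def ext {n : ℕ} (A : Matrix (Fin n) (Fin n) (𝓞 K)) : Matrix (Fin (n + 1)) (Fin (n + 1)) (𝓞 K) :=
  Matrix.of (Fin.cons (Fin.cons 1 fun _ => 0) fun i => Fin.cons 0 fun j => A i j)

omit [NumberField K] in
theorem ext_val {n : ℕ} (A : Matrix (Fin n) (Fin n) (𝓞 K)) (x : Fin (n + 1) → 𝓞 K) :
    bil (ext A) x x = x 0 ^ 2 + bil A (Fin.tail x) (Fin.tail x) := by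
  unfold bil
  simp only [dotProduct, mulVec, Fin.sum_univ_succ, ext, Matrix.of_apply, Fin.cons_zero,
    Fin.cons_succ, Fin.tail]
  simp only [zero_mul, Finset.sum_const_zero, add_zero, one_mul, zero_add]
  ring

theorem ext_universal {n : ℕ} {A : Matrix (Fin n) (Fin n) (𝓞 K)} (hA : IsUniversal K n A) :
    IsUniversal K (n + 1) (ext A) := by
  refine ⟨?_, ?_, ?_⟩
  · have h := hA.symm
    ext i j
    rw [Matrix.transpose_apply]
    refine Fin.cases ?_ (fun i' => ?_) i <;> refine Fin.cases ?_ (fun j' => ?_) j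
    · rfl
    · simp [ext]
    · simp [ext]
    · simp only [ext, Matrix.of_apply, Fin.cons_succ]
      exact congrArg (fun t : 𝓞 K => (t : K)) (congrFun (congrFun h i') j')
  · intro x hx τ
    rw [ext_val]
    push_cast
    rw [map_add, map_pow]
    by_cases ht : Fin.tail x = 0
    · have h0 : x 0 ≠ 0 := by
        intro h0
        apply hx
        funext i
        refine Fin.cases h0 (fun i' => ?_) i
        exact congrFun ht i'
      have h1 : τ ((x 0 : 𝓞 K) : K) ≠ 0 := by
        rw [map_ne_zero]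
        exact_mod_cast h0
      rw [ht]
      rw [bil_zero_left]
      have : 0 < τ ((x 0 : 𝓞 K) : K) ^ 2 := by positivity
      simpa using this
    · have h1 := hA.pos _ ht τ
      have h2 := sq_nonneg (τ ((x 0 : 𝓞 K) : K))
      linarith
  · intro α hα
    obtain ⟨x, hx⟩ := hA.univ α hα
    refine ⟨Fin.cons 0 x, ?_⟩
    rw [ext_val]
    simp [hx]

theorem four_of_le {n : ℕ} (hn : n ≤ 4) {A : Matrix (Fin n) (Fin n) (𝓞 K)}
    (hA : IsUniversal K n A) : ∃ B : Matrix (Fin 4) (Fin 4) (𝓞 K), IsUniversal K 4 B := by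
  have key : ∀ k, ∃ B : Matrix (Fin (n + k)) (Fin (n + k)) (𝓞 K), IsUniversal K (n + k) B := by
    intro k
    induction k with
    | zero => exact ⟨A, hA⟩
    | succ k ih =>
      obtain ⟨B, hB⟩ := ih
      exact ⟨ext B, ext_universal hB⟩
  have h := key (4 - n)
  have e : n + (4 - n) = 4 := by omega
  rw [e] at h
  exact h

end

end BQN
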