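import Pool.Agent.BQN.Typ

/-! Small Diophantine facts used for the planes over the subfield. -/

namespace BQN

theorem sq_le_abs {y B : ℤ} (h : y ^ 2 < (B + 1) ^ 2) (hB : 0 ≤ B) : -B ≤ y ∧ y ≤ B := by
  constructor <;> nlinarith

theorem even_of_par {m : ℕ} (hm : m % 4 ≠ 0) (h1 : m % 4 ≠ 1) {p q : ℤ}
    (h : (4 : ℤ) ∣ p ^ 2 - (m : ℤ) * q ^ 2) : ∃ a b : ℤ, p = 2 * a ∧ q = 2 * b := by
  obtain ⟨⟨a, ha⟩, ⟨b, hb⟩⟩ := (par1 hm h).2 h1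
  exact ⟨a, b, ha, hb⟩

theorem even_of_sq {p : ℤ} (h : (4 : ℤ) ∣ p ^ 2) : ∃ a : ℤ, p = 2 * a := by
  rcases Int.even_or_odd' p with ⟨a, ha | ha⟩
  · exact ⟨a, ha⟩
  · exfalso
    rw [ha] at h
    obtain ⟨k, hk⟩ := h
    have : 4 * (a ^ 2 + a - k) = -1 := by linear_combination hk
    omega

/-- `b² ≼ 2` -/
theorem ntA {m : ℕ} (h4 : m % 4 ≠ 0) (h6 : 6 ≤ m) {p q : ℤ} (h1 : p ^ 2 + m * q ^ 2 ≤ 8)
    (h2 : (4 : ℤ) ∣ p ^ 2 - m * q ^ 2) : q = 0 ∧ (p = 0 ∨ p = 2 ∨ p = -2) := by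
  have hm : (6 : ℤ) ≤ m := by exact_mod_cast h6
  have hq : -1 ≤ q ∧ q ≤ 1 := sq_le_abs (by nlinarith [sq_nonneg p]) (by norm_num)
  have hq0 : q = 0 := by
    by_contra hne
    have hq2 : q ^ 2 = 1 := by
      obtain ⟨h3, h5⟩ := hq
      interval_cases q
      · norm_num
      · exact absurd rfl hne
      · norm_num
    rw [hq2] at h1 h2
    have hm8 : (m : ℤ) ≤ 8 := by nlinarith [sq_nonneg p]
    have hp : -1 ≤ p ∧ p ≤ 1 := sq_le_abs (by nlinarith) (by norm_num)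
    obtain ⟨h3, h5⟩ := hp
    obtain ⟨k, hk⟩ := h2
    interval_cases p <;> omega
  refine ⟨hq0, ?_⟩
  rw [hq0] at h1 h2
  have h1' : p ^ 2 ≤ 8 := by linarith
  have hp : -2 ≤ p ∧ p ≤ 2 := sq_le_abs (by linarith) (by norm_num)
  obtain ⟨a, ha⟩ := even_of_sq (p := p) (by simpa using h2)
  obtain ⟨h3, h5⟩ := hp
  omega

theorem ntB {m : ℕ} (h4 : m % 4 ≠ 0) (h6 : 6 ≤ m) (h10 : m ≠ 10) {p q r t : ℤ}
    (h1 : r ^ 2 + m * t ^ 2 + 2 * p ^ 2 + 2 * m * q ^ 2 = 40) (h2 : r * t + 2 * (p * q) = 0)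
    (h3 : (4 : ℤ) ∣ p ^ 2 - m * q ^ 2) (h5 : (4 : ℤ) ∣ r ^ 2 - m * t ^ 2) : False := by
  have hm : (6 : ℤ) ≤ m := by exact_mod_cast h6
  by_cases hm1 : m % 4 = 1
  · have hm9 : (9 : ℤ) ≤ m := by
      have : 9 ≤ m := by omega
      exact_mod_cast this
    have hq : -1 ≤ q ∧ q ≤ 1 := sq_le_abs (by nlinarith [sq_nonneg p, sq_nonneg r, sq_nonneg t]) (by norm_num)
    have ht : -2 ≤ t ∧ t ≤ 2 := sq_le_abs (by nlinarith [sq_nonneg p, sq_nonneg r, sq_nonneg q]) (by norm_num)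
    have hp : -4 ≤ p ∧ p ≤ 4 := sq_le_abs (by nlinarith [sq_nonneg t, sq_nonneg r, sq_nonneg q]) (by norm_num)
    have hr : -6 ≤ r ∧ r ≤ 6 := sq_le_abs (by nlinarith [sq_nonneg t, sq_nonneg p, sq_nonneg q]) (by norm_num)
    obtain ⟨a1, a2⟩ := hq
    obtain ⟨b1, b2⟩ := ht
    obtain ⟨c1, c2⟩ := hp
    obtain ⟨d1, d2⟩ := hr
    obtain ⟨k, hk⟩ := h3
    obtain ⟨l, hl⟩ := h5
    interval_cases q <;> interval_cases t <;> interval_cases p <;> first | omega | (interval_cases r <;> omega)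
  · obtain ⟨p', q', rfl, rfl⟩ := even_of_par h4 hm1 h3
    obtain ⟨r', t', rfl, rfl⟩ := even_of_par h4 hm1 h5
    have e1 : r' ^ 2 + m * t' ^ 2 + 2 * p' ^ 2 + 2 * m * q' ^ 2 = 10 := by linarith
    have e2 : r' * t' + 2 * (p' * q') = 0 := by linarith
    have hq : -0 ≤ q' ∧ q' ≤ 0 := sq_le_abs (by nlinarith [sq_nonneg p', sq_nonneg r', sq_nonneg t']) (by norm_num)
    have hq0 : q' = 0 := by omega
    subst hq0
    have ht : -1 ≤ t' ∧ t' ≤ 1 := sq_le_abs (by nlinarith [sq_nonneg p', sq_nonneg r']) (by norm_num)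
    have hp : -2 ≤ p' ∧ p' ≤ 2 := sq_le_abs (by nlinarith [sq_nonneg t', sq_nonneg r']) (by norm_num)
    have hr : -3 ≤ r' ∧ r' ≤ 3 := sq_le_abs (by nlinarith [sq_nonneg t', sq_nonneg p']) (by norm_num)
    obtain ⟨b1, b2⟩ := ht
    obtain ⟨c1, c2⟩ := hp
    obtain ⟨d1, d2⟩ := hr
    interval_cases t' <;> interval_cases p' <;> interval_cases r' <;> omega

theorem ntC {m : ℕ} (h4 : m % 4 ≠ 0) (h6 : 6 ≤ m) {p q r t : ℤ}
    (h1 : r ^ 2 + m * t ^ 2 + p ^ 2 + m * q ^ 2 = 12)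
    (h3 : (4 : ℤ) ∣ p ^ 2 - m * q ^ 2) (h5 : (4 : ℤ) ∣ r ^ 2 - m * t ^ 2) : False := by
  have hm : (6 : ℤ) ≤ m := by exact_mod_cast h6
  by_cases hm1 : m % 4 = 1
  · have hm9 : (9 : ℤ) ≤ m := by
      have : 9 ≤ m := by omega
      exact_mod_cast this
    have hq : -1 ≤ q ∧ q ≤ 1 := sq_le_abs (by nlinarith [sq_nonneg p, sq_nonneg r, sq_nonneg t]) (by norm_num)
    have ht : -1 ≤ t ∧ t ≤ 1 := sq_le_abs (by nlinarith [sq_nonneg p, sq_nonneg r, sq_nonneg q]) (by norm_num)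
    have hp : -3 ≤ p ∧ p ≤ 3 := sq_le_abs (by nlinarith [sq_nonneg t, sq_nonneg r, sq_nonneg q]) (by norm_num)
    have hr : -3 ≤ r ∧ r ≤ 3 := sq_le_abs (by nlinarith [sq_nonneg t, sq_nonneg p, sq_nonneg q]) (by norm_num)
    obtain ⟨a1, a2⟩ := hq
    obtain ⟨b1, b2⟩ := ht
    obtain ⟨c1, c2⟩ := hp
    obtain ⟨d1, d2⟩ := hr
    obtain ⟨k, hk⟩ := h3
    obtain ⟨l, hl⟩ := h5
    interval_cases q <;> interval_cases t <;> interval_cases p <;> first | omega | (interval_cases r <;> omega)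
  · obtain ⟨p', q', rfl, rfl⟩ := even_of_par h4 hm1 h3
    obtain ⟨r', t', rfl, rfl⟩ := even_of_par h4 hm1 h5
    have e1 : r' ^ 2 + m * t' ^ 2 + p' ^ 2 + m * q' ^ 2 = 3 := by linarith
    have hq : -0 ≤ q' ∧ q' ≤ 0 := sq_le_abs (by nlinarith [sq_nonneg p', sq_nonneg r', sq_nonneg t']) (by norm_num)
    have hq0 : q' = 0 := by omega
    have ht : -0 ≤ t' ∧ t' ≤ 0 := sq_le_abs (by nlinarith [sq_nonneg p', sq_nonneg r', sq_nonneg q']) (by norm_num)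
    have ht0 : t' = 0 := by omega
    subst hq0 ht0
    have hp : -1 ≤ p' ∧ p' ≤ 1 := sq_le_abs (by nlinarith [sq_nonneg r']) (by norm_num)
    have hr : -1 ≤ r' ∧ r' ≤ 1 := sq_le_abs (by nlinarith [sq_nonneg p']) (by norm_num)
    obtain ⟨c1, c2⟩ := hp
    obtain ⟨d1, d2⟩ := hr
    interval_cases p' <;> interval_cases r' <;> omega

theorem ntD {p q r t : ℤ} (h1 : r ^ 2 + 10 * t ^ 2 + 2 * p ^ 2 + 20 * q ^ 2 = 56)
    (h2 : r * t + 2 * (p * q) = 0)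
    (h3 : (4 : ℤ) ∣ p ^ 2 - (10 : ℕ) * q ^ 2) (h5 : (4 : ℤ) ∣ r ^ 2 - (10 : ℕ) * t ^ 2) : False := by
  obtain ⟨p', q', rfl, rfl⟩ := even_of_par (m := 10) (by norm_num) (by norm_num) h3
  obtain ⟨r', t', rfl, rfl⟩ := even_of_par (m := 10) (by norm_num) (by norm_num) h5
  have e1 : r' ^ 2 + 10 * t' ^ 2 + 2 * p' ^ 2 + 20 * q' ^ 2 = 14 := by linarith
  have e2 : r' * t' + 2 * (p' * q') = 0 := by linarith
  have hq : -0 ≤ q' ∧ q' ≤ 0 := sq_le_abs (by nlinarith [sq_nonneg p', sq_nonneg r', sq_nonneg t']) (by norm_num)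
  have hq0 : q' = 0 := by omega
  subst hq0
  have ht : -1 ≤ t' ∧ t' ≤ 1 := sq_le_abs (by nlinarith [sq_nonneg p', sq_nonneg r']) (by norm_num)
  have hp : -2 ≤ p' ∧ p' ≤ 2 := sq_le_abs (by nlinarith [sq_nonneg t', sq_nonneg r']) (by norm_num)
  have hr : -3 ≤ r' ∧ r' ≤ 3 := sq_le_abs (by nlinarith [sq_nonneg t', sq_nonneg p']) (by norm_num)
  obtain ⟨b1, b2⟩ := ht
  obtain ⟨c1, c2⟩ := hp
  obtain ⟨d1, d2⟩ := hr
  interval_cases t' <;> interval_cases p' <;> interval_cases r' <;> omega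

theorem ntF {p q r t : ℤ} (h1 : r ^ 2 + 5 * t ^ 2 + 2 * p ^ 2 + 10 * q ^ 2 = 20)
    (h2 : r * t + 2 * (p * q) = 2) : False := by
  have hq : -1 ≤ q ∧ q ≤ 1 := sq_le_abs (by nlinarith [sq_nonneg p, sq_nonneg r, sq_nonneg t]) (by norm_num)
  have ht : -2 ≤ t ∧ t ≤ 2 := sq_le_abs (by nlinarith [sq_nonneg p, sq_nonneg r, sq_nonneg q]) (by norm_num)
  have hp : -3 ≤ p ∧ p ≤ 3 := sq_le_abs (by nlinarith [sq_nonneg t, sq_nonneg r, sq_nonneg q]) (by norm_num)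
  have hr : -4 ≤ r ∧ r ≤ 4 := sq_le_abs (by nlinarith [sq_nonneg t, sq_nonneg p, sq_nonneg q]) (by norm_num)
  obtain ⟨a1, a2⟩ := hq
  obtain ⟨b1, b2⟩ := ht
  obtain ⟨c1, c2⟩ := hp
  obtain ⟨d1, d2⟩ := hr
  interval_cases q <;> interval_cases t <;> interval_cases p <;> first | omega | (interval_cases r <;> omega)

theorem ntG {p q r t : ℤ} (h1 : r ^ 2 + 5 * t ^ 2 + p ^ 2 + 5 * q ^ 2 = 14)
    (h2 : r * t + p * q = 1) : False := by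
  have hq : -1 ≤ q ∧ q ≤ 1 := sq_le_abs (by nlinarith [sq_nonneg p, sq_nonneg r, sq_nonneg t]) (by norm_num)
  have ht : -1 ≤ t ∧ t ≤ 1 := sq_le_abs (by nlinarith [sq_nonneg p, sq_nonneg r, sq_nonneg q]) (by norm_num)
  have hp : -3 ≤ p ∧ p ≤ 3 := sq_le_abs (by nlinarith [sq_nonneg t, sq_nonneg r, sq_nonneg q]) (by norm_num)
  have hr : -3 ≤ r ∧ r ≤ 3 := sq_le_abs (by nlinarith [sq_nonneg t, sq_nonneg p, sq_nonneg q]) (by norm_num)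
  obtain ⟨a1, a2⟩ := hq
  obtain ⟨b1, b2⟩ := ht
  obtain ⟨c1, c2⟩ := hp
  obtain ⟨d1, d2⟩ := hr
  interval_cases q <;> interval_cases t <;> interval_cases p <;> first | omega | (interval_cases r <;> omega)

/-- `(2 + √2)(3 - b²) = c²` -/
theorem ntH {p q r t : ℤ} (h1 : r ^ 2 + 2 * t ^ 2 = 2 * (3 - p ^ 2 - 2 * q ^ 2) + 2 * (-2 * p * q))
    (h2 : 2 * (r * t) = (3 - p ^ 2 - 2 * q ^ 2) + 2 * (-2 * p * q)) : False := by
  have hq : -1 ≤ q ∧ q ≤ 1 := sq_le_abs (by nlinarith [sq_nonneg (p + q), sq_nonneg r, sq_nonneg t]) (by norm_num)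
  have ht : -1 ≤ t ∧ t ≤ 1 := sq_le_abs (by nlinarith [sq_nonneg (p + q), sq_nonneg r, sq_nonneg q]) (by norm_num)
  have hp : -1 ≤ p + q ∧ p + q ≤ 1 := sq_le_abs (by nlinarith [sq_nonneg t, sq_nonneg r, sq_nonneg q]) (by norm_num)
  have hr : -2 ≤ r ∧ r ≤ 2 := sq_le_abs (by nlinarith [sq_nonneg t, sq_nonneg (p + q), sq_nonneg q]) (by norm_num)
  obtain ⟨a1, a2⟩ := hq
  obtain ⟨b1, b2⟩ := ht
  obtain ⟨c1, c2⟩ := hp
  obtain ⟨d1, d2⟩ := hr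
  have c3 : -2 ≤ p := by omega
  have c4 : p ≤ 2 := by omega
  interval_cases q <;> interval_cases t <;> interval_cases p <;> first | omega | (interval_cases r <;> omega)

/-- `(2 + √3)(4 - √3 - b²) = c²` -/
theorem ntI {p q r t : ℤ} (h1 : r ^ 2 + 3 * t ^ 2 = 2 * (4 - p ^ 2 - 3 * q ^ 2) + 3 * (-1 - 2 * p * q))
    (h2 : 2 * (r * t) = (4 - p ^ 2 - 3 * q ^ 2) + 2 * (-1 - 2 * p * q)) : False := by
  have hq : -1 ≤ q ∧ q ≤ 1 := sq_le_abs (by nlinarith [sq_nonneg (2 * p + 3 * q), sq_nonneg r, sq_nonneg t]) (by norm_num)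
  have ht : -1 ≤ t ∧ t ≤ 1 := sq_le_abs (by nlinarith [sq_nonneg (2 * p + 3 * q), sq_nonneg r, sq_nonneg q]) (by norm_num)
  have hp : -3 ≤ 2 * p + 3 * q ∧ 2 * p + 3 * q ≤ 3 := sq_le_abs (by nlinarith [sq_nonneg t, sq_nonneg r, sq_nonneg q]) (by norm_num)
  have hr : -2 ≤ r ∧ r ≤ 2 := sq_le_abs (by nlinarith [sq_nonneg t, sq_nonneg (2 * p + 3 * q), sq_nonneg q]) (by norm_num)
  obtain ⟨a1, a2⟩ := hq
  obtain ⟨b1, b2⟩ := ht
  obtain ⟨c1, c2⟩ := hp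
  obtain ⟨d1, d2⟩ := hr
  have c3 : -3 ≤ p := by omega
  have c4 : p ≤ 3 := by omega
  interval_cases q <;> interval_cases t <;> interval_cases p <;> first | omega | (interval_cases r <;> omega)

/-- `k² = s` in the subfield -/
theorem ntS {m s : ℕ} (hm : Squarefree m) (hm1 : m ≠ 1) (hs : (s = 2 ∧ m ≠ 2) ∨ (s = 3 ∧ m = 2))
    {p q : ℤ} (h1 : p ^ 2 + m * q ^ 2 = 4 * s) (h2 : p * q = 0) : False := by
  rcases mul_eq_zero.mp h2 with h | h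
  · subst h
    rcases hs with ⟨rfl, h2'⟩ | ⟨rfl, rfl⟩
    · have h3 : (m : ℤ) * q ^ 2 = 8 := by push_cast at h1; linarith
      have hm0 : (1 : ℤ) ≤ m := by
        have : m ≠ 0 := hm.ne_zero
        have : 1 ≤ m := by omega
        exact_mod_cast this
      have hq : -2 ≤ q ∧ q ≤ 2 := sq_le_abs (by nlinarith) (by norm_num)
      obtain ⟨a1, a2⟩ := hq
      have h8 : m ≠ 8 := by
        rintro rfl
        have := hm 2 ⟨2, by norm_num⟩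
        rw [Nat.isUnit_iff] at this
        omega
      interval_cases q <;> omega
    · have h3 : (2 : ℤ) * q ^ 2 = 12 := by push_cast at h1; linarith
      have hq : -2 ≤ q ∧ q ≤ 2 := sq_le_abs (by nlinarith) (by norm_num)
      obtain ⟨a1, a2⟩ := hq
      interval_cases q <;> omega
  · subst h
    have h3 : p ^ 2 = 4 * s := by linarith
    rcases hs with ⟨rfl, h2'⟩ | ⟨rfl, rfl⟩
    · have hq : -3 ≤ p ∧ p ≤ 3 := sq_le_abs (by push_cast at h3; nlinarith) (by norm_num)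
      obtain ⟨a1, a2⟩ := hq
      interval_cases p <;> omega
    · have hq : -4 ≤ p ∧ p ≤ 4 := sq_le_abs (by push_cast at h3; nlinarith) (by norm_num)
      obtain ⟨a1, a2⟩ := hq
      interval_cases p <;> omega

end BQN
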