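import Pool.Agent.BQF.Form

/-! Integrality conditions on the quarter coordinates of an algebraic integer of a biquadratic
field, and the resulting parities. The three radicands are `g u`, `g v`, `u v`. -/

namespace BQN

open NumberField BQF

/-- integrality in a real quadratic field -/
theorem quad_int {m : ℕ} (hm : Squarefree m) {x y : ℚ} {a b : ℝ}
    (h1 : IsIntegral ℤ a) (ha : a = (x : ℝ) + y * √(m : ℝ)) (h2 : IsIntegral ℤ b)
    (hb : b = (x : ℝ) - y * √(m : ℝ)) :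
    ∃ p q : ℤ, 2 * x = p ∧ 2 * y = q ∧ (4 : ℤ) ∣ p ^ 2 - m * q ^ 2 := by
  subst ha hb
  obtain ⟨p, hp⟩ := int_of_integral_rat (h1.add h2) (r := 2 * x) (by push_cast; ring)
  obtain ⟨q, hq⟩ := int_of_integral_sqrt (t := 2 * y) hm (by
    have h := h1.sub h2
    have e : (x : ℝ) + y * √(m : ℝ) - (x - y * √(m : ℝ)) = ((2 * y : ℚ) : ℝ) * √(m : ℝ) := by
      push_cast; ring
    rw [e] at h
    exact h)
  have hs : √(m : ℝ) ^ 2 = m := Real.sq_sqrt (by positivity)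
  obtain ⟨n, hn⟩ := int_of_integral_rat (h1.mul h2) (r := x ^ 2 - m * y ^ 2) (by
    push_cast
    linear_combination (-(y : ℝ) ^ 2) * hs)
  refine ⟨p, q, hp, hq, n, ?_⟩
  have h : ((p : ℚ)) ^ 2 - m * (q : ℚ) ^ 2 = 4 * n := by
    rw [← hp, ← hq, ← hn]; ring
  exact_mod_cast h

/-- the divisibility conditions satisfied by the coordinates of an algebraic integer -/
structure IntX (g u v : ℕ) (X0 X1 X2 X3 : ℤ) : Prop where
  t1 : (4 : ℤ) ∣ X0 ^ 2 - (g * u : ℕ) * X1 ^ 2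
  t2 : (4 : ℤ) ∣ X0 ^ 2 - (g * v : ℕ) * X2 ^ 2
  t3 : (4 : ℤ) ∣ X0 ^ 2 - (u * v : ℕ) * X3 ^ 2
  n1 : ∃ p q : ℤ, X0 ^ 2 + (g * u : ℕ) * X1 ^ 2 - (g * v : ℕ) * X2 ^ 2 - (u * v : ℕ) * X3 ^ 2 = 8 * p
    ∧ 2 * (X0 * X1 - v * X2 * X3) = 8 * q ∧ (4 : ℤ) ∣ p ^ 2 - (g * u : ℕ) * q ^ 2
  n2 : ∃ p q : ℤ, X0 ^ 2 + (g * v : ℕ) * X2 ^ 2 - (g * u : ℕ) * X1 ^ 2 - (u * v : ℕ) * X3 ^ 2 = 8 * p
    ∧ 2 * (X0 * X2 - u * X1 * X3) = 8 * q ∧ (4 : ℤ) ∣ p ^ 2 - (g * v : ℕ) * q ^ 2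
  n3 : ∃ p q : ℤ, X0 ^ 2 + (u * v : ℕ) * X3 ^ 2 - (g * u : ℕ) * X1 ^ 2 - (g * v : ℕ) * X2 ^ 2 = 8 * p
    ∧ 2 * (X0 * X3 - g * X1 * X2) = 8 * q ∧ (4 : ℤ) ∣ p ^ 2 - (u * v : ℕ) * q ^ 2

section
variable {K : Type*} [Field K] [NumberField K] {g u v : ℕ}

theorem sqf1 (h : Squarefree (g * u * v)) : Squarefree (g * u) :=
  h.squarefree_of_dvd (Dvd.intro _ rfl)

theorem sqf2 (h : Squarefree (g * u * v)) : Squarefree (g * v) :=
  h.squarefree_of_dvd ⟨u, by ring⟩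

theorem sqf3 (h : Squarefree (g * u * v)) : Squarefree (u * v) :=
  h.squarefree_of_dvd ⟨g, by ring⟩

theorem sqrt_mul' (a b c : ℕ) : √((a * b : ℕ) : ℝ) * √((a * c : ℕ) : ℝ) = a * √((b * c : ℕ) : ℝ) := by
  rw [← Real.sqrt_mul (by positivity)]
  have : ((a * b : ℕ) : ℝ) * ((a * c : ℕ) : ℝ) = (a * √((b * c : ℕ) : ℝ)) ^ 2 := by
    rw [mul_pow, Real.sq_sqrt (by positivity)]
    push_cast
    ring
  rw [this, Real.sqrt_sq (by positivity)]

omit [NumberField K] in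
theorem int_emb (x : 𝓞 K) (τ : K →+* ℝ) : IsIntegral ℤ (τ (x : K)) :=
  x.isIntegral_coe.map τ.toIntAlgHom

theorem intX (F : Fld K (g * u) (g * v) (u * v) g) (hs : Squarefree (g * u * v)) (x : 𝓞 K) :
    ∃ X0 X1 X2 X3 : ℤ, 4 * (x : K) = X0 + X1 * F.a1 + X2 * F.a2 + X3 * F.a3 ∧
      IntX g u v X0 X1 X2 X3 := by
  obtain ⟨X0, X1, X2, X3, hX⟩ := F.coord x
  refine ⟨X0, X1, X2, X3, hX, ?_⟩
  have hr : ∀ i j, 4 * F.s i j (x : K) = X0 + X1 * (sg i * √((g * u : ℕ) : ℝ))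
      + X2 * (sg j * √((g * v : ℕ) : ℝ)) + X3 * (sg i * sg j * √((u * v : ℕ) : ℝ)) := by
    intro i j
    have h2 := congrArg (F.s i j) hX
    simp only [map_add, map_mul, map_intCast, map_ofNat, F.s1, F.s2, F.s3] at h2
    exact h2
  have tt := hr true true
  have tf := hr true false
  have ft := hr false true
  have ff := hr false false
  simp only [sg_true, sg_false] at tt tf ft ff
  have itt := int_emb x (F.s true true)
  have itf := int_emb x (F.s true false)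
  have ift := int_emb x (F.s false true)
  have iff' := int_emb x (F.s false false)
  have m12 := sqrt_mul' g u v
  have m13 : √((g * u : ℕ) : ℝ) * √((u * v : ℕ) : ℝ) = u * √((g * v : ℕ) : ℝ) := by
    have := sqrt_mul' u g v
    rw [mul_comm u g] at this
    exact this
  have m23 : √((g * v : ℕ) : ℝ) * √((u * v : ℕ) : ℝ) = v * √((g * u : ℕ) : ℝ) := by
    have := sqrt_mul' v g u
    rw [mul_comm v g, mul_comm v u] at this
    exact this
  have q1 : √((g * u : ℕ) : ℝ) ^ 2 = ((g * u : ℕ) : ℝ) := Real.sq_sqrt (by positivity)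
  have q2 : √((g * v : ℕ) : ℝ) ^ 2 = ((g * v : ℕ) : ℝ) := Real.sq_sqrt (by positivity)
  have q3 : √((u * v : ℕ) : ℝ) ^ 2 = ((u * v : ℕ) : ℝ) := Real.sq_sqrt (by positivity)
  have ett : F.s true true (x : K) = (X0 + X1 * (√((g * u : ℕ) : ℝ)) + X2 * (√((g * v : ℕ) : ℝ))
    + X3 * (√((u * v : ℕ) : ℝ))) / 4 := by linarith
  have etf : F.s true false (x : K) = (X0 + X1 * (√((g * u : ℕ) : ℝ)) - X2 * (√((g * v : ℕ) : ℝ))
    - X3 * (√((u * v : ℕ) : ℝ))) / 4 := by linarith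
  have eft : F.s false true (x : K) = (X0 - X1 * (√((g * u : ℕ) : ℝ)) + X2 * (√((g * v : ℕ) : ℝ))
    - X3 * (√((u * v : ℕ) : ℝ))) / 4 := by linarith
  have eff : F.s false false (x : K) = (X0 - X1 * (√((g * u : ℕ) : ℝ)) - X2 * (√((g * v : ℕ) : ℝ))
    + X3 * (√((u * v : ℕ) : ℝ))) / 4 := by linarith
  clear hr tt tf ft ff
  set r1 := √((g * u : ℕ) : ℝ) with hr1
  set r2 := √((g * v : ℕ) : ℝ) with hr2
  set r3 := √((u * v : ℕ) : ℝ) with hr3
  constructor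
  · obtain ⟨p, q, hp, hq, hd⟩ := quad_int (m := g * u) (x := (X0 : ℚ) / 2) (y := (X1 : ℚ) / 2)
      (sqf1 hs) (itt.add itf) (by
        rw [ett, etf, ← hr1]
        push_cast
        ring) (ift.add iff') (by
        rw [eft, eff, ← hr1]
        push_cast
        ring)
    have e1 : X0 = p := by
      have : (2 : ℚ) * (X0 / 2) = X0 := by ring
      rw [this] at hp
      exact_mod_cast hp
    have e2 : X1 = q := by
      have : (2 : ℚ) * (X1 / 2) = X1 := by ring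
      rw [this] at hq
      exact_mod_cast hq
    rw [e1, e2]
    exact hd
  · obtain ⟨p, q, hp, hq, hd⟩ := quad_int (m := g * v) (x := (X0 : ℚ) / 2) (y := (X2 : ℚ) / 2)
      (sqf2 hs) (itt.add ift) (by
        rw [ett, eft, ← hr2]
        push_cast
        ring) (itf.add iff') (by
        rw [etf, eff, ← hr2]
        push_cast
        ring)
    have e1 : X0 = p := by
      have : (2 : ℚ) * (X0 / 2) = X0 := by ring
      rw [this] at hp
      exact_mod_cast hp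
    have e2 : X2 = q := by
      have : (2 : ℚ) * (X2 / 2) = X2 := by ring
      rw [this] at hq
      exact_mod_cast hq
    rw [e1, e2]
    exact hd
  · obtain ⟨p, q, hp, hq, hd⟩ := quad_int (m := u * v) (x := (X0 : ℚ) / 2) (y := (X3 : ℚ) / 2)
      (sqf3 hs) (itt.add iff') (by
        rw [ett, eff, ← hr3]
        push_cast
        ring) (itf.add ift) (by
        rw [etf, eft, ← hr3]
        push_cast
        ring)
    have e1 : X0 = p := by
      have : (2 : ℚ) * (X0 / 2) = X0 := by ring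
      rw [this] at hp
      exact_mod_cast hp
    have e2 : X3 = q := by
      have : (2 : ℚ) * (X3 / 2) = X3 := by ring
      rw [this] at hq
      exact_mod_cast hq
    rw [e1, e2]
    exact hd
  · obtain ⟨p, q, hp, hq, hd⟩ := quad_int (m := g * u)
      (x := ((X0 ^ 2 + (g * u : ℕ) * X1 ^ 2 - (g * v : ℕ) * X2 ^ 2 - (u * v : ℕ) * X3 ^ 2 : ℤ) : ℚ) / 16)
      (y := ((2 * (X0 * X1 - v * X2 * X3) : ℤ) : ℚ) / 16)
      (sqf1 hs) (itt.mul itf) (by
        rw [ett, etf, ← hr1]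
        push_cast at q1 q2 q3 ⊢
        linear_combination ((X1 : ℝ) ^ 2 / 16) * q1 - ((X2 : ℝ) ^ 2 / 16) * q2
          - ((X3 : ℝ) ^ 2 / 16) * q3 - ((X2 : ℝ) * X3 / 8) * m23) (ift.mul iff') (by
        rw [eft, eff, ← hr1]
        push_cast at q1 q2 q3 ⊢
        linear_combination ((X1 : ℝ) ^ 2 / 16) * q1 - ((X2 : ℝ) ^ 2 / 16) * q2
          - ((X3 : ℝ) ^ 2 / 16) * q3 + ((X2 : ℝ) * X3 / 8) * m23)
    refine ⟨p, q, ?_, ?_, hd⟩
    · have : (((X0 ^ 2 + (g * u : ℕ) * X1 ^ 2 - (g * v : ℕ) * X2 ^ 2 - (u * v : ℕ) * X3 ^ 2 : ℤ)) : ℚ)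
        = ((8 * p : ℤ) : ℚ) := by
        push_cast
        push_cast at hp
        linear_combination 8 * hp
      exact_mod_cast this
    · have : ((2 * (X0 * X1 - v * X2 * X3) : ℤ) : ℚ) = ((8 * q : ℤ) : ℚ) := by
        push_cast
        push_cast at hq
        linear_combination 8 * hq
      exact_mod_cast this
  · obtain ⟨p, q, hp, hq, hd⟩ := quad_int (m := g * v)
      (x := ((X0 ^ 2 + (g * v : ℕ) * X2 ^ 2 - (g * u : ℕ) * X1 ^ 2 - (u * v : ℕ) * X3 ^ 2 : ℤ) : ℚ) / 16)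
      (y := ((2 * (X0 * X2 - u * X1 * X3) : ℤ) : ℚ) / 16)
      (sqf2 hs) (itt.mul ift) (by
        rw [ett, eft, ← hr2]
        push_cast at q1 q2 q3 ⊢
        linear_combination ((X2 : ℝ) ^ 2 / 16) * q2 - ((X1 : ℝ) ^ 2 / 16) * q1
          - ((X3 : ℝ) ^ 2 / 16) * q3 - ((X1 : ℝ) * X3 / 8) * m13) (itf.mul iff') (by
        rw [etf, eff, ← hr2]
        push_cast at q1 q2 q3 ⊢
        linear_combination ((X2 : ℝ) ^ 2 / 16) * q2 - ((X1 : ℝ) ^ 2 / 16) * q1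
          - ((X3 : ℝ) ^ 2 / 16) * q3 + ((X1 : ℝ) * X3 / 8) * m13)
    refine ⟨p, q, ?_, ?_, hd⟩
    · have : (((X0 ^ 2 + (g * v : ℕ) * X2 ^ 2 - (g * u : ℕ) * X1 ^ 2 - (u * v : ℕ) * X3 ^ 2 : ℤ)) : ℚ)
        = ((8 * p : ℤ) : ℚ) := by
        push_cast
        push_cast at hp
        linear_combination 8 * hp
      exact_mod_cast this
    · have : ((2 * (X0 * X2 - u * X1 * X3) : ℤ) : ℚ) = ((8 * q : ℤ) : ℚ) := by
        push_cast
        push_cast at hq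
        linear_combination 8 * hq
      exact_mod_cast this
  · obtain ⟨p, q, hp, hq, hd⟩ := quad_int (m := u * v)
      (x := ((X0 ^ 2 + (u * v : ℕ) * X3 ^ 2 - (g * u : ℕ) * X1 ^ 2 - (g * v : ℕ) * X2 ^ 2 : ℤ) : ℚ) / 16)
      (y := ((2 * (X0 * X3 - g * X1 * X2) : ℤ) : ℚ) / 16)
      (sqf3 hs) (itt.mul iff') (by
        rw [ett, eff, ← hr3]
        push_cast at q1 q2 q3 ⊢
        linear_combination ((X3 : ℝ) ^ 2 / 16) * q3 - ((X1 : ℝ) ^ 2 / 16) * q1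
          - ((X2 : ℝ) ^ 2 / 16) * q2 - ((X1 : ℝ) * X2 / 8) * m12) (itf.mul ift) (by
        rw [etf, eft, ← hr3]
        push_cast at q1 q2 q3 ⊢
        linear_combination ((X3 : ℝ) ^ 2 / 16) * q3 - ((X1 : ℝ) ^ 2 / 16) * q1
          - ((X2 : ℝ) ^ 2 / 16) * q2 + ((X1 : ℝ) * X2 / 8) * m12)
    refine ⟨p, q, ?_, ?_, hd⟩
    · have : (((X0 ^ 2 + (u * v : ℕ) * X3 ^ 2 - (g * u : ℕ) * X1 ^ 2 - (g * v : ℕ) * X2 ^ 2 : ℤ)) : ℚ)
        = ((8 * p : ℤ) : ℚ) := by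
        push_cast
        push_cast at hp
        linear_combination 8 * hp
      exact_mod_cast this
    · have : ((2 * (X0 * X3 - g * X1 * X2) : ℤ) : ℚ) = ((8 * q : ℤ) : ℚ) := by
        push_cast
        push_cast at hq
        linear_combination 8 * hq
      exact_mod_cast this

end

end BQN
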