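import Pool.Agent.BQN.Core

/-! Two independent vectors over the subfield `ℚ(√m1)`. -/

namespace BQN

open NumberField BQF Matrix

/-- bound for the norms of the two vectors -/
def NN (m : ℕ) : ℕ := if m = 2 then 4 else if m = 3 then 6 else if m = 10 then 7 else 5

/-- a small integer that is not a square in `ℚ(√m)` -/
def SS (m : ℕ) : ℕ := if m = 2 then 3 else 2

section
variable {K : Type*} [Field K] [NumberField K] {g u v : ℕ}

theorem inF_coord (F : Fld K (g * u) (g * v) (u * v) g) (hs : Squarefree (g * u * v))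
    {b : 𝓞 K} (hb : InF F (b : K)) : ∃ p q : ℤ, 2 * (b : K) = p + q * F.a1 ∧
      (4 : ℤ) ∣ p ^ 2 - (g * u : ℕ) * q ^ 2 := by
  obtain ⟨X0, X1, X2, X3, hX⟩ := F.coord b
  have hr : ∀ i j, 4 * F.s i j (b : K) = X0 + X1 * (sg i * √((g * u : ℕ) : ℝ))
      + X2 * (sg j * √((g * v : ℕ) : ℝ)) + X3 * (sg i * sg j * √((u * v : ℕ) : ℝ)) := by
    intro i j
    have h2 := congrArg (F.s i j) hX
    simp only [map_add, map_mul, map_intCast, map_ofNat, F.s1, F.s2, F.s3] at h2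
    exact h2
  have tt := hr true true
  have tf := hr true false
  have ft := hr false true
  have ff := hr false false
  simp only [sg_true, sg_false] at tt tf ft ff
  have h1 := hb.1
  have h2 := hb.2
  have q2 : 0 < √((g * v : ℕ) : ℝ) := by
    rw [Real.sqrt_pos]
    have : g * v ≠ 0 := fun h => F.n2 ⟨0, by rw [h]⟩
    exact_mod_cast Nat.pos_of_ne_zero this
  have q3 : 0 < √((u * v : ℕ) : ℝ) := by
    rw [Real.sqrt_pos]
    have : u * v ≠ 0 := fun h => F.n3 ⟨0, by rw [h]⟩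
    exact_mod_cast Nat.pos_of_ne_zero this
  have e2 : X2 = 0 := by
    have : (X2 : ℝ) * √((g * v : ℕ) : ℝ) = 0 := by linarith
    rcases mul_eq_zero.mp this with h | h
    · exact_mod_cast h
    · exact absurd h q2.ne'
  have e3 : X3 = 0 := by
    have : (X3 : ℝ) * √((u * v : ℕ) : ℝ) = 0 := by linarith
    rcases mul_eq_zero.mp this with h | h
    · exact_mod_cast h
    · exact absurd h q3.ne'
  rw [e2, e3] at tt ft hX
  obtain ⟨p, q, hp, hq, hd⟩ := quad_int (m := g * u) (x := (X0 : ℚ) / 4) (y := (X1 : ℚ) / 4)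
    (sqf1 hs) (int_emb b (F.s true true)) (by
      push_cast at tt ⊢
      linarith) (int_emb b (F.s false true)) (by
      push_cast at ft ⊢
      linarith)
  refine ⟨p, q, ?_, hd⟩
  have e4 : (X0 : ℚ) = 2 * p := by linarith
  have e5 : (X1 : ℚ) = 2 * q := by linarith
  have e6 : X0 = 2 * p := by exact_mod_cast e4
  have e7 : X1 = 2 * q := by exact_mod_cast e5
  rw [e6, e7] at hX
  push_cast at hX
  have h2 : (2 : K) ≠ 0 := two_ne_zero
  apply mul_left_cancel₀ h2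
  linear_combination hX

/-- comparison of coordinates in the subfield -/
theorem a1_indep (F : Fld K (g * u) (g * v) (u * v) g) {x y : ℤ}
    (h : (x : K) + y * F.a1 = 0) : x = 0 ∧ y = 0 := by
  have := indep2 (K := K) F.n1 F.sq1 (x := (x : ℚ)) (y := (y : ℚ)) (by push_cast; exact h)
  exact ⟨by exact_mod_cast this.1, by exact_mod_cast this.2⟩

theorem get_vec {A : Matrix (Fin 4) (Fin 4) (𝓞 K)} (hA : IsUniversal K 4 A)
    {e : Fin 4 → 𝓞 K} (he : bil A e e = 1) {γ : 𝓞 K} (hγ : TotPos (γ : K)) :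
    ∃ (x : Fin 4 → 𝓞 K) (b : 𝓞 K), bil A x e = 0 ∧ bil A x x = γ - b ^ 2 ∧
      (∀ τ : K →+* ℝ, (τ (b : K)) ^ 2 ≤ τ (γ : K)) ∧ ∀ τ : K →+* ℝ, τ (bil A x x : 𝓞 K) ≤ τ (γ : K) := by
  obtain ⟨w, hw⟩ := hA.univ γ hγ
  obtain ⟨h1, h2⟩ := split_e hA (w := w) he
  refine ⟨w - bil A w e • e, bil A w e, h1, ?_, ?_, ?_⟩
  · rw [h2, hw]
  · intro τ
    have := nonneg_val hA (w - bil A w e • e) τ
    rw [h2, hw] at this
    push_cast at this
    simp only [map_sub, map_pow] at this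
    linarith
  · intro τ
    rw [h2, hw]
    push_cast
    simp only [map_sub, map_pow]
    have := sq_nonneg (τ (bil A w e : 𝓞 K))
    linarith

/-- elements of small norm lie in the subfield -/
theorem mem_small {F : Fld K (g * u) (g * v) (u * v) g} {R : ℝ} (hM : Mem F R) {N : ℝ}
    (hR : 2 * √N ≤ R) {b : 𝓞 K} (hb : ∀ i j, |F.s i j (b : K)| ≤ √N) : InF F (b : K) :=
  hM b (√N) (√N) (fun i => hb i true) (fun i => hb i false) (by linarith)

/-- conclusion shared by all cases -/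
def HasPlane (F : Fld K (g * u) (g * v) (u * v) g) (A : Matrix (Fin 4) (Fin 4) (𝓞 K))
    (e : Fin 4 → 𝓞 K) (N : ℝ) : Prop :=
  ∃ x y : Fin 4 → 𝓞 K, bil A x e = 0 ∧ bil A y e = 0 ∧ InF F (bil A x x : 𝓞 K) ∧
    InF F (bil A y y : 𝓞 K) ∧ InF F (bil A x y : 𝓞 K) ∧
    ((bil A x x : 𝓞 K) : K) * (bil A y y : 𝓞 K) - (bil A x y : 𝓞 K) * (bil A x y : 𝓞 K) ≠ 0 ∧
    (∀ i j, F.s i j (bil A x x : 𝓞 K) ≤ N) ∧ ∀ i j, F.s i j (bil A y y : 𝓞 K) ≤ N

theorem plane_of {F : Fld K (g * u) (g * v) (u * v) g} (hs : Squarefree (g * u * v))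
    {A : Matrix (Fin 4) (Fin 4) (𝓞 K)} (hA : IsUniversal K 4 A) {R : ℝ} (hM : Mem F R)
    {M : ℝ} (hR : 2 * √M ≤ R) {e : Fin 4 → 𝓞 K} {N : ℝ} {x y : Fin 4 → 𝓞 K} {γ1 γ2 b1 b2 : 𝓞 K}
    (hx : bil A x e = 0) (hy : bil A y e = 0) (qx : bil A x x = γ1 - b1 ^ 2)
    (qy : bil A y y = γ2 - b2 ^ 2) (f1 : InF F (γ1 : K)) (f2 : InF F (γ2 : K))
    (fb1 : InF F (b1 : K)) (fb2 : InF F (b2 : K))
    (n1 : ∀ i j, F.s i j (bil A x x : 𝓞 K) ≤ F.s i j (γ1 : K))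
    (n2 : ∀ i j, F.s i j (bil A y y : 𝓞 K) ≤ F.s i j (γ2 : K))
    (l1 : ∀ i j, F.s i j (γ1 : K) ≤ N) (l2 : ∀ i j, F.s i j (γ2 : K) ≤ N)
    (l3 : ∀ i j, F.s i j (γ1 : K) * F.s i j (γ2 : K) ≤ M)
    (hd : ∀ (c : 𝓞 K) (r t : ℤ), 2 * (c : K) = r + t * F.a1 →
      (4 : ℤ) ∣ r ^ 2 - (g * u : ℕ) * t ^ 2 →
      ((γ1 : K) - (b1 : K) ^ 2) * ((γ2 : K) - (b2 : K) ^ 2) ≠ (c : K) * c) :
    HasPlane F A e N := by
  have fxy : InF F (bil A x y : 𝓞 K) := by
    apply mem_small hM hR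
    intro i j
    exact (cs_abs hA x y (F.s i j) (n1 i j) (n2 i j)).trans (Real.sqrt_le_sqrt (l3 i j))
  have cx : ((bil A x x : 𝓞 K) : K) = (γ1 : K) - (b1 : K) ^ 2 := by rw [qx]; push_cast; rfl
  have cy : ((bil A y y : 𝓞 K) : K) = (γ2 : K) - (b2 : K) ^ 2 := by rw [qy]; push_cast; rfl
  refine ⟨x, y, hx, hy, ?_, ?_, fxy, ?_, fun i j => (n1 i j).trans (l1 i j),
    fun i j => (n2 i j).trans (l2 i j)⟩
  · rw [cx]; exact f1.sub (fb1.pow 2)
  · rw [cy]; exact f2.sub (fb2.pow 2)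
  · obtain ⟨r, t, h1, h2⟩ := inF_coord F hs fxy
    rw [cx, cy]
    intro h0
    exact hd _ r t h1 h2 (by linear_combination h0)

end

end BQN
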