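import Pool.Agent.BQN.Plane
import Pool.Agent.BQN.NT

/-! Existence of the plane over the subfield, case by case. -/

namespace BQN

open NumberField BQF Matrix

section
variable {K : Type*} [Field K] [NumberField K] {g u v : ℕ}

theorem val_half (F : Fld K (g * u) (g * v) (u * v) g) {γ : K} {c0 c1 : ℤ}
    (h : 2 * γ = c0 + c1 * F.a1) (i j : Bool) :
    F.s i j γ = (c0 + c1 * (sg i * √((g * u : ℕ) : ℝ))) / 2 := by
  have h2 := congrArg (F.s i j) h
  simp only [map_add, map_mul, map_intCast, map_ofNat, F.s1] at h2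
  linarith

theorem inF_half (F : Fld K (g * u) (g * v) (u * v) g) {γ : K} {c0 c1 : ℤ}
    (h : 2 * γ = c0 + c1 * F.a1) : InF F γ :=
  ⟨by rw [val_half F h, val_half F h], by rw [val_half F h, val_half F h]⟩

theorem totPos_of (F : Fld K (g * u) (g * v) (u * v) g) {γ : K} (h : ∀ i j, 0 < F.s i j γ) :
    TotPos γ := by
  intro τ
  obtain ⟨i, j, rfl⟩ := F.all τ
  exact h i j

omit [NumberField K] in
theorem int_a1 {a : K} {m : ℕ} (ha : a ^ 2 = m) : IsIntegral ℤ a := by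
  refine ⟨Polynomial.X ^ 2 - Polynomial.C (m : ℤ), Polynomial.monic_X_pow_sub_C _ (by norm_num), ?_⟩
  simp [ha]

omit [NumberField K] in
theorem int_phi {a : K} [CharZero K] (ha : a ^ 2 = (5 : ℕ)) : IsIntegral ℤ ((1 + a) / 2) := by
  refine ⟨Polynomial.X ^ 2 - Polynomial.X - 1, ?_, ?_⟩
  · monicity!
  · simp
    field_simp
    push_cast at ha
    linear_combination ha

/-- from the bound of a square at the two embeddings to the bound of the coordinates -/
theorem coord_bound (F : Fld K (g * u) (g * v) (u * v) g) {b γ : K} {p q c0 c1 : ℤ}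
    (hb : 2 * b = p + q * F.a1) (hγ : 2 * γ = c0 + c1 * F.a1)
    (h : ∀ τ : K →+* ℝ, (τ b) ^ 2 ≤ τ γ) : p ^ 2 + (g * u : ℕ) * q ^ 2 ≤ 2 * c0 := by
  have h1 := h (F.s true true)
  have h2 := h (F.s false true)
  rw [val_half F hb, val_half F hγ] at h1 h2
  simp only [sg_true, sg_false] at h1 h2
  have hm : √((g * u : ℕ) : ℝ) ^ 2 = ((g * u : ℕ) : ℝ) := Real.sq_sqrt (by positivity)
  have : ((p ^ 2 + (g * u : ℕ) * q ^ 2 : ℤ) : ℝ) ≤ ((2 * c0 : ℤ) : ℝ) := by
    push_cast at hm h1 h2 ⊢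
    nlinarith
  exact_mod_cast this

theorem small_of (F : Fld K (g * u) (g * v) (u * v) g) {b γ : K} {N : ℝ}
    (h : ∀ τ : K →+* ℝ, (τ b) ^ 2 ≤ τ γ) (hγ : ∀ i j, F.s i j γ ≤ N) :
    ∀ i j, |F.s i j b| ≤ √N := fun i j =>
  Real.abs_le_sqrt ((h _).trans (hγ i j))

theorem root_val (F : Fld K (g * u) (g * v) (u * v) g) {m : ℕ} (hm : g * u = m) :
    F.a1 ^ 2 = (m : K) ∧ ∃ r : ℝ, 0 ≤ r ∧ r ^ 2 = (m : ℝ) ∧ ∀ (γ : K) (c0 c1 : ℤ),
      2 * γ = c0 + c1 * F.a1 → ∀ i j, F.s i j γ = (c0 + c1 * (sg i * r)) / 2 := by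
  have hK : ((g * u : ℕ) : K) = (m : K) := by rw [hm]
  have hR : ((g * u : ℕ) : ℝ) = (m : ℝ) := by rw [hm]
  refine ⟨F.sq1.trans hK, √((g * u : ℕ) : ℝ), Real.sqrt_nonneg _, ?_, ?_⟩
  · rw [Real.sq_sqrt (by positivity), hR]
  · intro γ c0 c1 h i j
    exact val_half F h i j

omit [NumberField K] in
theorem exists_nat (n : ℕ) : ∃ γ : 𝓞 K, (γ : K) = (n : K) :=
  ⟨(n : 𝓞 K), map_natCast (algebraMap (𝓞 K) K) n⟩

/-- the general case -/
theorem plane_gen (F : Fld K (g * u) (g * v) (u * v) g) (hs : Squarefree (g * u * v))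
    {A : Matrix (Fin 4) (Fin 4) (𝓞 K)} (hA : IsUniversal K 4 A) {R : ℝ} (hM : Mem F R)
    {e : Fin 4 → 𝓞 K} (he : bil A e e = 1) (h6 : 6 ≤ g * u) {N : ℕ} {M : ℝ} (hR : 2 * √M ≤ R)
    (hN5 : 5 ≤ N) (hM5 : 2 * (N : ℝ) ≤ M)
    (hN : ∀ p q r t : ℤ, r ^ 2 + (g * u : ℕ) * t ^ 2 + 2 * p ^ 2 + 2 * (g * u : ℕ) * q ^ 2 = 8 * N →
      r * t + 2 * (p * q) = 0 → (4 : ℤ) ∣ p ^ 2 - (g * u : ℕ) * q ^ 2 →
      (4 : ℤ) ∣ r ^ 2 - (g * u : ℕ) * t ^ 2 → False) :
    HasPlane F A e N := by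
  have h4 : (g * u) % 4 ≠ 0 := (mod4_ne hs).1
  have hN5' : (5 : ℝ) ≤ N := by exact_mod_cast hN5
  obtain ⟨γ, hγ⟩ := exists_nat (K := K) 2
  have v2 : ∀ i j, F.s i j (γ : K) = 2 := by intro i j; rw [hγ, map_natCast]; norm_num
  obtain ⟨x, b1, hx, qx, l1, l2⟩ := get_vec hA he (γ := γ)
    (totPos_of F fun i j => by rw [v2]; norm_num)
  have fγ : InF F (γ : K) := by rw [hγ]; exact InF.nat 2
  have fb1 : InF F (b1 : K) := by
    apply mem_small hM hR
    exact small_of F l1 fun i j => by rw [v2]; linarith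
  obtain ⟨p, q, hb1, hpq⟩ := inF_coord F hs fb1
  have hbd := coord_bound F hb1 (γ := (γ : K)) (c0 := 4) (c1 := 0)
    (by rw [hγ]; push_cast; ring) l1
  obtain ⟨hq, hp⟩ := ntA h4 h6 (by linarith) hpq
  have hb : (b1 : K) ^ 2 = 0 ∨ (b1 : K) ^ 2 = 1 := by
    rw [hq] at hb1
    have : (b1 : K) = p / 2 := by push_cast at hb1; linear_combination hb1 / 2
    rw [this]
    rcases hp with rfl | rfl | rfl
    · left; simp
    · right; norm_num
    · right; norm_num
  have hab := F.sq1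
  rcases hb with hb | hb
  · obtain ⟨γ', hγ'⟩ := exists_nat (K := K) N
    have v5 : ∀ i j, F.s i j (γ' : K) = N := by intro i j; rw [hγ', map_natCast]
    obtain ⟨y, b2, hy, qy, l3, l4⟩ := get_vec hA he (γ := γ')
      (totPos_of F fun i j => by rw [v5]; linarith)
    have fγ' : InF F (γ' : K) := by rw [hγ']; exact InF.nat N
    have fb2 : InF F (b2 : K) := by
      apply mem_small hM hR
      exact small_of F l3 fun i j => by rw [v5]; linarith
    refine plane_of hs hA hM hR hx hy qx qy fγ fγ' fb1 fb2 (fun i j => l2 _) (fun i j => l4 _)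
      (fun i j => by rw [v2]; linarith) (fun i j => by rw [v5])
      (fun i j => by rw [v2, v5]; linarith) ?_
    intro c r t hc hrt h0
    obtain ⟨p', q', hb2, hpq'⟩ := inF_coord F hs fb2
    rw [hb, hγ, hγ'] at h0
    have h3 : (((8 * N - 2 * p' ^ 2 - 2 * (g * u : ℕ) * q' ^ 2 - r ^ 2 - (g * u : ℕ) * t ^ 2 : ℤ)) : K)
        + ((-4 * p' * q' - 2 * r * t : ℤ) : K) * F.a1 = 0 := by
      push_cast at hab h0 ⊢
      linear_combination 4 * h0 + (2 * (2 * (b2 : K) + (p' + q' * F.a1))) * hb2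
        + (2 * (c : K) + (r + t * F.a1)) * hc
        + ((2 : K) * q' ^ 2 + t ^ 2) * hab
    obtain ⟨h5, h6⟩ := a1_indep F h3
    exact hN p' q' r t (by linarith) (by linarith) hpq' hrt
  · obtain ⟨γ', hγ'⟩ := exists_nat (K := K) 3
    have v5 : ∀ i j, F.s i j (γ' : K) = 3 := by intro i j; rw [hγ', map_natCast]; norm_num
    obtain ⟨y, b2, hy, qy, l3, l4⟩ := get_vec hA he (γ := γ')
      (totPos_of F fun i j => by rw [v5]; norm_num)
    have fγ' : InF F (γ' : K) := by rw [hγ']; exact InF.nat 3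
    have fb2 : InF F (b2 : K) := by
      apply mem_small hM hR
      exact small_of F l3 fun i j => by rw [v5]; linarith
    refine plane_of hs hA hM hR hx hy qx qy fγ fγ' fb1 fb2 (fun i j => l2 _) (fun i j => l4 _)
      (fun i j => by rw [v2]; linarith) (fun i j => by rw [v5]; linarith)
      (fun i j => by rw [v2, v5]; linarith) ?_
    intro c r t hc hrt h0
    obtain ⟨p', q', hb2, hpq'⟩ := inF_coord F hs fb2
    rw [hb, hγ, hγ'] at h0
    have h3 : (((12 - p' ^ 2 - (g * u : ℕ) * q' ^ 2 - r ^ 2 - (g * u : ℕ) * t ^ 2 : ℤ)) : K)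
        + ((-2 * p' * q' - 2 * r * t : ℤ) : K) * F.a1 = 0 := by
      push_cast at hab h0 ⊢
      linear_combination 4 * h0 + (2 * (b2 : K) + (p' + q' * F.a1)) * hb2
        + (2 * (c : K) + (r + t * F.a1)) * hc
        + ((q' : K) ^ 2 + t ^ 2) * hab
    obtain ⟨h5, h6⟩ := a1_indep F h3
    exact ntC h4 (by assumption) (p := p') (q := q') (r := r) (t := t) (by linarith) hpq' hrt

/-- `m1 = 5` -/
theorem plane_five (F : Fld K (g * u) (g * v) (u * v) g) (hs : Squarefree (g * u * v))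
    {A : Matrix (Fin 4) (Fin 4) (𝓞 K)} (hA : IsUniversal K 4 A) {R : ℝ} (hM : Mem F R)
    {e : Fin 4 → 𝓞 K} (he : bil A e e = 1) (h5 : g * u = 5) (hR : 2 * √(10 : ℝ) ≤ R) :
    HasPlane F A e 5 := by
  obtain ⟨hab, r, hr0, hrm, hval⟩ := root_val F h5
  push_cast at hab hrm
  have r1 : r < 3 := by nlinarith
  have r2 : 2 < r := by nlinarith
  obtain ⟨γ, hγ⟩ := exists_nat (K := K) 2
  have v2 : ∀ i j, F.s i j (γ : K) = 2 := by intro i j; rw [hγ, map_natCast]; norm_num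
  obtain ⟨x, b1, hx, qx, l1, l2⟩ := get_vec hA he (γ := γ)
    (totPos_of F fun i j => by rw [v2]; norm_num)
  have fγ : InF F (γ : K) := by rw [hγ]; exact InF.nat 2
  have fb1 : InF F (b1 : K) := by
    apply mem_small hM hR
    exact small_of F l1 fun i j => by rw [v2]; norm_num
  obtain ⟨p, q, hb1, hpq⟩ := inF_coord F hs fb1
  have hbd := coord_bound F hb1 (γ := (γ : K)) (c0 := 4) (c1 := 0)
    (by rw [hγ]; push_cast; ring) l1
  rw [h5] at hbd hpq
  push_cast at hbd hpq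
  have hb : (b1 : K) ^ 2 = 0 ∨ (b1 : K) ^ 2 = 1 := by
    have hq : -1 ≤ q ∧ q ≤ 1 := sq_le_abs (by nlinarith [sq_nonneg p]) (by norm_num)
    have hp : -2 ≤ p ∧ p ≤ 2 := sq_le_abs (by nlinarith [sq_nonneg q]) (by norm_num)
    have k1 := l1 (F.s true true)
    have k2 := l1 (F.s false true)
    rw [v2, hval _ _ _ hb1] at k1 k2
    simp only [sg_true, sg_false] at k1 k2
    obtain ⟨a1, a2⟩ := hq
    obtain ⟨c1, c2⟩ := hp
    obtain ⟨k, hk⟩ := hpq
    have hq0 : q = 0 := by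
      by_contra hne
      have hq1 : q = 1 ∨ q = -1 := by omega
      have hp1 : p = 1 ∨ p = -1 := by
        rcases hq1 with rfl | rfl <;> interval_cases p <;> omega
      rcases hq1 with rfl | rfl <;> rcases hp1 with rfl | rfl <;> push_cast at k1 k2 <;> nlinarith
    subst hq0
    have hb' : (b1 : K) = p / 2 := by push_cast at hb1; linear_combination hb1 / 2
    rw [hb']
    have : p = 0 ∨ p = 2 ∨ p = -2 := by
      obtain ⟨a, ha⟩ := even_of_sq (p := p) ⟨k, by linarith⟩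
      omega
    rcases this with rfl | rfl | rfl
    · left; simp
    · right; norm_num
    · right; norm_num
  have hphi := int_phi (K := K) (a := F.a1) (by push_cast; exact hab)
  rcases hb with hb | hb
  · obtain ⟨γ', hγ'⟩ : ∃ γ : 𝓞 K, 2 * (γ : K) = (5 : ℤ) + (1 : ℤ) * F.a1 :=
      ⟨⟨((2 : ℕ) : K) + (1 + F.a1) / 2, (isIntegral_natCast _).add hphi⟩, by
        show 2 * (((2 : ℕ) : K) + (1 + F.a1) / 2) = _
        push_cast; ring⟩
    have v5 := fun i j => hval _ _ _ hγ' i j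
    have bnd : ∀ i j, 0 < F.s i j (γ' : K) ∧ F.s i j (γ' : K) ≤ 5 := by
      intro i j
      rw [v5]
      cases i <;> simp only [sg_true, sg_false] <;> constructor <;> push_cast <;> linarith
    obtain ⟨y, b2, hy, qy, l3, l4⟩ := get_vec hA he (γ := γ') (totPos_of F fun i j => (bnd i j).1)
    have fγ' : InF F (γ' : K) := inF_half F hγ'
    have fb2 : InF F (b2 : K) := by
      apply mem_small hM hR
      exact small_of F l3 fun i j => by linarith [(bnd i j).2]
    refine plane_of hs hA hM hR hx hy qx qy fγ fγ' fb1 fb2 (fun i j => l2 _) (fun i j => l4 _)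
      (fun i j => by rw [v2]; norm_num) (fun i j => (bnd i j).2)
      (fun i j => by rw [v2]; linarith [(bnd i j).2]) ?_
    intro c w t hc hrt h0
    obtain ⟨p', q', hb2, hpq'⟩ := inF_coord F hs fb2
    rw [hb, hγ] at h0
    have h3 : (((20 - 2 * p' ^ 2 - 10 * q' ^ 2 - w ^ 2 - 5 * t ^ 2 : ℤ)) : K)
        + ((4 - 4 * p' * q' - 2 * w * t : ℤ) : K) * F.a1 = 0 := by
      push_cast at hγ' h0 ⊢
      linear_combination 4 * h0 - 4 * hγ' + (2 * (2 * (b2 : K) + (p' + q' * F.a1))) * hb2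
        + (2 * (c : K) + (w + t * F.a1)) * hc
        + ((2 : K) * q' ^ 2 + t ^ 2) * hab
    obtain ⟨h5, h6⟩ := a1_indep F h3
    exact ntF (p := p') (q := q') (r := w) (t := t) (by linarith) (by linarith)
  · obtain ⟨γ', hγ'⟩ : ∃ γ : 𝓞 K, 2 * (γ : K) = (7 : ℤ) + (1 : ℤ) * F.a1 :=
      ⟨⟨((3 : ℕ) : K) + (1 + F.a1) / 2, (isIntegral_natCast _).add hphi⟩, by
        show 2 * (((3 : ℕ) : K) + (1 + F.a1) / 2) = _
        push_cast; ring⟩
    have v5 := fun i j => hval _ _ _ hγ' i j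
    have bnd : ∀ i j, 0 < F.s i j (γ' : K) ∧ F.s i j (γ' : K) ≤ 5 := by
      intro i j
      rw [v5]
      cases i <;> simp only [sg_true, sg_false] <;> constructor <;> push_cast <;> linarith
    obtain ⟨y, b2, hy, qy, l3, l4⟩ := get_vec hA he (γ := γ') (totPos_of F fun i j => (bnd i j).1)
    have fγ' : InF F (γ' : K) := inF_half F hγ'
    have fb2 : InF F (b2 : K) := by
      apply mem_small hM hR
      exact small_of F l3 fun i j => by linarith [(bnd i j).2]
    refine plane_of hs hA hM hR hx hy qx qy fγ fγ' fb1 fb2 (fun i j => l2 _) (fun i j => l4 _)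
      (fun i j => by rw [v2]; norm_num) (fun i j => (bnd i j).2)
      (fun i j => by rw [v2]; linarith [(bnd i j).2]) ?_
    intro c w t hc hrt h0
    obtain ⟨p', q', hb2, hpq'⟩ := inF_coord F hs fb2
    rw [hb, hγ] at h0
    have h3 : (((14 - p' ^ 2 - 5 * q' ^ 2 - w ^ 2 - 5 * t ^ 2 : ℤ)) : K)
        + ((2 - 2 * p' * q' - 2 * w * t : ℤ) : K) * F.a1 = 0 := by
      push_cast at hγ' h0 ⊢
      linear_combination 4 * h0 - 2 * hγ' + (2 * (b2 : K) + (p' + q' * F.a1)) * hb2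
        + (2 * (c : K) + (w + t * F.a1)) * hc
        + ((q' : K) ^ 2 + t ^ 2) * hab
    obtain ⟨h5, h6⟩ := a1_indep F h3
    exact ntG (p := p') (q := q') (r := w) (t := t) (by linarith) (by linarith)

/-- `m1 = 2` -/
theorem plane_two (F : Fld K (g * u) (g * v) (u * v) g) (hs : Squarefree (g * u * v))
    {A : Matrix (Fin 4) (Fin 4) (𝓞 K)} (hA : IsUniversal K 4 A) {R : ℝ} (hM : Mem F R)
    {e : Fin 4 → 𝓞 K} (he : bil A e e = 1) (h5 : g * u = 2) (hR : 2 * √(12 : ℝ) ≤ R) :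
    HasPlane F A e 4 := by
  obtain ⟨hab, r, hr0, hrm, hval⟩ := root_val F h5
  push_cast at hab hrm
  have r1 : r < 3 / 2 := by nlinarith
  have r2 : 7 / 5 < r := by nlinarith
  have ha1 : IsIntegral ℤ F.a1 := int_a1 F.sq1
  obtain ⟨γ, hγ⟩ : ∃ γ : 𝓞 K, 2 * (γ : K) = (4 : ℤ) + (2 : ℤ) * F.a1 :=
    ⟨⟨((2 : ℕ) : K) + F.a1, (isIntegral_natCast _).add ha1⟩, by
      show 2 * (((2 : ℕ) : K) + F.a1) = _
      push_cast; ring⟩
  have v2 := fun i j => hval _ _ _ hγ i j
  have bnd1 : ∀ i j, 0 < F.s i j (γ : K) ∧ F.s i j (γ : K) ≤ 4 := by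
    intro i j
    rw [v2]
    cases i <;> simp only [sg_true, sg_false] <;> constructor <;> push_cast <;> linarith
  obtain ⟨x, b1, hx, qx, l1, l2⟩ := get_vec hA he (γ := γ) (totPos_of F fun i j => (bnd1 i j).1)
  have fγ : InF F (γ : K) := inF_half F hγ
  have fb1 : InF F (b1 : K) := by
    apply mem_small hM hR
    exact small_of F l1 fun i j => by linarith [(bnd1 i j).2]
  obtain ⟨p, q, hb1, hpq⟩ := inF_coord F hs fb1
  have hbd := coord_bound F hb1 hγ l1
  rw [h5] at hbd hpq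
  obtain ⟨p, q, rfl, rfl⟩ := even_of_par (m := 2) (by norm_num) (by norm_num) hpq
  push_cast at hbd
  have hb : (b1 : K) ^ 2 = 0 := by
    have hq : -1 ≤ q ∧ q ≤ 1 := sq_le_abs (by nlinarith [sq_nonneg p]) (by norm_num)
    have hp : -1 ≤ p ∧ p ≤ 1 := sq_le_abs (by nlinarith [sq_nonneg q]) (by norm_num)
    have k2 := l1 (F.s false true)
    rw [v2, hval _ _ _ hb1] at k2
    simp only [sg_false] at k2
    obtain ⟨a1, a2⟩ := hq
    obtain ⟨c1, c2⟩ := hp
    push_cast at k2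
    have hpq0 : p = 0 ∧ q = 0 := by
      interval_cases p <;> interval_cases q <;> first | exact ⟨rfl, rfl⟩ | omega | (exfalso; norm_num at k2; nlinarith)
    obtain ⟨rfl, rfl⟩ := hpq0
    have hb' : (b1 : K) = 0 := by push_cast at hb1; linear_combination hb1 / 2
    rw [hb']; ring
  obtain ⟨γ', hγ'⟩ := exists_nat (K := K) 3
  have v5 : ∀ i j, F.s i j (γ' : K) = 3 := by intro i j; rw [hγ', map_natCast]; norm_num
  obtain ⟨y, b2, hy, qy, l3, l4⟩ := get_vec hA he (γ := γ')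
    (totPos_of F fun i j => by rw [v5]; norm_num)
  have fγ' : InF F (γ' : K) := by rw [hγ']; exact InF.nat 3
  have fb2 : InF F (b2 : K) := by
    apply mem_small hM hR
    exact small_of F l3 fun i j => by rw [v5]; norm_num
  refine plane_of hs hA hM hR hx hy qx qy fγ fγ' fb1 fb2 (fun i j => l2 _) (fun i j => l4 _)
    (fun i j => (bnd1 i j).2) (fun i j => by rw [v5]; norm_num)
    (fun i j => by rw [v5]; linarith [(bnd1 i j).2]) ?_
  intro c w t hc hrt h0
  obtain ⟨p', q', hb2, hpq'⟩ := inF_coord F hs fb2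
  rw [h5] at hrt hpq'
  obtain ⟨p', q', rfl, rfl⟩ := even_of_par (m := 2) (by norm_num) (by norm_num) hpq'
  obtain ⟨w, t, rfl, rfl⟩ := even_of_par (m := 2) (by norm_num) (by norm_num) hrt
  have hγ2 : (γ : K) = 2 + F.a1 := by push_cast at hγ; linear_combination hγ / 2
  have hb2' : (b2 : K) = p' + q' * F.a1 := by push_cast at hb2; linear_combination hb2 / 2
  have hc' : (c : K) = w + t * F.a1 := by push_cast at hc; linear_combination hc / 2
  rw [hb, hγ2, hγ', hb2', hc'] at h0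
  have h3 : (((2 * (3 - p' ^ 2 - 2 * q' ^ 2) + 2 * (-2 * p' * q') - (w ^ 2 + 2 * t ^ 2) : ℤ)) : K)
      + (((3 - p' ^ 2 - 2 * q' ^ 2) + 2 * (-2 * p' * q') - 2 * (w * t) : ℤ) : K) * F.a1 = 0 := by
    push_cast at h0 ⊢
    linear_combination h0 + ((q' : K) ^ 2 * F.a1 + 2 * q' ^ 2 + 2 * p' * q' + t ^ 2) * hab
  obtain ⟨h5, h6⟩ := a1_indep F h3
  exact ntH (p := p') (q := q') (r := w) (t := t) (by linarith) (by linarith)

/-- `m1 = 3` -/
theorem plane_three (F : Fld K (g * u) (g * v) (u * v) g) (hs : Squarefree (g * u * v))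
    {A : Matrix (Fin 4) (Fin 4) (𝓞 K)} (hA : IsUniversal K 4 A) {R : ℝ} (hM : Mem F R)
    {e : Fin 4 → 𝓞 K} (he : bil A e e = 1) (h5 : g * u = 3) (hR : 2 * √(12 : ℝ) ≤ R) :
    HasPlane F A e 6 := by
  obtain ⟨hab, r, hr0, hrm, hval⟩ := root_val F h5
  push_cast at hab hrm
  have r1 : r < 2 := by nlinarith
  have r2 : 8 / 5 < r := by nlinarith
  have ha1 : IsIntegral ℤ F.a1 := int_a1 F.sq1
  obtain ⟨γ, hγ⟩ : ∃ γ : 𝓞 K, 2 * (γ : K) = (4 : ℤ) + (2 : ℤ) * F.a1 :=
    ⟨⟨((2 : ℕ) : K) + F.a1, (isIntegral_natCast _).add ha1⟩, by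
      show 2 * (((2 : ℕ) : K) + F.a1) = _
      push_cast; ring⟩
  have v2 := fun i j => hval _ _ _ hγ i j
  have bnd1 : ∀ i j, 0 < F.s i j (γ : K) ∧ F.s i j (γ : K) ≤ 4 := by
    intro i j
    rw [v2]
    cases i <;> simp only [sg_true, sg_false] <;> constructor <;> push_cast <;> linarith
  obtain ⟨x, b1, hx, qx, l1, l2⟩ := get_vec hA he (γ := γ) (totPos_of F fun i j => (bnd1 i j).1)
  have fγ : InF F (γ : K) := inF_half F hγ
  have fb1 : InF F (b1 : K) := by
    apply mem_small hM hR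
    exact small_of F l1 fun i j => by linarith [(bnd1 i j).2]
  obtain ⟨p, q, hb1, hpq⟩ := inF_coord F hs fb1
  have hbd := coord_bound F hb1 hγ l1
  rw [h5] at hbd hpq
  obtain ⟨p, q, rfl, rfl⟩ := even_of_par (m := 3) (by norm_num) (by norm_num) hpq
  push_cast at hbd
  have hb : (b1 : K) ^ 2 = 0 := by
    have hq : -0 ≤ q ∧ q ≤ 0 := sq_le_abs (by nlinarith [sq_nonneg p]) (by norm_num)
    have hp : -1 ≤ p ∧ p ≤ 1 := sq_le_abs (by nlinarith [sq_nonneg q]) (by norm_num)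
    have k2 := l1 (F.s false true)
    rw [v2, hval _ _ _ hb1] at k2
    simp only [sg_false] at k2
    have hq0 : q = 0 := by omega
    subst hq0
    obtain ⟨c1, c2⟩ := hp
    push_cast at k2
    have hpq0 : p = 0 := by
      interval_cases p <;> first | rfl | (exfalso; norm_num at k2; nlinarith)
    subst hpq0
    have hb' : (b1 : K) = 0 := by push_cast at hb1; linear_combination hb1 / 2
    rw [hb']; ring
  obtain ⟨γ', hγ'⟩ : ∃ γ : 𝓞 K, 2 * (γ : K) = (8 : ℤ) + (-2 : ℤ) * F.a1 :=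
    ⟨⟨((4 : ℕ) : K) - F.a1, (isIntegral_natCast _).sub ha1⟩, by
      show 2 * (((4 : ℕ) : K) - F.a1) = _
      push_cast; ring⟩
  have v5 := fun i j => hval _ _ _ hγ' i j
  have bnd2 : ∀ i j, 0 < F.s i j (γ' : K) ∧ F.s i j (γ' : K) ≤ 6 := by
    intro i j
    rw [v5]
    cases i <;> simp only [sg_true, sg_false] <;> constructor <;> push_cast <;> linarith
  obtain ⟨y, b2, hy, qy, l3, l4⟩ := get_vec hA he (γ := γ') (totPos_of F fun i j => (bnd2 i j).1)
  have fγ' : InF F (γ' : K) := inF_half F hγ'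
  have fb2 : InF F (b2 : K) := by
    apply mem_small hM hR
    exact small_of F l3 fun i j => by linarith [(bnd2 i j).2]
  refine plane_of hs hA hM hR hx hy qx qy fγ fγ' fb1 fb2 (fun i j => l2 _) (fun i j => l4 _)
    (fun i j => by linarith [(bnd1 i j).2]) (fun i j => (bnd2 i j).2)
    (fun i j => by
      rw [v2, v5]
      cases i <;> simp only [sg_true, sg_false] <;> push_cast <;> nlinarith) ?_
  intro c w t hc hrt h0
  obtain ⟨p', q', hb2, hpq'⟩ := inF_coord F hs fb2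
  rw [h5] at hrt hpq'
  obtain ⟨p', q', rfl, rfl⟩ := even_of_par (m := 3) (by norm_num) (by norm_num) hpq'
  obtain ⟨w, t, rfl, rfl⟩ := even_of_par (m := 3) (by norm_num) (by norm_num) hrt
  have hγ2 : (γ : K) = 2 + F.a1 := by push_cast at hγ; linear_combination hγ / 2
  have hγ3 : (γ' : K) = 4 - F.a1 := by push_cast at hγ'; linear_combination hγ' / 2
  have hb2' : (b2 : K) = p' + q' * F.a1 := by push_cast at hb2; linear_combination hb2 / 2
  have hc' : (c : K) = w + t * F.a1 := by push_cast at hc; linear_combination hc / 2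
  rw [hb, hγ2, hγ3, hb2', hc'] at h0
  have h3 : (((2 * (4 - p' ^ 2 - 3 * q' ^ 2) + 3 * (-1 - 2 * p' * q') - (w ^ 2 + 3 * t ^ 2) : ℤ)) : K)
      + (((4 - p' ^ 2 - 3 * q' ^ 2) + 2 * (-1 - 2 * p' * q') - 2 * (w * t) : ℤ) : K) * F.a1 = 0 := by
    push_cast at h0 ⊢
    linear_combination h0 + ((q' : K) ^ 2 * F.a1 + 2 * q' ^ 2 + 2 * p' * q' + 1 + t ^ 2) * hab
  obtain ⟨h5, h6⟩ := a1_indep F h3
  exact ntI (p := p') (q := q') (r := w) (t := t) (by linarith) (by linarith)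

/-- **The plane over the subfield.** -/
theorem plane (F : Fld K (g * u) (g * v) (u * v) g) (hs : Squarefree (g * u * v))
    {A : Matrix (Fin 4) (Fin 4) (𝓞 K)} (hA : IsUniversal K 4 A) {R : ℝ} (hM : Mem F R)
    {e : Fin 4 → 𝓞 K} (he : bil A e e = 1)
    (hR : 2 * √((NN (g * u) * SS (g * u) : ℕ) : ℝ) ≤ R) : HasPlane F A e (NN (g * u) : ℕ) := by
  have hm4 := (mod4_ne hs).1
  have hm1 : g * u ≠ 1 := by
    intro h
    exact F.n1 ⟨1, by rw [h]⟩
  by_cases h2 : g * u = 2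
  · have e1 : NN (g * u) = 4 := by rw [h2]; rfl
    have e2 : SS (g * u) = 3 := by rw [h2]; rfl
    rw [e1, e2] at hR
    rw [e1]
    push_cast
    exact plane_two F hs hA hM he h2 (by norm_num at hR ⊢; exact hR)
  by_cases h3 : g * u = 3
  · have e1 : NN (g * u) = 6 := by rw [h3]; rfl
    have e2 : SS (g * u) = 2 := by rw [h3]; rfl
    rw [e1, e2] at hR
    rw [e1]
    push_cast
    exact plane_three F hs hA hM he h3 (by norm_num at hR ⊢; exact hR)
  by_cases h10 : g * u = 10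
  · have e1 : NN (g * u) = 7 := by rw [h10]; rfl
    have e2 : SS (g * u) = 2 := by rw [h10]; rfl
    rw [e1, e2] at hR
    rw [e1]
    refine plane_gen F hs hA hM he (by omega) (M := 14) (by norm_num at hR ⊢; exact hR)
      (by norm_num) (by norm_num) ?_
    intro p q w t k1 k2 k3 k4
    rw [h10] at k1 k3 k4
    exact ntD (p := p) (q := q) (r := w) (t := t) (by push_cast at k1; linarith) k2 k3 k4
  have e1 : NN (g * u) = 5 := by simp [NN, h2, h3, h10]
  have e2 : SS (g * u) = 2 := by simp [SS, h2]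
  rw [e1, e2] at hR
  rw [e1]
  by_cases h5 : g * u = 5
  · push_cast
    exact plane_five F hs hA hM he h5 (by norm_num at hR ⊢; exact hR)
  refine plane_gen F hs hA hM he (by omega) (M := 10) (by norm_num at hR ⊢; exact hR)
    (by norm_num) (by norm_num) ?_
  intro p q w t k1 k2 k3 k4
  exact ntB hm4 (by omega) h10 (p := p) (q := q) (r := w) (t := t) (by push_cast at k1 ⊢; linarith)
    k2 k3 k4

/-- `SS` is not a square in the subfield -/
theorem nonsq (F : Fld K (g * u) (g * v) (u * v) g) (hs : Squarefree (g * u * v)) (k : K)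
    (hk : InF F k) : k ^ 2 ≠ ((SS (g * u) : ℕ) : K) := by
  intro h
  have hint : IsIntegral ℤ k := by
    refine ⟨Polynomial.X ^ 2 - Polynomial.C ((SS (g * u) : ℕ) : ℤ),
      Polynomial.monic_X_pow_sub_C _ (by norm_num), ?_⟩
    simp [h]
  obtain ⟨x, hx⟩ : ∃ x : 𝓞 K, (x : K) = k := ⟨⟨k, hint⟩, rfl⟩
  rw [← hx] at hk h
  obtain ⟨p, q, hpq, hd⟩ := inF_coord F hs hk
  have hab := F.sq1
  have h3 : (((p ^ 2 + (g * u : ℕ) * q ^ 2 - 4 * (SS (g * u) : ℕ) : ℤ)) : K)
      + ((2 * (p * q) : ℤ) : K) * F.a1 = 0 := by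
    push_cast at hab ⊢
    linear_combination 4 * h - (2 * (x : K) + (p + q * F.a1)) * hpq - (q : K) ^ 2 * hab
  obtain ⟨h5, h6⟩ := a1_indep F h3
  have hm1 : g * u ≠ 1 := by
    intro h
    exact F.n1 ⟨1, by rw [h]⟩
  refine ntS (m := g * u) (s := SS (g * u)) (sqf1 hs) hm1 ?_ (p := p) (q := q) (by linarith)
    (by linarith)
  unfold SS
  split_ifs with h2
  · right; exact ⟨rfl, h2⟩
  · left; exact ⟨rfl, h2⟩

end

end BQN
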