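import Pool.Agent.BQN.Snd1
import Pool.Agent.BQN.Core

/-! Link between the checker and the field. -/

namespace BQN

open NumberField BQF Matrix

structure FdOK (f : Fd) (g u v : ℕ) : Prop where
  m1 : f.m1 = ((g * u : ℕ) : ℤ)
  m2 : f.m2 = ((g * v : ℕ) : ℤ)
  m3 : f.m3 = ((u * v : ℕ) : ℤ)
  gg : f.g = (g : ℤ)
  uu : f.u = (u : ℤ)
  vv : f.v = (v : ℤ)
  a1 : (f.q1 : ℝ) ≤ 1024 * √((g * u : ℕ) : ℝ)
  b1 : 1024 * √((g * u : ℕ) : ℝ) ≤ f.q1 + 1
  a2 : (f.q2 : ℝ) ≤ 1024 * √((g * v : ℕ) : ℝ)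
  b2 : 1024 * √((g * v : ℕ) : ℝ) ≤ f.q2 + 1
  a3 : (f.q3 : ℝ) ≤ 1024 * √((u * v : ℕ) : ℝ)
  b3 : 1024 * √((u * v : ℕ) : ℝ) ≤ f.q3 + 1
  p1 : 1 ≤ f.q1
  p2 : 1 ≤ f.q2
  p3 : 1 ≤ f.q3
  i1 : f.i1 = true ↔ (g * u) % 4 = 1
  i2 : f.i2 = true ↔ (g * v) % 4 = 1
  i3 : f.i3 = true ↔ (u * v) % 4 = 1

section
variable {K : Type*} [Field K] [NumberField K] {g u v : ℕ}

/-- the element of `K` with coordinates `a` -/
def el (F : Fld K (g * u) (g * v) (u * v) g) (a : V) : K :=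
  a.x0 + a.x1 * F.a1 + a.x2 * F.a2 + a.x3 * F.a3

variable (F : Fld K (g * u) (g * v) (u * v) g)

theorem mul13 : F.a1 * F.a3 = u * F.a2 := by
  have hg : (g : K) ≠ 0 := by exact_mod_cast F.gpos.ne'
  apply mul_left_cancel₀ hg
  have h1 := F.sq1
  have h2 := F.mul12
  push_cast at h1
  linear_combination -F.a1 * h2 + F.a2 * h1

theorem mul23 : F.a2 * F.a3 = v * F.a1 := by
  have hg : (g : K) ≠ 0 := by exact_mod_cast F.gpos.ne'
  apply mul_left_cancel₀ hg
  have h1 := F.sq2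
  have h2 := F.mul12
  push_cast at h1
  linear_combination -F.a2 * h2 + F.a1 * h1

theorem el_smul (k : ℤ) (a : V) : el F (V.smul k a) = k * el F a := by
  simp only [el, V.smul, imul]
  push_cast
  ring

theorem el_add (a b : V) : el F (V.add a b) = el F a + el F b := by
  simp only [el, V.add, iadd]
  push_cast
  ring

theorem el_sub (a b : V) : el F (V.sub a b) = el F a - el F b := by
  simp only [el, V.sub, isub]
  push_cast
  ring

theorem el_mul {f : Fd} (hf : FdOK f g u v) (a b : V) :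
    el F (V.mul f a b) = el F a * el F b := by
  have h1 := F.sq1
  have h2 := F.sq2
  have h3 := F.sq3
  have h4 := F.mul12
  have h5 := mul13 F
  have h6 := mul23 F
  simp only [el, V.mul, iadd, imul, hf.m1, hf.m2, hf.m3, hf.gg, hf.uu, hf.vv]
  push_cast at h1 h2 h3 ⊢
  linear_combination (-(a.x1 * b.x1) : K) * h1 - (a.x2 * b.x2 : K) * h2 - (a.x3 * b.x3 : K) * h3
    - (a.x1 * b.x2 + a.x2 * b.x1 : K) * h4 - (a.x1 * b.x3 + a.x3 * b.x1 : K) * h5
    - (a.x2 * b.x3 + a.x3 * b.x2 : K) * h6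

theorem isRat_iff (a : V) : a.isRat = true ↔ a.x1 = 0 ∧ a.x2 = 0 ∧ a.x3 = 0 := by
  unfold V.isRat
  simp only [Bool.and_eq_true, isZ_iff, and_assoc]

theorem el_mulq {f : Fd} (hf : FdOK f g u v) (a b : V) :
    el F (V.mulq f a b) = el F a * el F b := by
  unfold V.mulq
  cases ha : a.isRat
  · cases hb : b.isRat
    · simp only [cond_false]
      exact el_mul F hf a b
    · simp only [cond_false, cond_true]
      obtain ⟨h1, h2, h3⟩ := (isRat_iff b).mp hb
      rw [el_smul]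
      have : el F b = b.x0 := by simp [el, h1, h2, h3]
      rw [this]; ring
  · simp only [cond_true]
    obtain ⟨h1, h2, h3⟩ := (isRat_iff a).mp ha
    rw [el_smul]
    have : el F a = a.x0 := by simp [el, h1, h2, h3]
    rw [this]

theorem el_val (a : V) (i j : Bool) : F.s i j (el F a) = a.x0
    + a.x1 * (sg i * √((g * u : ℕ) : ℝ)) + a.x2 * (sg j * √((g * v : ℕ) : ℝ))
    + a.x3 * (sg i * sg j * √((u * v : ℕ) : ℝ)) := by
  simp only [el, map_add, map_mul, map_intCast, F.s1, F.s2, F.s3]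

theorem el_inj {a b : V} (h : el F a = el F b) : a = b := by
  have n12 : ¬ IsSquare ((g * u) * (g * v)) := by
    rintro ⟨k, hk⟩
    apply F.n3
    have hg := F.gpos
    have e : g * g * (u * v) = k * k := by rw [← hk]; ring
    have hdvd : g ∣ k := by
      have : g ^ 2 ∣ k ^ 2 := ⟨u * v, by rw [sq, sq]; exact e.symm⟩
      exact (Nat.pow_dvd_pow_iff (by norm_num)).mp this
    obtain ⟨d, rfl⟩ := hdvd
    refine ⟨d, ?_⟩
    have : g * g * (u * v) = g * g * (d * d) := by rw [e]; ring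
    exact Nat.eq_of_mul_eq_mul_left (Nat.mul_pos hg hg) this
  have hg : (g : K) ≠ 0 := by exact_mod_cast F.gpos.ne'
  have h4 := F.mul12
  have key := indep4 (K := K) F.n1 F.n2 n12 F.sq1 F.sq2 (x := ((a.x0 - b.x0 : ℤ) : ℚ))
    (y := ((a.x1 - b.x1 : ℤ) : ℚ)) (z := ((a.x2 - b.x2 : ℤ) : ℚ))
    (w := ((a.x3 - b.x3 : ℤ) : ℚ) / g) (by
      simp only [el] at h
      push_cast
      have e : F.a3 = F.a1 * F.a2 / g := by rw [h4]; field_simp
      rw [e] at h
      field_simp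
      field_simp at h
      linear_combination h)
  obtain ⟨k0, k1, k2, k3⟩ := key
  have hgq : (g : ℚ) ≠ 0 := by exact_mod_cast F.gpos.ne'
  have k3' : ((a.x3 - b.x3 : ℤ) : ℚ) = 0 := by
    rcases div_eq_zero_iff.mp k3 with h | h
    · exact h
    · exact absurd h hgq
  have e0 : a.x0 - b.x0 = 0 := by exact_mod_cast k0
  have e1 : a.x1 - b.x1 = 0 := by exact_mod_cast k1
  have e2 : a.x2 - b.x2 = 0 := by exact_mod_cast k2
  have e3 : a.x3 - b.x3 = 0 := by exact_mod_cast k3'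
  cases a
  cases b
  simp only at e0 e1 e2 e3
  simp only [V.mk.injEq]
  omega

theorem isZero_iff (a : V) : a.isZero = true ↔ a = ⟨0, 0, 0, 0⟩ := by
  unfold V.isZero
  simp only [Bool.and_eq_true, isZ_iff, and_assoc]
  cases a
  simp

theorem el_zero {a : V} (h : el F a = 0) : a.isZero = true := by
  rw [isZero_iff]
  apply el_inj F
  rw [h]
  simp [el]

end

end BQN
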