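import Pool.Agent.BQN.Snd2

/-! Completeness of the candidate lists. -/

namespace BQN

open NumberField BQF Matrix

section
variable {K : Type*} [Field K] [NumberField K] {g u v : ℕ}
variable (F : Fld K (g * u) (g * v) (u * v) g)

/-- the four bounds -/
def VS.r (s : VS) (i j : Bool) : ℕ :=
  match i, j with
  | true, true => s.ra
  | true, false => s.rb
  | false, true => s.rc
  | false, false => s.rd

/-- the bounds are correct -/
def VSok (s : VS) : Prop := ∀ i j, 0 ≤ F.s i j (el F s.v) ∧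
  1024 ^ 2 * F.s i j (el F s.v) ≤ (s.r i j : ℝ) ^ 2

theorem approx {q : ℕ} {r : ℝ} (h1 : (q : ℝ) ≤ r) (h2 : r ≤ q + 1) (x : ℤ) :
    (x : ℝ) * r ≤ x * q + |(x : ℝ)| ∧ (x : ℝ) * q - |(x : ℝ)| ≤ x * r := by
  rcases abs_cases (x : ℝ) with ⟨h, h'⟩ | ⟨h, h'⟩ <;> rw [h] <;> constructor <;> nlinarith

/-- the values at the embeddings with abstract square roots -/
theorem emb {f : Fd} (hf : FdOK f g u v) : ∃ r1 r2 r3 : ℝ,
    ((f.q1 : ℝ) ≤ 1024 * r1 ∧ 1024 * r1 ≤ f.q1 + 1) ∧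
    ((f.q2 : ℝ) ≤ 1024 * r2 ∧ 1024 * r2 ≤ f.q2 + 1) ∧
    ((f.q3 : ℝ) ≤ 1024 * r3 ∧ 1024 * r3 ≤ f.q3 + 1) ∧ ∀ (a : V) (i j : Bool),
    F.s i j (el F a) = a.x0 + a.x1 * (sg i * r1) + a.x2 * (sg j * r2)
      + a.x3 * (sg i * sg j * r3) :=
  ⟨_, _, _, ⟨hf.a1, hf.b1⟩, ⟨hf.a2, hf.b2⟩, ⟨hf.a3, hf.b3⟩, fun a i j => el_val F a i j⟩

theorem natAbs_cast (x : ℤ) : ((x.natAbs : ℤ) : ℝ) = |(x : ℝ)| := by
  rw [Int.natCast_natAbs, Int.cast_abs]

theorem sqrtUp_real {x : ℝ} {a : ℤ} (ha : 0 ≤ a) (h : 1024 * x ≤ a) :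
    1024 ^ 2 * x ≤ ((sqrtUp (1024 * a.toNat) : ℕ) : ℝ) ^ 2 := by
  have h1 := sqrtUp_spec (1024 * a.toNat)
  have h2 : ((1024 * a.toNat : ℕ) : ℝ) ≤ ((sqrtUp (1024 * a.toNat) : ℕ) : ℝ) ^ 2 := by
    rw [sq]; exact_mod_cast h1
  have h3 : ((a.toNat : ℕ) : ℝ) = a := by
    have : ((a.toNat : ℕ) : ℤ) = a := Int.toNat_of_nonneg ha
    exact_mod_cast this
  push_cast at h2
  rw [h3] at h2
  linarith

theorem mkVS_spec {f : Fd} (hf : FdOK f g u v) {t : V} {k : VS → Bool} (h : mkVS f t k = true)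
    (hpos : ∀ i j, 0 ≤ F.s i j (el F t)) : ∃ s : VS, s.v = t ∧ VSok F s ∧ k s = true := by
  unfold mkVS at h
  simp only [fV_eq, fI_eq, fN_eq, iadd, isub, imul, iof, nadd, nmul] at h
  obtain ⟨r1, r2, r3, ⟨a1, b1⟩, ⟨a2, b2⟩, ⟨a3, b3⟩, hv⟩ := emb F hf
  have ett := hv t true true
  have etf := hv t true false
  have eft := hv t false true
  have eff := hv t false false
  have ptt := hpos true true
  have ptf := hpos true false
  have pft := hpos false true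
  have pff := hpos false false
  simp only [sg_true, sg_false] at ett etf eft eff
  obtain ⟨u1, l1⟩ := approx a1 b1 t.x1
  obtain ⟨u2, l2⟩ := approx a2 b2 t.x2
  obtain ⟨u3, l3⟩ := approx a3 b3 t.x3
  have c1 := natAbs_cast t.x1
  have c2 := natAbs_cast t.x2
  have c3 := natAbs_cast t.x3
  generalize hE : ((t.x1.natAbs + t.x2.natAbs + t.x3.natAbs : ℕ) : ℤ) = e at h
  have hEr : (e : ℝ) = |(t.x1 : ℝ)| + |(t.x2 : ℝ)| + |(t.x3 : ℝ)| := by
    rw [← hE, ← c1, ← c2, ← c3]; push_cast; ring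
  generalize hA : 1024 * t.x0 + e + t.x1 * (f.q1 : ℤ) + (t.x2 * (f.q2 : ℤ) + t.x3 * (f.q3 : ℤ)) = A at h
  generalize hB : 1024 * t.x0 + e + t.x1 * (f.q1 : ℤ) - (t.x2 * (f.q2 : ℤ) + t.x3 * (f.q3 : ℤ)) = B at h
  generalize hC : 1024 * t.x0 + e - t.x1 * (f.q1 : ℤ) + (t.x2 * (f.q2 : ℤ) - t.x3 * (f.q3 : ℤ)) = C at h
  generalize hD : 1024 * t.x0 + e - t.x1 * (f.q1 : ℤ) - (t.x2 * (f.q2 : ℤ) - t.x3 * (f.q3 : ℤ)) = D' at h
  have rA : 1024 * F.s true true (el F t) ≤ (A : ℝ) := by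
    rw [ett, ← hA]; push_cast; rw [hEr]; linarith
  have rB : 1024 * F.s true false (el F t) ≤ (B : ℝ) := by
    rw [etf, ← hB]; push_cast; rw [hEr]; linarith
  have rC : 1024 * F.s false true (el F t) ≤ (C : ℝ) := by
    rw [eft, ← hC]; push_cast; rw [hEr]; linarith
  have rD : 1024 * F.s false false (el F t) ≤ (D' : ℝ) := by
    rw [eff, ← hD]; push_cast; rw [hEr]; linarith
  have nA : 0 ≤ A := by
    have : (0 : ℝ) ≤ A := by linarith
    exact_mod_cast this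
  have nB : 0 ≤ B := by
    have : (0 : ℝ) ≤ B := by linarith
    exact_mod_cast this
  have nC : 0 ≤ C := by
    have : (0 : ℝ) ≤ C := by linarith
    exact_mod_cast this
  have nD : 0 ≤ D' := by
    have : (0 : ℝ) ≤ D' := by linarith
    exact_mod_cast this
  have hc : (leI 0 A && leI 0 B && leI 0 C && leI 0 D') = true := by
    simp only [Bool.and_eq_true, leI_iff]
    exact ⟨⟨⟨nA, nB⟩, nC⟩, nD⟩
  rw [hc] at h
  simp only [cond_true] at h
  refine ⟨_, rfl, ?_, h⟩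
  intro i j
  cases i <;> cases j
  · exact ⟨pff, sqrtUp_real nD rD⟩
  · exact ⟨pft, sqrtUp_real nC rC⟩
  · exact ⟨ptf, sqrtUp_real nB rB⟩
  · exact ⟨ptt, sqrtUp_real nA rA⟩

/-- bound for a product -/
theorem prod_bound {a b S T y : ℝ} (ha : 0 ≤ a) (hb : 0 ≤ b) (_hS : 0 ≤ S) (hT : 0 ≤ T)
    (h1 : 1024 ^ 2 * S ≤ a ^ 2) (h2 : 1024 ^ 2 * T ≤ b ^ 2) (hy : 16 * y ^ 2 ≤ S * T) :
    1024 * |y| ≤ a * b / 4096 := by
  have h3 : (1024 ^ 2 * S) * (1024 ^ 2 * T) ≤ a ^ 2 * b ^ 2 :=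
    mul_le_mul h1 h2 (by positivity) (by positivity)
  have h4 : (1024 * 4096 * |y|) ^ 2 ≤ (a * b) ^ 2 := by
    rw [mul_pow, sq_abs]
    nlinarith
  have h5 : 1024 * 4096 * |y| ≤ a * b :=
    (pow_le_pow_iff_left₀ (by positivity) (by positivity) two_ne_zero).mp h4
  linarith

theorem floor_bound (n : ℕ) : (n : ℝ) / 4096 ≤ ((n / 4096 + 1 : ℕ) : ℝ) := by
  have h1 := Nat.div_add_mod n 4096
  have h2 := Nat.mod_lt n (by norm_num : 4096 > 0)
  have h3 : n ≤ 4096 * (n / 4096 + 1) := by omega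
  have h4 : (n : ℝ) ≤ 4096 * ((n / 4096 + 1 : ℕ) : ℝ) := by exact_mod_cast h3
  linarith

theorem cands_mem {f : Fd} (hf : FdOK f g u v) {s t : VS} (hs : VSok F s) (ht : VSok F t)
    {Y : V} (hY : ∀ i j, 16 * (F.s i j (el F Y)) ^ 2 ≤ F.s i j (el F s.v) * F.s i j (el F t.v))
    (hp : Par f Y.x0 Y.x1 Y.x2 Y.x3) (hi : integ f Y = true) : Y ∈ cands f s t := by
  unfold cands
  simp only [fN_eq, nadd, nmul, ndiv]
  rw [mem_flt]
  refine ⟨?_, hi⟩
  have key : ∀ i j, |F.s i j (el F Y)| ≤ ((s.r i j * t.r i j / 4096 + 1 : ℕ) : ℝ) / 1024 := by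
    intro i j
    rw [le_div_iff₀ (by norm_num), mul_comm]
    refine (prod_bound (Nat.cast_nonneg _) (Nat.cast_nonneg _) (hs i j).1 (ht i j).1 (hs i j).2
      (ht i j).2 (hY i j)).trans ?_
    have := floor_bound (s.r i j * t.r i j)
    push_cast at this ⊢
    exact this
  have ktt := key true true
  have ktf := key true false
  have kft := key false true
  have kff := key false false
  simp only [VS.r] at ktt ktf kft kff
  obtain ⟨r1, r2, r3, ⟨a1, b1⟩, ⟨a2, b2⟩, ⟨a3, b3⟩, hv⟩ := emb F hf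
  rw [hv] at ktt ktf kft kff
  simp only [sg_true, sg_false] at ktt ktf kft kff
  generalize s.ra * t.ra / 4096 + 1 = Ra at *
  generalize s.rb * t.rb / 4096 + 1 = Rb at *
  generalize s.rc * t.rc / 4096 + 1 = Rc at *
  generalize s.rd * t.rd / 4096 + 1 = Rd at *
  obtain ⟨x0, x1, x2, x3⟩ := Y
  simp only at ktt ktf kft kff hp
  obtain ⟨u1, l1⟩ := approx a1 b1 x1
  obtain ⟨u2, l2⟩ := approx a2 b2 x2
  obtain ⟨u3, l3⟩ := approx a3 b3 x3
  have n1 : (0 : ℝ) ≤ f.q1 := Nat.cast_nonneg _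
  have n2 : (0 : ℝ) ≤ f.q2 := Nat.cast_nonneg _
  have n3 : (0 : ℝ) ≤ f.q3 := Nat.cast_nonneg _
  have ktt' := abs_le.mp ktt
  have ktf' := abs_le.mp ktf
  have kft' := abs_le.mp kft
  have kff' := abs_le.mp kff
  have gen : ∀ (x : ℤ) (q : ℕ) (r : ℝ), (q : ℝ) ≤ 1024 * r →
      |(x : ℝ) * (1024 * r) * 4| ≤ Ra + Rb + Rc + Rd → 4 * (|x| * q) ≤ ((Ra : ℤ) + Rb + Rc + Rd) := by
    intro x q r hq h
    have h0 : (0 : ℝ) ≤ q := Nat.cast_nonneg _
    rw [abs_mul, abs_mul, abs_of_nonneg (show (0 : ℝ) ≤ 1024 * r by linarith),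
      abs_of_nonneg (show (0 : ℝ) ≤ 4 by norm_num)] at h
    have h1 : |(x : ℝ)| * q ≤ |(x : ℝ)| * (1024 * r) :=
      mul_le_mul_of_nonneg_left hq (abs_nonneg _)
    have h2 : 4 * (|(x : ℝ)| * q) ≤ Ra + Rb + Rc + Rd := by linarith
    exact_mod_cast h2
  apply cand_mem hf.p1 hf.p2 hf.p3
  · have : |((1024 * x0 + x1 * f.q1 + (x2 * f.q2 + x3 * f.q3) : ℤ) : ℝ)|
        ≤ ((Ra + (|x1| + |x2| + |x3|) : ℤ) : ℝ) := by
      push_cast
      rw [abs_le]; constructor <;> linarith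
    exact_mod_cast this
  · have : |((1024 * x0 + x1 * f.q1 - (x2 * f.q2 + x3 * f.q3) : ℤ) : ℝ)|
        ≤ ((Rb + (|x1| + |x2| + |x3|) : ℤ) : ℝ) := by
      push_cast
      rw [abs_le]; constructor <;> linarith
    exact_mod_cast this
  · have : |((1024 * x0 - x1 * f.q1 + (x2 * f.q2 - x3 * f.q3) : ℤ) : ℝ)|
        ≤ ((Rc + (|x1| + |x2| + |x3|) : ℤ) : ℝ) := by
      push_cast
      rw [abs_le]; constructor <;> linarith
    exact_mod_cast this
  · have : |((1024 * x0 - x1 * f.q1 - (x2 * f.q2 - x3 * f.q3) : ℤ) : ℝ)|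
        ≤ ((Rd + (|x1| + |x2| + |x3|) : ℤ) : ℝ) := by
      push_cast
      rw [abs_le]; constructor <;> linarith
    exact_mod_cast this
  · exact gen x1 f.q1 r1 a1 (by rw [abs_le]; constructor <;> linarith)
  · exact gen x2 f.q2 r2 a2 (by rw [abs_le]; constructor <;> linarith)
  · exact gen x3 f.q3 r3 a3 (by rw [abs_le]; constructor <;> linarith)
  · exact hp

theorem integ1_iff (i1 : Bool) (m1 m2 m3 v x0 x1 x2 x3 : ℤ) :
    integ1 i1 m1 m2 m3 v x0 x1 x2 x3 = true ↔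
      (if i1 = true then (8 : ℤ) ∣ x0 * x0 + m1 * (x1 * x1) - (m2 * (x2 * x2) + m3 * (x3 * x3)) ∧
        (8 : ℤ) ∣ 2 * (x0 * x1 - v * (x2 * x3)) ∧
        (16 : ℤ) ∣ x0 * x0 + m1 * (x1 * x1) - (m2 * (x2 * x2) + m3 * (x3 * x3))
          - 2 * (x0 * x1 - v * (x2 * x3))
      else (16 : ℤ) ∣ x0 * x0 + m1 * (x1 * x1) - (m2 * (x2 * x2) + m3 * (x3 * x3)) ∧
        (16 : ℤ) ∣ 2 * (x0 * x1 - v * (x2 * x3))) := by
  unfold integ1
  simp only [fI_eq, iadd, isub, imul, iemod]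
  cases i1
  · simp only [cond_false, Bool.and_eq_true, isZ_iff, Bool.false_eq_true, if_false,
      Int.dvd_iff_emod_eq_zero]
  · simp only [cond_true, Bool.and_eq_true, isZ_iff, if_true, Int.dvd_iff_emod_eq_zero, and_assoc]

/-- from the divisibility facts to the test -/
theorem integ1_of {i1 : Bool} {m : ℕ} {m1 m2 m3 v x0 x1 x2 x3 : ℤ} (hm : m1 = (m : ℤ))
    (h4 : m % 4 ≠ 0) (hi : i1 = true ↔ m % 4 = 1)
    (h : ∃ p q : ℤ, x0 ^ 2 + m * x1 ^ 2 - m2 * x2 ^ 2 - m3 * x3 ^ 2 = 8 * p ∧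
      2 * (x0 * x1 - v * x2 * x3) = 8 * q ∧ (4 : ℤ) ∣ p ^ 2 - m * q ^ 2) :
    integ1 i1 m1 m2 m3 v x0 x1 x2 x3 = true := by
  obtain ⟨p, q, h1, h2, h3⟩ := h
  obtain ⟨k1, k2⟩ := par1 h4 h3
  rw [integ1_iff, hm]
  have e1 : x0 * x0 + (m : ℤ) * (x1 * x1) - (m2 * (x2 * x2) + m3 * (x3 * x3)) = 8 * p := by
    linarith
  have e2 : 2 * (x0 * x1 - v * (x2 * x3)) = 8 * q := by linarith
  rw [e1, e2]
  split_ifs with hc
  · have := k1 (hi.mp hc)
    omega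
  · have := k2 fun h => hc (hi.mpr h)
    omega

theorem coords_ok {f : Fd} (hf : FdOK f g u v) (hs : Squarefree (g * u * v)) (c : 𝓞 K) :
    ∃ Y : V, el F Y = 4 * (c : K) ∧ Par f Y.x0 Y.x1 Y.x2 Y.x3 ∧ integ f Y = true := by
  obtain ⟨X0, X1, X2, X3, hX, hI⟩ := intX F hs c
  obtain ⟨z1, z2, z3⟩ := mod4_ne hs
  refine ⟨⟨X0, X1, X2, X3⟩, hX.symm, ?_, ?_⟩
  · obtain ⟨a1, b1⟩ := par1 z1 hI.t1
    obtain ⟨a2, b2⟩ := par1 z2 hI.t2
    obtain ⟨a3, b3⟩ := par1 z3 hI.t3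
    show Par f X0 X1 X2 X3
    unfold Par
    by_cases c1 : (g * u) % 4 = 1
    · by_cases c2 : (g * v) % 4 = 1
      · by_cases c3 : (u * v) % 4 = 1
        · have e : (f.i1 && f.i2 && f.i3) = true := by
            rw [hf.i1.mpr c1, hf.i2.mpr c2, hf.i3.mpr c3]; rfl
          have := a1 c1
          have := a2 c2
          have := a3 c3
          rcases Int.emod_two_eq_zero_or_one X0 with h | h
          · left; omega
          · right; exact ⟨e, by omega, by omega, by omega, by omega⟩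
        · left
          have := a1 c1
          have := a2 c2
          have := b3 c3
          omega
      · left
        have := a1 c1
        have := b2 c2
        by_cases c3 : (u * v) % 4 = 1
        · have := a3 c3; omega
        · have := b3 c3; omega
    · left
      have := b1 c1
      by_cases c2 : (g * v) % 4 = 1
      · have := a2 c2
        by_cases c3 : (u * v) % 4 = 1
        · have := a3 c3; omega
        · have := b3 c3; omega
      · have := b2 c2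
        by_cases c3 : (u * v) % 4 = 1
        · have := a3 c3; omega
        · have := b3 c3; omega
  · unfold integ
    simp only [fV_eq, Bool.and_eq_true]
    refine ⟨⟨?_, ?_⟩, ?_⟩
    · apply integ1_of hf.m1 z1 hf.i1
      rw [hf.m2, hf.m3, hf.vv]
      exact hI.n1
    · apply integ1_of hf.m2 z2 hf.i2
      rw [hf.m1, hf.m3, hf.uu]
      exact hI.n2
    · apply integ1_of hf.m3 z3 hf.i3
      rw [hf.m1, hf.m2, hf.gg]
      exact hI.n3

end

end BQN
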