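import Pool.Agent.BQN.Snd3

/-! Soundness of the checker. -/

namespace BQN

open NumberField BQF Matrix

section
variable {K : Type*} [Field K] [NumberField K] {g u v : ℕ}
variable (F : Fld K (g * u) (g * v) (u * v) g)

omit [NumberField K] in
theorem int_half [CharZero K] {a : K} {m : ℕ} (ha : a ^ 2 = m) {p q : ℤ}
    (h : (4 : ℤ) ∣ p ^ 2 - m * q ^ 2) : IsIntegral ℤ (((p : K) + q * a) / 2) := by
  obtain ⟨n, hn⟩ := h
  refine ⟨Polynomial.X ^ 2 - (Polynomial.C (p : ℤ) * Polynomial.X - Polynomial.C (n : ℤ)), ?_, ?_⟩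
  · monicity!
  · have h4 : (p : K) ^ 2 - m * q ^ 2 = 4 * n := by exact_mod_cast congrArg (fun n : ℤ => (n : K)) hn
    rw [Polynomial.eval₂_sub, Polynomial.eval₂_sub, Polynomial.eval₂_mul, Polynomial.eval₂_pow,
      Polynomial.eval₂_C, Polynomial.eval₂_C, Polynomial.eval₂_X, eq_intCast, eq_intCast]
    field_simp
    linear_combination (q : K) ^ 2 * ha - h4

omit [NumberField K] in
theorem int_of_quad {x T N : K} (hT : IsIntegral ℤ T) (hN : IsIntegral ℤ N)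
    (h : x ^ 2 = T * x - N) : IsIntegral ℤ x := by
  obtain ⟨T', hT'⟩ : ∃ t : 𝓞 K, (t : K) = T := ⟨⟨T, hT⟩, rfl⟩
  obtain ⟨N', hN'⟩ : ∃ t : 𝓞 K, (t : K) = N := ⟨⟨N, hN⟩, rfl⟩
  have h1 : IsIntegral (𝓞 K) x := by
    refine ⟨Polynomial.X ^ 2 - (Polynomial.C T' * Polynomial.X - Polynomial.C N'), ?_, ?_⟩
    · monicity!
    · rw [Polynomial.eval₂_sub, Polynomial.eval₂_sub, Polynomial.eval₂_mul, Polynomial.eval₂_pow,
        Polynomial.eval₂_C, Polynomial.eval₂_C, Polynomial.eval₂_X]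
      show x ^ 2 - ((T' : K) * x - (N' : K)) = 0
      rw [h, hT', hN']; ring
  exact isIntegral_trans (R := ℤ) (A := 𝓞 K) x h1

theorem okel_spec {f : Fd} (hf : FdOK f g u v) {a : V} (h : okel f a = true) :
    IsIntegral ℤ (el F a / 4) ∧ ∀ i j, 0 < F.s i j (el F a) := by
  unfold okel at h
  simp only [fV_eq, fI_eq, iadd, isub, imul, iof, nadd, iemod, Bool.and_eq_true, leI_iff] at h
  obtain ⟨⟨⟨⟨⟨h1, h2⟩, h3⟩, h4⟩, h5⟩, h6⟩ := h
  constructor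
  · rw [integ1_iff] at h6
    rw [hf.m1, hf.m2, hf.m3, hf.vv] at h6
    have e1 := F.sq1
    have e2 := F.sq2
    have e3 := F.sq3
    have e4 := mul23 F
    have key : ∃ p q : ℤ, a.x0 ^ 2 + (g * u : ℕ) * a.x1 ^ 2 - (g * v : ℕ) * a.x2 ^ 2
        - (u * v : ℕ) * a.x3 ^ 2 = 8 * p ∧ 2 * (a.x0 * a.x1 - v * a.x2 * a.x3) = 8 * q ∧
        (4 : ℤ) ∣ p ^ 2 - (g * u : ℕ) * q ^ 2 ∧ (4 : ℤ) ∣ a.x0 ^ 2 - (g * u : ℕ) * a.x1 ^ 2 := by
      by_cases hi : (g * u) % 4 = 1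
      · have hi' := hf.i1.mpr hi
        rw [hi'] at h5 h6
        simp only [cond_true, isZ_iff, if_true] at h5 h6
        obtain ⟨⟨p, hp⟩, ⟨q, hq⟩, h9⟩ := h6
        rw [hp, hq] at h9
        obtain ⟨k, hk⟩ : ∃ k, p = q + 2 * k := ⟨(p - q) / 2, by omega⟩
        obtain ⟨l, hl⟩ : ∃ l : ℤ, ((g * u : ℕ) : ℤ) = 4 * l + 1 := ⟨((g * u : ℕ) : ℤ) / 4, by omega⟩
        obtain ⟨n, hn⟩ : ∃ n, a.x0 = a.x1 + 2 * n := ⟨(a.x0 - a.x1) / 2, by omega⟩
        refine ⟨p, q, by linarith, by linarith, ?_, ?_⟩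
        · rw [hl, hk]
          exact ⟨k * q + k ^ 2 - l * q ^ 2, by ring⟩
        · rw [hl, hn]
          exact ⟨n * a.x1 + n ^ 2 - l * a.x1 ^ 2, by ring⟩
      · have hi' : f.i1 = false := by
          rw [← Bool.not_eq_true]
          exact fun h => hi (hf.i1.mp h)
        rw [hi'] at h5 h6
        simp only [cond_false, Bool.and_eq_true, isZ_iff, Bool.false_eq_true, if_false] at h5 h6
        obtain ⟨⟨p, hp⟩, ⟨q, hq⟩⟩ := h6
        obtain ⟨k, hk⟩ : ∃ k, a.x0 = 2 * k := ⟨a.x0 / 2, by omega⟩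
        obtain ⟨l, hl⟩ : ∃ l, a.x1 = 2 * l := ⟨a.x1 / 2, by omega⟩
        refine ⟨2 * p, 2 * q, by linarith, by linarith, ?_, ?_⟩
        · exact ⟨p ^ 2 - (g * u : ℕ) * q ^ 2, by ring⟩
        · rw [hk, hl]
          exact ⟨k ^ 2 - (g * u : ℕ) * l ^ 2, by ring⟩
    obtain ⟨p, q, hp, hq, hd1, hd2⟩ := key
    refine int_of_quad (int_half F.sq1 hd2) (int_half F.sq1 hd1) ?_
    have hp' : (a.x0 : K) ^ 2 + (g * u : ℕ) * a.x1 ^ 2 - (g * v : ℕ) * a.x2 ^ 2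
        - (u * v : ℕ) * a.x3 ^ 2 = 8 * p := by exact_mod_cast congrArg (fun n : ℤ => (n : K)) hp
    have hq' : (2 : K) * (a.x0 * a.x1 - v * a.x2 * a.x3) = 8 * q := by
      exact_mod_cast congrArg (fun n : ℤ => (n : K)) hq
    simp only [el]
    push_cast at e1 e2 e3 hp' hq' ⊢
    field_simp
    linear_combination (-2 * (a.x1 : K) ^ 2) * e1 + (2 * (a.x2 : K) ^ 2) * e2
      + (2 * (a.x3 : K) ^ 2) * e3 + (4 * (a.x2 : K) * a.x3) * e4 - 2 * hp' - 2 * F.a1 * hq'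
  · obtain ⟨r1, r2, r3, ⟨a1, b1⟩, ⟨a2, b2⟩, ⟨a3, b3⟩, hv⟩ := emb F hf
    obtain ⟨u1, l1⟩ := approx a1 b1 a.x1
    obtain ⟨u2, l2⟩ := approx a2 b2 a.x2
    obtain ⟨u3, l3⟩ := approx a3 b3 a.x3
    have c1 := natAbs_cast a.x1
    have c2 := natAbs_cast a.x2
    have c3 := natAbs_cast a.x3
    generalize hE : ((a.x1.natAbs + a.x2.natAbs + a.x3.natAbs : ℕ) : ℤ) = e at h1 h2 h3 h4
    have hEr : (e : ℝ) = |(a.x1 : ℝ)| + |(a.x2 : ℝ)| + |(a.x3 : ℝ)| := by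
      rw [← hE, ← c1, ← c2, ← c3]; push_cast; ring
    have h1' : (1 : ℝ) ≤ 1024 * a.x0 - e + a.x1 * f.q1 + (a.x2 * f.q2 + a.x3 * f.q3) := by
      exact_mod_cast h1
    have h2' : (1 : ℝ) ≤ 1024 * a.x0 - e + a.x1 * f.q1 - (a.x2 * f.q2 + a.x3 * f.q3) := by
      exact_mod_cast h2
    have h3' : (1 : ℝ) ≤ 1024 * a.x0 - e - a.x1 * f.q1 + (a.x2 * f.q2 - a.x3 * f.q3) := by
      exact_mod_cast h3
    have h4' : (1 : ℝ) ≤ 1024 * a.x0 - e - a.x1 * f.q1 - (a.x2 * f.q2 - a.x3 * f.q3) := by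
      exact_mod_cast h4
    intro i j
    rw [hv]
    cases i <;> cases j <;> simp only [sg_true, sg_false] <;> linarith

theorem okq_spec {m q : ℕ} (h : okq m q = true) : (q : ℝ) ≤ 1024 * √(m : ℝ) ∧
    1024 * √(m : ℝ) ≤ q + 1 ∧ 1 ≤ q := by
  have e : okq m q = (Nat.ble (q * q) (m * 1048576) &&
    Nat.ble (m * 1048576) ((q + 1) * (q + 1)) && Nat.ble 1 q) := rfl
  rw [e] at h
  simp only [Bool.and_eq_true, Nat.ble_eq] at h
  obtain ⟨⟨h1, h2⟩, h3⟩ := h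
  have e : 1024 * √(m : ℝ) = √((m * 1048576 : ℕ) : ℝ) := by
    push_cast
    rw [Real.sqrt_mul (by positivity), show (1048576 : ℝ) = 1024 ^ 2 by norm_num,
      Real.sqrt_sq (by norm_num)]
    ring
  rw [e]
  refine ⟨?_, ?_, h3⟩
  · apply Real.le_sqrt_of_sq_le
    rw [sq]; exact_mod_cast h1
  · rw [Real.sqrt_le_left (by positivity)]
    rw [sq]; exact_mod_cast h2

/-- the field record -/
def mfd (g u v q1 q2 q3 : ℕ) : Fd :=
  ⟨Int.ofNat (g * u), Int.ofNat (g * v), Int.ofNat (u * v), Int.ofNat g, Int.ofNat u, Int.ofNat v,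
    q1, q2, q3, Nat.beq ((g * u) % 4) 1, Nat.beq ((g * v) % 4) 1, Nat.beq ((u * v) % 4) 1⟩

theorem mkFd_eq {g u v : ℕ} {k : Fd → Bool} : mkFd g u v k =
    bif okq (g * u) (isq (Nat.mul (g * u) 1048576)) &&
      okq (g * v) (isq (Nat.mul (g * v) 1048576)) && okq (u * v) (isq (Nat.mul (u * v) 1048576)) then
      k (mfd g u v (isq (Nat.mul (g * u) 1048576)) (isq (Nat.mul (g * v) 1048576))
        (isq (Nat.mul (u * v) 1048576)))
      else false := by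
  unfold mkFd
  simp only [fN_eq]
  rfl

theorem bif_true {c a : Bool} (h : (bif c then a else false) = true) : c = true ∧ a = true := by
  cases c
  · exact absurd h (by simp)
  · exact ⟨rfl, h⟩

theorem mkFd_spec {g u v : ℕ} {k : Fd → Bool} (h : mkFd g u v k = true) :
    ∃ f : Fd, FdOK f g u v ∧ k f = true := by
  rw [mkFd_eq] at h
  obtain ⟨hc, h⟩ := bif_true h
  simp only [Bool.and_eq_true] at hc
  obtain ⟨⟨o1, o2⟩, o3⟩ := hc
  obtain ⟨a1, b1, c1⟩ := okq_spec o1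
  obtain ⟨a2, b2, c2⟩ := okq_spec o2
  obtain ⟨a3, b3, c3⟩ := okq_spec o3
  refine ⟨_, ⟨rfl, rfl, rfl, rfl, rfl, rfl, a1, b1, a2, b2, a3, b3, c1, c2, c3, ?_, ?_, ?_⟩, h⟩
  · simp only [mfd, Nat.beq_eq]
  · simp only [mfd, Nat.beq_eq]
  · simp only [mfd, Nat.beq_eq]

/-- negation of coordinates -/
def V.neg (a : V) : V := ⟨-a.x0, -a.x1, -a.x2, -a.x3⟩

theorem halfPos_or (a : V) : halfPos a = true ∨ halfPos a.neg = true := by
  obtain ⟨x0, x1, x2, x3⟩ := a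
  rcases lt_trichotomy x0 0 with h | h | h
  · right
    obtain ⟨n, hn⟩ : ∃ n : ℕ, -x0 = Int.ofNat (n + 1) := ⟨(-x0 - 1).toNat, by simp; omega⟩
    simp only [V.neg, halfPos, hn]
  · subst h
    rcases lt_trichotomy x1 0 with h | h | h
    · right
      obtain ⟨n, hn⟩ : ∃ n : ℕ, -x1 = Int.ofNat (n + 1) := ⟨(-x1 - 1).toNat, by simp; omega⟩
      simp only [V.neg, halfPos, hn, neg_zero]
    · subst h
      rcases lt_trichotomy x2 0 with h | h | h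
      · right
        obtain ⟨n, hn⟩ : ∃ n : ℕ, -x2 = Int.ofNat (n + 1) := ⟨(-x2 - 1).toNat, by simp; omega⟩
        simp only [V.neg, halfPos, hn, neg_zero]
      · subst h
        rcases le_total 0 x3 with h | h
        · left
          obtain ⟨n, rfl⟩ := Int.eq_ofNat_of_zero_le h
          rfl
        · right
          obtain ⟨n, hn⟩ := Int.eq_ofNat_of_zero_le (show 0 ≤ -x3 by omega)
          simp only [V.neg, hn, neg_zero]
          rfl
      · left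
        obtain ⟨n, hn⟩ : ∃ n : ℕ, x2 = Int.ofNat (n + 1) := ⟨(x2 - 1).toNat, by simp; omega⟩
        rw [hn]; rfl
    · left
      obtain ⟨n, hn⟩ : ∃ n : ℕ, x1 = Int.ofNat (n + 1) := ⟨(x1 - 1).toNat, by simp; omega⟩
      rw [hn]; rfl
  · left
    obtain ⟨n, hn⟩ : ∃ n : ℕ, x0 = Int.ofNat (n + 1) := ⟨(x0 - 1).toNat, by simp; omega⟩
    rw [hn]; rfl

theorem el_neg (a : V) : el F a.neg = - el F a := by
  simp only [el, V.neg]
  push_cast
  ring

/-- normalisation of the sign of a vector -/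
theorem sign_norm {f : Fd} (hf : FdOK f g u v) (hs : Squarefree (g * u * v))
    {A : Matrix (Fin 4) (Fin 4) (𝓞 K)} (w e' : Fin 4 → 𝓞 K) :
    ∃ w' : Fin 4 → 𝓞 K, bil A w' w' = bil A w w ∧ (∀ z, bil A w z = 0 → bil A w' z = 0) ∧
      ∃ Y : V, el F Y = 4 * ((bil A w' e' : 𝓞 K) : K) ∧ Par f Y.x0 Y.x1 Y.x2 Y.x3 ∧
        integ f Y = true ∧ halfPos Y = true := by
  obtain ⟨Y, h1, h2, h3⟩ := coords_ok F hf hs (bil A w e')
  rcases halfPos_or Y with h | h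
  · exact ⟨w, rfl, fun z hz => hz, Y, h1, h2, h3, h⟩
  · obtain ⟨Y', h1', h2', h3'⟩ := coords_ok F hf hs (-(bil A w e'))
    have hY : Y' = Y.neg := by
      apply el_inj F
      rw [h1', el_neg, h1]
      push_cast
      ring
    refine ⟨-w, ?_, ?_, Y', ?_, h2', h3', by rw [hY]; exact h⟩
    · rw [bil_neg_left, bil_neg_right, neg_neg]
    · intro z hz
      rw [bil_neg_left, hz, neg_zero]
    · rw [h1', bil_neg_left]

end

end BQN
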