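import Pool.Agent.BQN.Plane2

/-! No universal quaternary form when the numerical conditions hold. -/

namespace BQN

open NumberField BQF Matrix

section
variable {K : Type*} [Field K] [NumberField K] {g u v : ℕ}

/-- a square root of the discriminant of the second subfield -/
theorem exists_rho (F : Fld K (g * u) (g * v) (u * v) g) :
    ∃ ρ : K, ρ ^ 2 = (D (g * v) : K) ∧ ∀ i j, F.s i j ρ = sg j * √(D (g * v) : ℝ) := by
  unfold D
  split_ifs with h
  · exact ⟨F.a2, F.sq2, fun i j => F.s2 i j⟩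
  · refine ⟨2 * F.a2, ?_, fun i j => ?_⟩
    · rw [mul_pow, F.sq2]; push_cast; ring
    · rw [map_mul, F.s2, map_ofNat]
      have : √((4 * (g * v) : ℕ) : ℝ) = 2 * √((g * v : ℕ) : ℝ) := by
        rw [Nat.cast_mul, Real.sqrt_mul (by norm_num)]
        norm_num
      rw [this]; ring

omit [NumberField K] in
theorem int_beta [CharZero K] {ρ : K} {C N d : ℕ} (h : ρ ^ 2 = (d : K)) (hC : 4 * N + d = C ^ 2) :
    IsIntegral ℤ (((C : K) + ρ) / 2) := by
  refine ⟨Polynomial.X ^ 2 - (Polynomial.C (C : ℤ) * Polynomial.X - Polynomial.C (N : ℤ)), ?_, ?_⟩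
  · monicity!
  · have h4 : (4 : K) * N + d = (C : K) ^ 2 := by exact_mod_cast congrArg (fun n : ℕ => (n : K)) hC
    simp
    field_simp
    linear_combination h + h4

/-- **Theory.** -/
theorem theory (F : Fld K (g * u) (g * v) (u * v) g) (hs : Squarefree (g * u * v))
    {A : Matrix (Fin 4) (Fin 4) (𝓞 K)} (hA : IsUniversal K 4 A) (h23 : D (g * v) ≤ D (u * v))
    {C N : ℕ} (hC : 4 * N + D (g * v) = C ^ 2) (hN : 0 < N) (hNC : N < C)
    (h16 : 16 ≤ D (g * v)) {T : ℝ}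
    (hT : ((NN (g * u) * SS (g * u) : ℕ) : ℝ) * (C + 2 * √(N : ℝ)) ≤ T) (c2 : T < D (g * v))
    (c3 : typ (g * u) (g * v) (u * v) = 2 → 4 * T < D (u * v))
    (c4 : typ (g * u) (g * v) (u * v) = 3 → 4 * T < (√(D (g * u) : ℝ) + √(D (g * v) : ℝ)) ^ 2) :
    False := by
  have s2sq : √(D (g * v) : ℝ) ^ 2 = D (g * v) := Real.sq_sqrt (by positivity)
  have s3sq : √(D (u * v) : ℝ) ^ 2 = D (u * v) := Real.sq_sqrt (by positivity)
  have s1n : 0 ≤ √(D (g * u) : ℝ) := Real.sqrt_nonneg _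
  have s2n : 0 ≤ √(D (g * v) : ℝ) := Real.sqrt_nonneg _
  have s3n : 0 ≤ √(D (u * v) : ℝ) := Real.sqrt_nonneg _
  have hCr : 4 * (N : ℝ) + D (g * v) = (C : ℝ) ^ 2 := by
    exact_mod_cast congrArg (fun n : ℕ => (n : ℝ)) hC
  have hNr : (0 : ℝ) < N := by exact_mod_cast hN
  have hNCr : (N : ℝ) + 1 ≤ C := by exact_mod_cast hNC
  have h16r : (16 : ℝ) ≤ D (g * v) := by exact_mod_cast h16
  obtain ⟨ρ, hρ, vρ⟩ := exists_rho F
  have hs2 : 4 ≤ √(D (g * v) : ℝ) := by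
    rw [Real.le_sqrt (by norm_num) (by positivity)]
    linarith
  set s2 := √(D (g * v) : ℝ) with hs2def
  have hC0 : (0 : ℝ) < C := by linarith
  have hCs : s2 < C := by nlinarith
  have hCs2 : (C : ℝ) - 2 ≤ s2 := by
    by_contra hlt
    push Not at hlt
    nlinarith
  set α : ℝ := (C + s2) / 2 with hα
  set δ : ℝ := (C - s2) / 2 with hδ
  have hδ0 : 0 < δ := by rw [hδ]; linarith
  have hδ1 : δ ≤ 1 := by rw [hδ]; linarith
  have hα4 : 4 ≤ α := by rw [hα]; linarith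
  have hαδ : δ < α := by linarith
  have hprod : α * δ = N := by rw [hα, hδ]; nlinarith
  set κ : ℕ := NN (g * u) * SS (g * u) with hκ
  have hκ4 : 4 * SS (g * u) ≤ κ := by
    rw [hκ]
    apply Nat.mul_le_mul_right
    unfold NN
    split_ifs <;> norm_num
  have hκ4r : 4 * ((SS (g * u) : ℕ) : ℝ) ≤ (κ : ℝ) := by exact_mod_cast hκ4
  have hSS : 1 ≤ SS (g * u) := by unfold SS; split_ifs <;> norm_num
  have hSSr : (1 : ℝ) ≤ ((SS (g * u) : ℕ) : ℝ) := by exact_mod_cast hSS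
  have hκ0 : (0 : ℝ) ≤ κ := by positivity
  set R : ℝ := √(κ : ℝ) * (√α + √δ) with hR
  have hR0 : 0 ≤ R := by positivity
  have hsqN : √α * √δ = √(N : ℝ) := by rw [← Real.sqrt_mul (by linarith), hprod]
  have hR2 : R ^ 2 = κ * (C + 2 * √(N : ℝ)) := by
    rw [hR, mul_pow, Real.sq_sqrt hκ0]
    have e1 : √α ^ 2 = α := Real.sq_sqrt (by linarith)
    have e2 : √δ ^ 2 = δ := Real.sq_sqrt hδ0.le
    have : (√α + √δ) ^ 2 = C + 2 * √(N : ℝ) := by
      rw [← hsqN]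
      have : α + δ = C := by rw [hα, hδ]; ring
      nlinarith
    rw [this]
  have hRT : R ^ 2 ≤ T := by rw [hR2]; exact hT
  have hM : Mem F R := by
    apply mem_of F hs h23
    · exact lt_of_pow_lt_pow_left₀ 2 s2n (by rw [s2sq]; linarith)
    · intro ht
      exact lt_of_pow_lt_pow_left₀ 2 s3n (by rw [s3sq]; have := c3 ht; nlinarith)
    · intro ht
      exact lt_of_pow_lt_pow_left₀ 2 (by positivity) (by have := c4 ht; nlinarith)
  have hsα : 2 ≤ √α := by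
    rw [Real.le_sqrt (by norm_num) (by linarith)]
    linarith
  have hsδ : √δ ≤ 1 := by
    rw [Real.sqrt_le_left (by norm_num)]
    linarith
  have hsδ0 : 0 ≤ √δ := Real.sqrt_nonneg _
  have hκs : 0 ≤ √(κ : ℝ) := Real.sqrt_nonneg _
  have hRp : 2 * √(κ : ℝ) ≤ R := by
    rw [hR]; nlinarith
  obtain ⟨e, he⟩ := hA.univ 1 (by intro τ; simp)
  obtain ⟨x, y, hx, hy, fx, fy, fxy, hd, bx, by'⟩ := plane F hs hA hM he (by exact_mod_cast hRp)
  refine core F hA hM he hx hy fx fy fxy hd bx by' (N := ((NN (g * u) : ℕ) : ℝ)) ?_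
    (β := ⟨((C : K) + ρ) / 2, int_beta hρ hC⟩) (β' := ⟨((C : K) + (-ρ)) / 2, int_beta
      (by rw [neg_sq]; exact hρ) hC⟩) (α := α) (δ := δ) ?_ ?_ ?_ ?_ hδ0 hαδ hSS ?_ ?_
      (nonsq F hs)
  · have : 1 ≤ NN (g * u) := by unfold NN; split_ifs <;> norm_num
    exact_mod_cast this
  · intro i
    show F.s i true (((C : K) + ρ) / 2) = α
    rw [map_div₀, map_add, vρ, map_natCast, map_ofNat, sg_true, one_mul]
  · intro i
    show F.s i false (((C : K) + ρ) / 2) = δ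
    rw [map_div₀, map_add, vρ, map_natCast, map_ofNat, sg_false, hδ]
    ring
  · intro i
    show F.s i true (((C : K) + (-ρ)) / 2) = δ
    rw [map_div₀, map_add, map_neg, vρ, map_natCast, map_ofNat, sg_true, hδ]
    ring
  · intro i
    show F.s i false (((C : K) + (-ρ)) / 2) = α
    rw [map_div₀, map_add, map_neg, vρ, map_natCast, map_ofNat, sg_false, hα]
    ring
  · rw [hR, hκ]; push_cast; exact le_rfl
  · rw [Real.sqrt_mul (by positivity), Real.sqrt_mul (by linarith)]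
    have h1 : 2 * √((SS (g * u) : ℕ) : ℝ) ≤ √(κ : ℝ) := by
      have : √(4 * ((SS (g * u) : ℕ) : ℝ)) ≤ √(κ : ℝ) := Real.sqrt_le_sqrt hκ4r
      rwa [Real.sqrt_mul (by norm_num), show (4 : ℝ) = 2 ^ 2 by norm_num,
        Real.sqrt_sq (by norm_num)] at this
    have h2 : √α * √δ ≤ √α := by nlinarith
    have h3 : 0 ≤ √α * √δ := by positivity
    have h4 : 0 ≤ √((SS (g * u) : ℕ) : ℝ) := Real.sqrt_nonneg _
    rw [hR]
    calc 2 * (√((SS (g * u) : ℕ) : ℝ) * (√α * √δ))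
        = (2 * √((SS (g * u) : ℕ) : ℝ)) * (√α * √δ) := by ring
      _ ≤ √(κ : ℝ) * (√α * √δ) := mul_le_mul_of_nonneg_right h1 h3
      _ ≤ √(κ : ℝ) * √α := mul_le_mul_of_nonneg_left h2 hκs
      _ ≤ √(κ : ℝ) * (√α + √δ) := mul_le_mul_of_nonneg_left (by linarith) hκs

end

end BQN
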