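import Pool.Agent.BQN.Par

/-! Parity types of the coordinates with respect to the square roots of the discriminants. -/

namespace BQN

open NumberField BQF

/-- the discriminant of `ℚ(√m)` -/
def D (m : ℕ) : ℕ := if m % 4 = 1 then m else 4 * m

/-- parity type of a triple of radicands -/
def typ (a b c : ℕ) : ℕ :=
  if b % 4 = c % 4 then (if a % 4 = 1 ∧ b % 4 = 1 then 0 else 1)
  else if a % 4 = c % 4 then 2 else 3

set_option synthInstance.maxSize 4096 in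
theorem zlem : ∀ g u v : ZMod 4, (g * v = u * v ∧ g * v ≠ 1 ∧ g ≠ 0 ∧ u ≠ 0 ∧ v ≠ 0 ∧ g * u ≠ 0 ∧
    g * v ≠ 0 ∧ u * v ≠ 0) → ∀ y0 ys yi yj : ZMod 4,
    (g * u = 1 → y0 ^ 2 + g * u * ys ^ 2 - g * v * yi ^ 2 - u * v * yj ^ 2
      = 2 * (y0 * ys - v * yi * yj)) →
    (g * u ≠ 1 → y0 ^ 2 + g * u * ys ^ 2 - g * v * yi ^ 2 - u * v * yj ^ 2 = 0 ∧
      2 * (y0 * ys - v * yi * yj) = 0) →
    2 * (yi - yj) = 0 ∧ (g * u ≠ 1 → 2 * ys = 0) := by
  decide +kernel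

theorem zpar : ∀ m a b : ZMod 4, m ≠ 0 → a ^ 2 - m * b ^ 2 = 0 →
    (m = 1 → 2 * (a - b) = 0) ∧ (m ≠ 1 → 2 * a = 0 ∧ 2 * b = 0) := by
  decide +kernel

theorem cast_two {a : ℤ} (h : (2 : ZMod 4) * (a : ZMod 4) = 0) : (2 : ℤ) ∣ a := by
  have h1 : (((2 * a : ℤ)) : ZMod 4) = 0 := by push_cast; exact h
  have h2 := (ZMod.intCast_zmod_eq_zero_iff_dvd (2 * a) 4).mp h1
  norm_num at h2
  omega

theorem cast_four {a : ℤ} (h : (4 : ℤ) ∣ a) : (a : ZMod 4) = 0 :=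
  (ZMod.intCast_zmod_eq_zero_iff_dvd a 4).mpr (by exact_mod_cast h)

theorem cast_mod {m : ℕ} : m % 4 = 1 ↔ (m : ZMod 4) = 1 := by
  have : (m : ZMod 4) = ((1 : ℕ) : ZMod 4) ↔ m % 4 = 1 % 4 := ZMod.natCast_eq_natCast_iff' m 1 4
  simpa using this.symm

theorem cast_zero {m : ℕ} : m % 4 = 0 ↔ (m : ZMod 4) = 0 := by
  have : (m : ZMod 4) = ((0 : ℕ) : ZMod 4) ↔ m % 4 = 0 % 4 := ZMod.natCast_eq_natCast_iff' m 0 4
  simpa using this.symm

theorem cast_eq {m n : ℕ} : m % 4 = n % 4 ↔ (m : ZMod 4) = (n : ZMod 4) :=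
  (ZMod.natCast_eq_natCast_iff' m n 4).symm

theorem par1 {m : ℕ} (hm : m % 4 ≠ 0) {a b : ℤ} (h : (4 : ℤ) ∣ a ^ 2 - m * b ^ 2) :
    (m % 4 = 1 → (2 : ℤ) ∣ a - b) ∧ (m % 4 ≠ 1 → (2 : ℤ) ∣ a ∧ (2 : ℤ) ∣ b) := by
  have h1 := cast_four h
  push_cast at h1
  have h2 := zpar (m : ZMod 4) (a : ZMod 4) (b : ZMod 4) (fun h0 => hm (cast_zero.mpr h0)) h1
  refine ⟨fun h3 => cast_two ?_, fun h3 => ⟨cast_two ?_, cast_two ?_⟩⟩
  · push_cast
    exact h2.1 (cast_mod.mp h3)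
  · exact (h2.2 fun h4 => h3 (cast_mod.mpr h4)).1
  · exact (h2.2 fun h4 => h3 (cast_mod.mpr h4)).2

theorem step {g u v : ℕ} {y0 ys yi yj p q : ℤ}
    (h1 : y0 ^ 2 + (g * u : ℕ) * ys ^ 2 - (g * v : ℕ) * yi ^ 2 - (u * v : ℕ) * yj ^ 2 = 2 * p)
    (h2 : y0 * ys - v * yi * yj = q) (h3 : (4 : ℤ) ∣ p ^ 2 - (g * u : ℕ) * q ^ 2)
    (hg : (g * u) % 4 ≠ 0) (hv : (g * v) % 4 ≠ 0) (hu : (u * v) % 4 ≠ 0)
    (he : (g * v) % 4 = (u * v) % 4) (h1' : (g * v) % 4 ≠ 1) :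
    (2 : ℤ) ∣ yi - yj ∧ ((g * u) % 4 ≠ 1 → (2 : ℤ) ∣ ys) := by
  obtain ⟨k1, k2⟩ := par1 hg h3
  have c1 : ((y0 : ZMod 4)) ^ 2 + g * u * ys ^ 2 - g * v * yi ^ 2 - u * v * yj ^ 2 = 2 * p := by
    have := congrArg (fun z : ℤ => (z : ZMod 4)) h1
    push_cast at this
    exact this
  have c2 : ((y0 : ZMod 4)) * ys - v * yi * yj = q := by
    have := congrArg (fun z : ℤ => (z : ZMod 4)) h2
    push_cast at this
    exact this
  have g0 : (g : ZMod 4) * u ≠ 0 := fun h => hg (cast_zero.mpr (by push_cast; exact h))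
  have v0 : (g : ZMod 4) * v ≠ 0 := fun h => hv (cast_zero.mpr (by push_cast; exact h))
  have u0 : (u : ZMod 4) * v ≠ 0 := fun h => hu (cast_zero.mpr (by push_cast; exact h))
  have e0 : (g : ZMod 4) * v = u * v := by
    have := cast_eq.mp he
    push_cast at this
    exact this
  have o0 : (g : ZMod 4) * v ≠ 1 := fun h => h1' (cast_mod.mpr (by push_cast; exact h))
  have key := zlem g u v ⟨e0, o0, left_ne_zero_of_mul g0, right_ne_zero_of_mul g0,
    right_ne_zero_of_mul v0, g0, v0, u0⟩ y0 ys yi yj ?_ ?_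
  · refine ⟨cast_two ?_, fun h => cast_two ?_⟩
    · push_cast
      exact key.1
    · exact key.2 fun h4 => h (cast_mod.mpr (by push_cast; exact h4))
  · intro h
    rw [c1, c2]
    obtain ⟨k, hk⟩ := k1 (cast_mod.mpr (by push_cast; exact h))
    have : p = q + 2 * k := by linarith
    rw [this]
    push_cast
    have h4 : (2 : ZMod 4) * 2 = 0 := by decide
    linear_combination (k : ZMod 4) * h4
  · intro h
    obtain ⟨⟨k, hk⟩, ⟨l, hl⟩⟩ := k2 fun h5 => h (by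
      have := cast_mod.mp h5
      push_cast at this
      exact this)
    rw [c1, c2, hk, hl]
    push_cast
    have h4 : (2 : ZMod 4) * 2 = 0 := by decide
    exact ⟨by linear_combination (k : ZMod 4) * h4, by linear_combination (l : ZMod 4) * h4⟩

theorem mod4_ne {g u v : ℕ} (h : Squarefree (g * u * v)) :
    (g * u) % 4 ≠ 0 ∧ (g * v) % 4 ≠ 0 ∧ (u * v) % 4 ≠ 0 := by
  have key : ∀ m : ℕ, Squarefree m → m % 4 ≠ 0 := by
    intro m hm h0
    have : 2 * 2 ∣ m := Nat.dvd_of_mod_eq_zero h0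
    have := hm 2 this
    rw [Nat.isUnit_iff] at this
    omega
  exact ⟨key _ (sqf1 h), key _ (sqf2 h), key _ (sqf3 h)⟩

/-- residues modulo `4` of the three radicands -/
theorem zres : ∀ g u v : ZMod 4, g * u * v ≠ 0 → (g * u = 1 ∧ g * v = 1 ∧ u * v = 1) ∨
    (g * v = u * v ∧ g * v ≠ 1) ∨ (g * v ≠ u * v ∧ g * u = u * v ∧ g * u ≠ 1) ∨
    (g * v ≠ u * v ∧ g * u ≠ u * v ∧ g * u = g * v ∧ g * u ≠ 1) := by
  decide +kernel

/-- the four residue patterns -/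
theorem nres {g u v : ℕ} (h : Squarefree (g * u * v)) :
    ((g * u) % 4 = 1 ∧ (g * v) % 4 = 1 ∧ (u * v) % 4 = 1) ∨
    ((g * v) % 4 = (u * v) % 4 ∧ (g * v) % 4 ≠ 1) ∨
    ((g * v) % 4 ≠ (u * v) % 4 ∧ (g * u) % 4 = (u * v) % 4 ∧ (g * u) % 4 ≠ 1) ∨
    ((g * v) % 4 ≠ (u * v) % 4 ∧ (g * u) % 4 ≠ (u * v) % 4 ∧ (g * u) % 4 = (g * v) % 4 ∧
      (g * u) % 4 ≠ 1) := by
  have h0 : (g : ZMod 4) * u * v ≠ 0 := by
    intro h0
    have h1 : (g * u * v) % 4 = 0 := cast_zero.mpr (by push_cast; exact h0)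
    have := h 2 (Nat.dvd_of_mod_eq_zero h1)
    rw [Nat.isUnit_iff] at this
    omega
  have key := zres g u v h0
  simp only [cast_mod, cast_eq, ne_eq, Nat.cast_mul]
  exact key

/-- passing from the root of the radicand to the root of the discriminant -/
theorem root_D {m : ℕ} {X Y : ℤ} (h : X = 2 * Y) :
    (X : ℝ) * √(m : ℝ) = ((if m % 4 = 1 then X else Y : ℤ) : ℝ) * √(D m : ℝ) := by
  unfold D
  split_ifs with h1
  · rfl
  · have : √((4 * m : ℕ) : ℝ) = 2 * √(m : ℝ) := by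
      push_cast
      rw [Real.sqrt_mul (by norm_num), show (4 : ℝ) = 2 ^ 2 by norm_num, Real.sqrt_sq (by norm_num)]
    rw [this, h]
    push_cast
    ring

section
variable {K : Type*} [Field K] [NumberField K] {g u v : ℕ}

theorem zcoord (F : Fld K (g * u) (g * v) (u * v) g) (hs : Squarefree (g * u * v)) (x : 𝓞 K) :
    ∃ Z0 Z1 Z2 Z3 : ℤ, (∀ i j, 4 * F.s i j (x : K) = Z0 + Z1 * (sg i * √(D (g * u) : ℝ))
      + Z2 * (sg j * √(D (g * v) : ℝ)) + Z3 * (sg i * sg j * √(D (u * v) : ℝ))) ∧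
      (typ (g * u) (g * v) (u * v) ≤ 1 → (2 : ℤ) ∣ Z2 - Z3) ∧
      (typ (g * u) (g * v) (u * v) = 2 → (2 : ℤ) ∣ Z2 ∧ (2 : ℤ) ∣ Z1 - Z3) ∧
      (typ (g * u) (g * v) (u * v) = 3 → (2 : ℤ) ∣ Z3 ∧ (2 : ℤ) ∣ Z1 - Z2) := by
  obtain ⟨X0, X1, X2, X3, hX, hI⟩ := intX F hs x
  have hr : ∀ i j, 4 * F.s i j (x : K) = X0 + X1 * (sg i * √((g * u : ℕ) : ℝ))
      + X2 * (sg j * √((g * v : ℕ) : ℝ)) + X3 * (sg i * sg j * √((u * v : ℕ) : ℝ)) := by
    intro i j
    have h2 := congrArg (F.s i j) hX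
    simp only [map_add, map_mul, map_intCast, map_ofNat, F.s1, F.s2, F.s3] at h2
    exact h2
  obtain ⟨z1, z2, z3⟩ := mod4_ne hs
  obtain ⟨a1, b1⟩ := par1 z1 hI.t1
  obtain ⟨a2, b2⟩ := par1 z2 hI.t2
  obtain ⟨a3, b3⟩ := par1 z3 hI.t3
  have hres := nres hs
  by_cases hall : (g * u) % 4 = 1 ∧ (g * v) % 4 = 1 ∧ (u * v) % 4 = 1
  · obtain ⟨r1, r2, r3⟩ := hall
    have e1 : D (g * u) = g * u := by simp [D, r1]
    have e2 : D (g * v) = g * v := by simp [D, r2]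
    have e3 : D (u * v) = u * v := by simp [D, r3]
    have ht : typ (g * u) (g * v) (u * v) = 0 := by simp [typ, r1, r2, r3]
    refine ⟨X0, X1, X2, X3, ?_, ?_, ?_, ?_⟩
    · rw [e1, e2, e3]; exact hr
    · intro _
      have := a2 r2
      have := a3 r3
      omega
    · rw [ht]; omega
    · rw [ht]; omega
  · have hres' := hres.resolve_left hall
    have hX0 : (2 : ℤ) ∣ X0 := by
      by_cases c1 : (g * u) % 4 = 1
      · by_cases c2 : (g * v) % 4 = 1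
        · by_cases c3 : (u * v) % 4 = 1
          · exact absurd ⟨c1, c2, c3⟩ hall
          · exact (b3 c3).1
        · exact (b2 c2).1
      · exact (b1 c1).1
    have hX1 : (2 : ℤ) ∣ X1 := by
      by_cases c1 : (g * u) % 4 = 1
      · have := a1 c1; omega
      · exact (b1 c1).2
    have hX2 : (2 : ℤ) ∣ X2 := by
      by_cases c1 : (g * v) % 4 = 1
      · have := a2 c1; omega
      · exact (b2 c1).2
    have hX3 : (2 : ℤ) ∣ X3 := by
      by_cases c1 : (u * v) % 4 = 1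
      · have := a3 c1; omega
      · exact (b3 c1).2
    obtain ⟨Y0, hY0⟩ := hX0
    obtain ⟨Y1, hY1⟩ := hX1
    obtain ⟨Y2, hY2⟩ := hX2
    obtain ⟨Y3, hY3⟩ := hX3
    refine ⟨X0, if (g * u) % 4 = 1 then X1 else Y1, if (g * v) % 4 = 1 then X2 else Y2,
      if (u * v) % 4 = 1 then X3 else Y3, ?_, ?_, ?_, ?_⟩
    · intro i j
      rw [hr]
      have k1 := root_D (m := g * u) hY1
      have k2 := root_D (m := g * v) hY2
      have k3 := root_D (m := u * v) hY3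
      linear_combination (sg i) * k1 + (sg j) * k2 + (sg i * sg j) * k3
    · intro ht
      rcases hres' with ⟨h1, h2⟩ | ⟨h1, h2, h3⟩ | ⟨h1, h2, h3, h4⟩
      · obtain ⟨p, q, hp, hq, hd⟩ := hI.n1
        have h3 : (u * v) % 4 ≠ 1 := by rw [← h1]; exact h2
        rw [if_neg h2, if_neg h3]
        rw [hY0, hY1, hY2, hY3] at hp hq
        exact (step (g := g) (u := u) (v := v) (y0 := Y0) (ys := Y1) (yi := Y2) (yj := Y3)
          (p := p) (q := q) (by linarith) (by linarith) hd z1 z2 z3 h1 h2).1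
      · have : typ (g * u) (g * v) (u * v) = 2 := by simp [typ, h1, h2]
        omega
      · have : typ (g * u) (g * v) (u * v) = 3 := by simp [typ, h1, h2]
        omega
    · intro ht
      rcases hres' with ⟨h1, h2⟩ | ⟨h1, h2, h3⟩ | ⟨h1, h2, h3, h4⟩
      · exfalso
        unfold typ at ht
        rw [if_pos h1] at ht
        split_ifs at ht <;> omega
      · obtain ⟨p, q, hp, hq, hd⟩ := hI.n2
        have h4 : (u * v) % 4 ≠ 1 := by rw [← h2]; exact h3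
        rw [if_neg h3, if_neg h4]
        rw [hY0, hY1, hY2, hY3] at hp hq
        have key := step (g := g) (u := v) (v := u) (y0 := Y0) (ys := Y2) (yi := Y1) (yj := Y3)
          (p := p) (q := q) (by rw [mul_comm v u]; linarith) (by linarith) hd z2 z1
          (by rw [mul_comm]; exact z3) (by rw [mul_comm v u]; exact h2) h3
        refine ⟨?_, key.1⟩
        split_ifs with h5
        · exact ⟨Y2, hY2⟩
        · exact key.2 h5
      · have : typ (g * u) (g * v) (u * v) = 3 := by simp [typ, h1, h2]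
        omega
    · intro ht
      rcases hres' with ⟨h1, h2⟩ | ⟨h1, h2, h3⟩ | ⟨h1, h2, h3, h4⟩
      · exfalso
        unfold typ at ht
        rw [if_pos h1] at ht
        split_ifs at ht <;> omega
      · have : typ (g * u) (g * v) (u * v) = 2 := by simp [typ, h1, h2]
        omega
      · obtain ⟨p, q, hp, hq, hd⟩ := hI.n3
        have h5 : (g * v) % 4 ≠ 1 := by rw [← h3]; exact h4
        rw [if_neg h4, if_neg h5]
        rw [hY0, hY1, hY2, hY3] at hp hq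
        have key := step (g := u) (u := v) (v := g) (y0 := Y0) (ys := Y3) (yi := Y1) (yj := Y2)
          (p := p) (q := q) (by rw [mul_comm u g, mul_comm v g]; linarith) (by linarith) hd z3
          (by rw [mul_comm]; exact z1) (by rw [mul_comm]; exact z2)
          (by rw [mul_comm u g, mul_comm v g]; exact h3) (by rw [mul_comm]; exact h4)
        refine ⟨?_, key.1⟩
        split_ifs with h6
        · exact ⟨Y3, hY3⟩
        · exact key.2 h6

end

end BQN
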